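import Pool.Agent.H56.Q.Kap

/-! Module B: the bracket identity `{Re hh, Im hh} = 0` in cell coordinates.

With `h = hh`, `∂_i = ∂/∂c_i`, `∂^i = ∂/∂ξ_i` (real partial derivatives of the complex function
`hh`), the claim is `Im ∑_i (∂^i h) conj (∂_i h) = 0`.  One has `y_0 = 8`, `y_1 = 8 i`,
`s_i = 2 Re (ȳ y_i)`, `η^0 = 1/2`, `η^1 = - i/2`, `Θ = α η - β η̄`, `α = 1 - κ s`, `β = κ ȳ²`,
`∂_i Θ = -(κ' s_i s + κ s_i) η - (κ' s_i ȳ² + 2 κ ȳ conj y_i) η̄`.
With `a = y η` and `b = conj a` the sum is proportional to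
`(a - b) s (2 κ (E - s E') + E') = 0`. -/

set_option autoImplicit false

open Complex
open scoped ContDiff ComplexConjugate

noncomputable section

namespace Pool.Agent.H56.Q

/-! ### smoothness -/

theorem ofReal_contDiff {F : Type*} [NormedAddCommGroup F] [NormedSpace ℝ F] {f : F → ℝ}
    (hf : ContDiff ℝ ∞ f) : ContDiff ℝ ∞ (fun x => (f x : ℂ)) :=
  Complex.ofRealCLM.contDiff.comp hf

theorem conj_contDiff {F : Type*} [NormedAddCommGroup F] [NormedSpace ℝ F] {f : F → ℂ}
    (hf : ContDiff ℝ ∞ f) : ContDiff ℝ ∞ (fun x => conj (f x)) :=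
  (Complex.conjCLE.toContinuousLinearMap.contDiff).comp hf

theorem yC_contDiff : ContDiff ℝ ∞ yC := by
  unfold yC
  exact contDiff_const.mul ((ofReal_contDiff (contDiff_apply ℝ ℝ 0)).add
    ((ofReal_contDiff (contDiff_apply ℝ ℝ 1)).mul contDiff_const))

theorem sC_contDiff : ContDiff ℝ ∞ sC := by
  unfold sC
  exact contDiff_const.mul (((contDiff_apply ℝ ℝ 0).pow 2).add ((contDiff_apply ℝ ℝ 1).pow 2))

theorem eta_contDiff : ContDiff ℝ ∞ eta := by
  unfold eta
  exact ((ofReal_contDiff (contDiff_apply ℝ ℝ 0)).sub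
    ((ofReal_contDiff (contDiff_apply ℝ ℝ 1)).mul contDiff_const)).div_const 2

theorem Th_contDiff : ContDiff ℝ ∞ (fun z : E × E => Th z.1 z.2) := by
  unfold Th
  have hs : ContDiff ℝ ∞ (fun z : E × E => sC z.1) := sC_contDiff.comp contDiff_fst
  have hk : ContDiff ℝ ∞ (fun z : E × E => kap (sC z.1)) := kap_contDiff.comp hs
  have hy : ContDiff ℝ ∞ (fun z : E × E => yC z.1) := yC_contDiff.comp contDiff_fst
  have he : ContDiff ℝ ∞ (fun z : E × E => eta z.2) := eta_contDiff.comp contDiff_snd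
  exact ((contDiff_const.sub ((ofReal_contDiff hk).mul (ofReal_contDiff hs))).mul he).sub
    (((ofReal_contDiff hk).mul ((conj_contDiff hy).pow 2)).mul (conj_contDiff he))

theorem hh_contDiff : ContDiff ℝ ∞ (fun z : E × E => hh z.1 z.2) := by
  unfold hh
  have hs : ContDiff ℝ ∞ (fun z : E × E => sC z.1) := sC_contDiff.comp contDiff_fst
  have hE : ContDiff ℝ ∞ (fun z : E × E => EE (sC z.1)) := EE_contDiff.comp hs
  have hy : ContDiff ℝ ∞ (fun z : E × E => yC z.1) := yC_contDiff.comp contDiff_fst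
  exact ((contDiff_const.mul hy).mul (ofReal_contDiff hE)).mul (Th_contDiff.pow 3)

theorem hh_zero {c : E} (h : 2 ≤ sC c) (ξ : E) : hh c ξ = 0 := by
  unfold hh
  rw [EE_zero h]
  simp

/-- in the inner disc `hh = y η³ / 8` -/
theorem hh_inner {c : E} (h : sC c ≤ 1) (ξ : E) : hh c ξ = (1 / 8) * yC c * eta ξ ^ 3 := by
  unfold hh Th
  rw [EE_one h, kap_zero h]
  simp

/-! ### directional derivatives -/

theorem dir_deriv {F : E → ℂ} {x v : E} {D : ℂ} (hF : DifferentiableAt ℝ F x)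
    (h : HasDerivAt (fun t : ℝ => F (x + t • v)) D 0) : fderiv ℝ F x v = D := by
  have h1 : HasDerivAt (fun t : ℝ => F (x + t • v)) (fderiv ℝ F x v) 0 :=
    hF.hasFDerivAt.hasLineDerivAt v
  exact h1.unique h

theorem fderiv_re {F : E → ℂ} {x : E} (v : E) (hF : DifferentiableAt ℝ F x) :
    fderiv ℝ (fun y => (F y).re) x v = (fderiv ℝ F x v).re := by
  have h := (Complex.reCLM.hasFDerivAt (x := F x)).comp x hF.hasFDerivAt
  have h2 : fderiv ℝ (fun y => (F y).re) x = Complex.reCLM.comp (fderiv ℝ F x) := h.fderiv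
  rw [h2]
  rfl

theorem fderiv_im {F : E → ℂ} {x : E} (v : E) (hF : DifferentiableAt ℝ F x) :
    fderiv ℝ (fun y => (F y).im) x v = (fderiv ℝ F x v).im := by
  have h := (Complex.imCLM.hasFDerivAt (x := F x)).comp x hF.hasFDerivAt
  have h2 : fderiv ℝ (fun y => (F y).im) x = Complex.imCLM.comp (fderiv ℝ F x) := h.fderiv
  rw [h2]
  rfl

theorem hh_diff_xi (c ξ : E) : DifferentiableAt ℝ (fun η : E => hh c η) ξ := by
  have h0 : ContDiff ℝ ∞ (fun η : E => (c, η)) := contDiff_const.prodMk contDiff_id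
  have h := ContDiff.comp (g := fun z : E × E => hh z.1 z.2) (f := fun η : E => (c, η))
    hh_contDiff h0
  exact (h.differentiable (by simp)) ξ

theorem hh_diff_c (c ξ : E) : DifferentiableAt ℝ (fun y : E => hh y ξ) c := by
  have h0 : ContDiff ℝ ∞ (fun y : E => (y, ξ)) := contDiff_id.prodMk contDiff_const
  have h := ContDiff.comp (g := fun z : E × E => hh z.1 z.2) (f := fun y : E => (y, ξ))
    hh_contDiff h0
  exact (h.differentiable (by simp)) c

/-! ### derivative in `ξ` -/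

theorem eta_line (ξ w : E) (t : ℝ) : eta (ξ + t • w) = eta ξ + (t : ℂ) * eta w := by
  unfold eta
  simp only [Pi.add_apply, Pi.smul_apply, smul_eq_mul]
  push_cast
  ring

theorem ofReal_line_deriv (a b : ℂ) :
    HasDerivAt (fun t : ℝ => a + (t : ℂ) * b) b 0 := by
  have h1 : HasDerivAt (fun t : ℝ => (t : ℂ)) 1 0 := Complex.ofRealCLM.hasDerivAt
  simpa using (h1.mul_const b).const_add a

theorem Th_xi (c ξ w : E) (t : ℝ) : Th c (ξ + t • w) = Th c ξ + (t : ℂ) * Th c w := by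
  unfold Th
  rw [eta_line]
  simp only [map_add, map_mul, Complex.conj_ofReal]
  ring

theorem hh_xi (c ξ w : E) :
    fderiv ℝ (fun η : E => hh c η) ξ w
      = (3 / 8) * yC c * (EE (sC c) : ℂ) * Th c ξ ^ 2 * Th c w := by
  apply dir_deriv (hh_diff_xi c ξ)
  have h1 : HasDerivAt (fun t : ℝ => Th c (ξ + t • w)) (Th c w) 0 := by
    simp only [Th_xi]
    exact ofReal_line_deriv _ _
  have h2 := (h1.pow 3).const_mul ((1 / 8) * yC c * (EE (sC c) : ℂ))
  simp only [zero_smul, add_zero] at h2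
  unfold hh
  refine h2.congr_deriv ?_
  push_cast
  ring

/-! ### derivative in `c` -/

theorem yC_line (c v : E) (t : ℝ) : yC (c + t • v) = yC c + (t : ℂ) * yC v := by
  unfold yC
  simp only [Pi.add_apply, Pi.smul_apply, smul_eq_mul]
  push_cast
  ring

/-- derivative of `s` along `v` -/
def sD (c v : E) : ℝ := 128 * (c 0 * v 0 + c 1 * v 1)

theorem sC_line (c v : E) : HasDerivAt (fun t : ℝ => sC (c + t • v)) (sD c v) 0 := by
  have h0 : HasDerivAt (fun t : ℝ => c 0 + t * v 0) (v 0) 0 := by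
    simpa using ((hasDerivAt_id (0 : ℝ)).mul_const (v 0)).const_add (c 0)
  have h1 : HasDerivAt (fun t : ℝ => c 1 + t * v 1) (v 1) 0 := by
    simpa using ((hasDerivAt_id (0 : ℝ)).mul_const (v 1)).const_add (c 1)
  have h := ((h0.pow 2).add (h1.pow 2)).const_mul 64
  unfold sC sD
  simp only [Pi.add_apply, Pi.smul_apply, smul_eq_mul]
  refine h.congr_deriv ?_
  simp
  ring

theorem real_comp_line {f : ℝ → ℝ} (hf : ContDiff ℝ ∞ f) (c v : E) :
    HasDerivAt (fun t : ℝ => ((f (sC (c + t • v)) : ℝ) : ℂ))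
      (((deriv f (sC c) : ℝ) : ℂ) * (sD c v : ℂ)) 0 := by
  have h1 : HasDerivAt f (deriv f (sC (c + (0 : ℝ) • v))) (sC (c + (0 : ℝ) • v)) :=
    ((hf.differentiable (by simp)).differentiableAt).hasDerivAt
  have h2 := (h1.comp (0 : ℝ) (sC_line c v)).ofReal_comp
  refine h2.congr_deriv ?_
  simp

/-- derivative of `Θ` along `v` in `c` -/
def ThD (c v ξ : E) : ℂ :=
  -(((deriv kap (sC c) : ℝ) : ℂ) * (sD c v : ℂ) * (sC c : ℂ) + (kap (sC c) : ℂ) * (sD c v : ℂ)) * eta ξ
  - (((deriv kap (sC c) : ℝ) : ℂ) * (sD c v : ℂ) * conj (yC c) ^ 2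
      + 2 * (kap (sC c) : ℂ) * conj (yC c) * conj (yC v)) * conj (eta ξ)

theorem Th_c (c v ξ : E) : HasDerivAt (fun t : ℝ => Th (c + t • v) ξ) (ThD c v ξ) 0 := by
  have hk := real_comp_line kap_contDiff c v
  have hs : HasDerivAt (fun t : ℝ => (sC (c + t • v) : ℂ)) (sD c v : ℂ) 0 :=
    (sC_line c v).ofReal_comp
  have hy : HasDerivAt (fun t : ℝ => conj (yC (c + t • v))) (conj (yC v)) 0 := by
    simp only [yC_line, map_add, map_mul, Complex.conj_ofReal]
    exact ofReal_line_deriv _ _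
  have h := (((hk.mul hs).const_sub 1).mul_const (eta ξ)).sub
    ((hk.mul (hy.pow 2)).mul_const (conj (eta ξ)))
  unfold Th ThD
  refine h.congr_deriv ?_
  simp only [zero_smul, add_zero, Pi.pow_apply]
  push_cast
  ring

theorem hh_c (c v ξ : E) :
    fderiv ℝ (fun y : E => hh y ξ) c v
      = (1 / 8) * Th c ξ ^ 2 * (yC v * (EE (sC c) : ℂ) * Th c ξ
        + yC c * (((deriv EE (sC c) : ℝ) : ℂ) * (sD c v : ℂ)) * Th c ξ
        + 3 * yC c * (EE (sC c) : ℂ) * ThD c v ξ) := by
  apply dir_deriv (hh_diff_c c ξ)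
  have hE := real_comp_line EE_contDiff c v
  have hy : HasDerivAt (fun t : ℝ => yC (c + t • v)) (yC v) 0 := by
    simp only [yC_line]
    exact ofReal_line_deriv _ _
  have h := ((hy.const_mul (1 / 8 : ℂ)).mul hE).mul ((Th_c c v ξ).pow 3)
  unfold hh
  refine h.congr_deriv ?_
  simp
  ring

/-! ### the algebra -/

/-- the values at the two unit vectors -/
theorem yC_single_zero : yC (Pi.single 0 1) = 8 := by
  simp [yC]

theorem yC_single_one : yC (Pi.single 1 1) = 8 * I := by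
  simp [yC]

theorem eta_single_zero : eta (Pi.single 0 1) = 1 / 2 := by
  simp [eta]

theorem eta_single_one : eta (Pi.single 1 1) = - I / 2 := by
  simp [eta]

theorem sC_eq (c : E) : (sC c : ℂ) = yC c * conj (yC c) := by
  unfold sC yC
  simp only [map_add, map_mul, Complex.conj_ofReal, Complex.conj_I, map_ofNat]
  push_cast
  linear_combination (64 * (c 1 : ℂ) ^ 2) * Complex.I_sq

theorem sD_eq (c v : E) : (sD c v : ℂ) = conj (yC c) * yC v + yC c * conj (yC v) := by
  unfold sD yC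
  simp only [map_add, map_mul, Complex.conj_ofReal, Complex.conj_I, map_ofNat]
  push_cast
  linear_combination (128 * (c 1 : ℂ) * (v 1 : ℂ)) * Complex.I_sq

/-- the polynomial identity behind the bracket identity -/
theorem alg (y Y e H k k' F F' T T' : ℂ) (rel : 2 * k * (F - y * Y * F') = - F')
    (hT : T = (1 - k * (y * Y)) * e - k * Y ^ 2 * H)
    (hT' : T' = (1 - k * (y * Y)) * H - k * y ^ 2 * e) :
    Y * (-(k * y ^ 2) * (F * T + y * F' * Y * T
          + 3 * y * F * (-(k' * (y * Y) + k) * Y * e - k' * Y ^ 3 * H))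
        + (1 - k * (y * Y)) * (y * F' * y * T
          + 3 * y * F * (-(k' * (y * Y) + k) * y * e - k' * y * Y ^ 2 * H - 2 * k * Y * H)))
    = y * (-(k * Y ^ 2) * (F * T' + Y * F' * y * T'
          + 3 * Y * F * (-(k' * (y * Y) + k) * y * H - k' * y ^ 3 * e))
        + (1 - k * (y * Y)) * (Y * F' * Y * T'
          + 3 * Y * F * (-(k' * (y * Y) + k) * Y * H - k' * Y * y ^ 2 * e - 2 * k * y * e))) := by
  subst hT hT'
  linear_combination (y * e - Y * H) * (y * Y) * rel

theorem Th_apply (c w : E) : Th c w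
    = (1 - (kap (sC c) : ℂ) * (sC c : ℂ)) * eta w
      - (kap (sC c) : ℂ) * conj (yC c) ^ 2 * conj (eta w) := rfl

theorem Th_conj (c w : E) : conj (Th c w)
    = (1 - (kap (sC c) : ℂ) * (sC c : ℂ)) * conj (eta w)
      - (kap (sC c) : ℂ) * yC c ^ 2 * eta w := by
  simp only [Th, map_mul, map_sub, map_pow, map_one, Complex.conj_ofReal, Complex.conj_conj]

theorem hh_bracket_complex (c ξ : E) :
    conj (fderiv ℝ (fun η : E => hh c η) ξ (Pi.single 0 1))
        * fderiv ℝ (fun y : E => hh y ξ) c (Pi.single 0 1)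
      + conj (fderiv ℝ (fun η : E => hh c η) ξ (Pi.single 1 1))
        * fderiv ℝ (fun y : E => hh y ξ) c (Pi.single 1 1)
    = fderiv ℝ (fun η : E => hh c η) ξ (Pi.single 0 1)
        * conj (fderiv ℝ (fun y : E => hh y ξ) c (Pi.single 0 1))
      + fderiv ℝ (fun η : E => hh c η) ξ (Pi.single 1 1)
        * conj (fderiv ℝ (fun y : E => hh y ξ) c (Pi.single 1 1)) := by
  have hrel : 2 * (kap (sC c) : ℂ)
        * ((EE (sC c) : ℂ) - yC c * conj (yC c) * ((deriv EE (sC c) : ℝ) : ℂ))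
      = - ((deriv EE (sC c) : ℝ) : ℂ) := by
    rw [← sC_eq]
    exact_mod_cast kap_rel (sC c)
  have hT := Th_apply c ξ
  have hT' := Th_conj c ξ
  rw [sC_eq] at hT hT'
  simp only [hh_xi, hh_c, ThD, Th_apply c (Pi.single 0 1), Th_apply c (Pi.single 1 1), sD_eq,
    sC_eq, map_mul, map_add, map_sub, map_neg, map_pow, map_div₀, map_one,
    map_ofNat, Complex.conj_ofReal, Complex.conj_conj, yC_single_zero, yC_single_one,
    eta_single_zero, eta_single_one, Complex.conj_I]
  generalize (starRingEnd ℂ) (Th c ξ) = T' at *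
  generalize Th c ξ = T at *
  generalize (starRingEnd ℂ) (eta ξ) = H at *
  generalize eta ξ = e at *
  generalize (starRingEnd ℂ) (yC c) = Y at *
  generalize yC c = y at *
  generalize (kap (sC c) : ℂ) = k at *
  generalize ((deriv kap (sC c) : ℝ) : ℂ) = k' at *
  generalize (EE (sC c) : ℂ) = F at *
  generalize ((deriv EE (sC c) : ℝ) : ℂ) = F' at *
  have ha := alg y Y e H k k' F F' T T' hrel hT hT'
  have hI := Complex.I_sq
  linear_combination (8 * (3 / 64) * F * T ^ 2 * T' ^ 2) * ha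
    + (4 * (3 / 64) * F * T ^ 2 * T' ^ 2) * (Y * ((1 - k * (y * Y)) + k * y ^ 2)
      * ((F * T + y * F' * Y * T
          + 3 * y * F * (-(k' * (y * Y) + k) * Y * e - k' * Y ^ 3 * H)) - (y * F' * y * T
          + 3 * y * F * (-(k' * (y * Y) + k) * y * e - k' * y * Y ^ 2 * H - 2 * k * Y * H)))
      - y * ((1 - k * (y * Y)) + k * Y ^ 2)
      * ((F * T' + Y * F' * y * T'
          + 3 * Y * F * (-(k' * (y * Y) + k) * y * H - k' * y ^ 3 * e)) - (Y * F' * Y * T'
          + 3 * Y * F * (-(k' * (y * Y) + k) * Y * H - k' * Y * y ^ 2 * e - 2 * k * y * e)))) * hI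

theorem hh_bracket (c ξ : E) :
    ∑ i : Fin 2, (fderiv ℝ (fun η : E => (hh c η).re) ξ (Pi.single i 1)
        * fderiv ℝ (fun y : E => (hh y ξ).im) c (Pi.single i 1)
      - fderiv ℝ (fun y : E => (hh y ξ).re) c (Pi.single i 1)
        * fderiv ℝ (fun η : E => (hh c η).im) ξ (Pi.single i 1)) = 0 := by
  have h := congrArg Complex.im (hh_bracket_complex c ξ)
  simp only [fderiv_re _ (hh_diff_xi c ξ), fderiv_im _ (hh_diff_xi c ξ),
    fderiv_re _ (hh_diff_c c ξ), fderiv_im _ (hh_diff_c c ξ), Fin.sum_univ_two]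
  simp only [Complex.add_im, Complex.mul_im, Complex.conj_re, Complex.conj_im] at h
  linarith

end Pool.Agent.H56.Q
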