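import Pool.Agent.H56.Q.Sys

/-! Module P: periodisation of functions on `ℝ²` supported in `‖c‖ < 1/2`. -/

set_option autoImplicit false

open MeasureTheory
open scoped ContDiff

noncomputable section

namespace Pool.Agent.H56.Q

theorem cell_proj_apply (x : E) (i : Fin 2) :
    cell (proj x) i = toIocMod (one_pos : (0 : ℝ) < 1) (-1 / 2) (x i) := rfl

/-- `cell (proj x) = x` for `x ∈ (-1/2, 1/2]²` -/
theorem cell_proj {x : E} (h : ∀ i, -1 / 2 < x i ∧ x i ≤ 1 / 2) : cell (proj x) = x := by
  funext i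
  rw [cell_proj_apply, toIocMod_eq_self]
  exact ⟨(h i).1, by linarith [(h i).2]⟩

theorem proj_cell (θ : T2) : proj (cell θ) = θ := by
  funext i
  exact (AddCircle.equivIoc (1 : ℝ) (-1 / 2)).symm_apply_apply (θ i)

theorem cell_mem (θ : T2) (i : Fin 2) : -1 / 2 < cell θ i ∧ cell θ i ≤ 1 / 2 := by
  have h := ((AddCircle.equivIoc (1 : ℝ) (-1 / 2)) (θ i)).2
  refine ⟨h.1, h.2.trans (by norm_num)⟩

theorem norm_cell_le (θ : T2) : ‖cell θ‖ ≤ 1 / 2 := by
  rw [pi_norm_le_iff_of_nonneg (by norm_num)]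
  intro i
  rw [Real.norm_eq_abs, abs_le]
  obtain ⟨h1, h2⟩ := cell_mem θ i
  constructor <;> linarith

theorem exists_int (x : E) : ∃ n : Fin 2 → ℤ, ∀ i, cell (proj x) i = x i - n i := by
  refine ⟨fun i => toIocDiv (one_pos : (0 : ℝ) < 1) (-1 / 2) (x i), fun i => ?_⟩
  rw [cell_proj_apply, ← self_sub_toIocDiv_zsmul]
  simp

theorem proj_sub_int (x : E) (n : Fin 2 → ℤ) : proj (fun i => x i - n i) = proj x := by
  funext i
  simp only [proj]
  rw [AddCircle.coe_sub]
  have : ((n i : ℝ) : UnitAddCircle) = 0 := by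
    rw [AddCircle.coe_eq_zero_iff]
    exact ⟨n i, by simp⟩
  rw [this, sub_zero]

theorem proj_add_int (x : E) (n : Fin 2 → ℤ) : proj (fun i => x i + n i) = proj x := by
  have := proj_sub_int x (fun i => - n i)
  simpa using this

/-- near a point whose cell coordinates are interior, `cell ∘ proj` is a translation -/
theorem cell_eventually {x : E} (h : ‖cell (proj x)‖ < 1 / 2) :
    ∀ᶠ x' in nhds x, cell (proj x') = cell (proj x) + (x' - x) := by
  obtain ⟨n, hn⟩ := exists_int x
  have hc : Continuous fun x' : E => (cell (proj x) + (x' - x) : E) := by fun_prop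
  have hopen : IsOpen {x' : E | ‖(cell (proj x) + (x' - x) : E)‖ < 1 / 2} :=
    isOpen_lt hc.norm continuous_const
  filter_upwards [hopen.mem_nhds (show x ∈ {x' : E | ‖(cell (proj x) + (x' - x) : E)‖ < 1 / 2} by
    simpa using h)] with x' hx'
  have hx'' : ‖(cell (proj x) + (x' - x) : E)‖ < 1 / 2 := hx'
  have e1 : (cell (proj x) + (x' - x) : E) = fun i => x' i - n i := by
    funext i
    simp only [Pi.add_apply, Pi.sub_apply]
    rw [hn i]; ring
  have e2 : proj x' = proj (cell (proj x) + (x' - x)) := by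
    rw [e1, proj_sub_int]
  conv_lhs => rw [e2]
  apply cell_proj
  intro i
  have h1 : |(cell (proj x) + (x' - x) : E) i| < 1 / 2 :=
    lt_of_le_of_lt (norm_le_pi_norm (cell (proj x) + (x' - x) : E) i) hx''
  rw [abs_lt] at h1
  constructor <;> linarith [h1.1, h1.2]

/-- near a point whose cell coordinates are not interior, `‖cell‖` stays near `1/2` -/
theorem cell_eventually' {x : E} (h : ‖cell (proj x)‖ = 1 / 2) {ρ : ℝ} (hρ : ρ < 1 / 2) :
    ∀ᶠ x' in nhds x, ρ < ‖cell (proj x')‖ := by
  obtain ⟨n, hn⟩ := exists_int x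
  -- some coordinate of the cell is `1/2`
  obtain ⟨i, hi⟩ : ∃ i, cell (proj x) i = 1 / 2 := by
    by_contra hcon
    push Not at hcon
    have : ‖cell (proj x)‖ < 1 / 2 := by
      rw [pi_norm_lt_iff (by norm_num)]
      intro i
      obtain ⟨h1, h2⟩ := cell_mem (proj x) i
      rw [Real.norm_eq_abs, abs_lt]
      exact ⟨by linarith, lt_of_le_of_ne h2 (hcon i)⟩
    linarith
  have hxi : x i = 1 / 2 + n i := by linarith [hn i]
  have hball : Metric.ball x (1 / 2 - ρ) ∈ nhds x := Metric.ball_mem_nhds _ (by linarith)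
  filter_upwards [hball] with x' hx'
  obtain ⟨m, hm⟩ := exists_int x'
  have hd : |x' i - x i| < 1 / 2 - ρ := by
    have := dist_le_pi_dist x' x i
    rw [Real.dist_eq] at this
    exact lt_of_le_of_lt this hx'
  have h1 : |cell (proj x') i| ≤ ‖cell (proj x')‖ := norm_le_pi_norm (cell (proj x')) i
  have h2 : (1 : ℝ) / 2 ≤ |x i - m i| := by
    rw [hxi]
    rcases le_or_gt (m i) (n i) with hle | hlt
    · have : (m i : ℝ) ≤ n i := by exact_mod_cast hle
      rw [abs_of_nonneg (by linarith)]; linarith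
    · have : (n i : ℝ) + 1 ≤ m i := by exact_mod_cast hlt
      rw [abs_of_nonpos (by linarith)]; linarith
  have h3 : |x i - m i| ≤ |x' i - x i| + |cell (proj x') i| := by
    rw [hm i]
    calc |x i - m i| = |(x i - x' i) + (x' i - m i)| := by ring_nf
      _ ≤ |x i - x' i| + |x' i - m i| := abs_add_le _ _
      _ = _ := by rw [abs_sub_comm]
  linarith

/-- periodisation preserves smoothness (with a parameter in an open set `O` of a normed space) -/
theorem contDiffOn_cell {Y F : Type*} [NormedAddCommGroup Y] [NormedSpace ℝ Y]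
    [NormedAddCommGroup F] [NormedSpace ℝ F] {O : Set Y} (hO : IsOpen O) {g : Y → E → F}
    {ρ : ℝ} (hρ : ρ < 1 / 2)
    (hg : ContDiffOn ℝ ∞ (fun z : Y × E => g z.1 z.2) (O ×ˢ Set.univ))
    (h0 : ∀ y ∈ O, ∀ c, ρ ≤ ‖c‖ → g y c = 0) :
    ContDiffOn ℝ ∞ (fun z : Y × E => g z.1 (cell (proj z.2))) (O ×ˢ Set.univ) := by
  rintro ⟨y, x⟩ hz
  have hy : y ∈ O := hz.1
  apply ContDiffAt.contDiffWithinAt
  have hcont2 : Filter.Tendsto (fun z : Y × E => z.2) (nhds (y, x)) (nhds x) :=
    continuous_snd.continuousAt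
  have hcont1 : Filter.Tendsto (fun z : Y × E => z.1) (nhds (y, x)) (nhds y) :=
    continuous_fst.continuousAt
  rcases lt_or_ge ‖cell (proj x)‖ (1 / 2) with hlt | hge
  · have hev := hcont2.eventually (cell_eventually hlt)
    have h1 : ContDiffAt ℝ ∞ (fun z : Y × E => g z.1 (cell (proj x) + (z.2 - x))) (y, x) := by
      have hat : ContDiffAt ℝ ∞ (fun z : Y × E => g z.1 z.2) (y, cell (proj x)) :=
        hg.contDiffAt ((hO.prod isOpen_univ).mem_nhds ⟨hy, Set.mem_univ _⟩)
      have hmap : ContDiffAt ℝ ∞ (fun z : Y × E => ((z.1, cell (proj x) + (z.2 - x)) : Y × E))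
          (y, x) := by fun_prop
      have heq : ((y, x) : Y × E).2 - x = 0 := by simp
      have hat' : ContDiffAt ℝ ∞ (fun z : Y × E => g z.1 z.2)
          ((fun z : Y × E => ((z.1, cell (proj x) + (z.2 - x)) : Y × E)) (y, x)) := by
        simpa using hat
      exact hat'.comp (y, x) hmap
    apply h1.congr_of_eventuallyEq
    filter_upwards [hev] with z hz
    rw [hz]
  · have heq : ‖cell (proj x)‖ = 1 / 2 := le_antisymm (norm_cell_le _) hge
    have hev := hcont2.eventually (cell_eventually' heq hρ)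
    have hev1 := hcont1.eventually (hO.mem_nhds hy)
    have h1 : ContDiffAt ℝ ∞ (fun _ : Y × E => (0 : F)) (y, x) := contDiffAt_const
    apply h1.congr_of_eventuallyEq
    filter_upwards [hev, hev1] with z hz hz1
    exact h0 _ hz1 _ hz.le

/-- version without parameter -/
theorem contDiff_cell {F : Type*} [NormedAddCommGroup F] [NormedSpace ℝ F] {g : E → F}
    {ρ : ℝ} (hρ : ρ < 1 / 2) (hg : ContDiff ℝ ∞ g) (h0 : ∀ c, ρ ≤ ‖c‖ → g c = 0) :
    ContDiff ℝ ∞ (fun x : E => g (cell (proj x))) := by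
  have h1 := contDiffOn_cell (Y := ℝ) (O := Set.univ) isOpen_univ (g := fun _ c => g c) hρ
    (by apply ContDiff.contDiffOn; fun_prop) (fun _ _ c hc => h0 c hc)
  rw [Set.univ_prod_univ, contDiffOn_univ] at h1
  have h2 : ContDiff ℝ ∞ fun x : E => (((0 : ℝ), x) : ℝ × E) := by fun_prop
  exact h1.comp h2

/-- all derivatives of the periodised function are bounded -/
theorem bdd_cell {F : Type*} [NormedAddCommGroup F] [NormedSpace ℝ F] {g : E → F}
    {ρ : ℝ} (hρ : ρ < 1 / 2) (hg : ContDiff ℝ ∞ g) (h0 : ∀ c, ρ ≤ ‖c‖ → g c = 0) (j : ℕ) :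
    ∃ B : ℝ, ∀ x : E, ‖iteratedFDeriv ℝ j (fun x : E => g (cell (proj x))) x‖ ≤ B := by
  have hs := contDiff_cell hρ hg h0
  have hc : Continuous (iteratedFDeriv ℝ j (fun x : E => g (cell (proj x)))) :=
    hs.continuous_iteratedFDeriv (by exact_mod_cast le_top)
  obtain ⟨B, hB⟩ := (isCompact_closedBall (0 : E) (1 / 2)).exists_bound_of_continuousOn
    hc.continuousOn
  refine ⟨B, fun x => ?_⟩
  obtain ⟨n, hn⟩ := exists_int x
  have hper : (fun x : E => g (cell (proj x)))
      = fun z : E => (fun x : E => g (cell (proj x))) (z + fun i => (-(n i : ℝ))) := by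
    funext z
    have : proj (z + fun i => (-(n i : ℝ))) = proj z := by
      have := proj_sub_int z n
      rw [← this]
      congr 1
    simp only [this]
  have hsh := iteratedFDeriv_comp_add_right (𝕜 := ℝ) (f := fun x : E => g (cell (proj x))) j
    (fun i => (-(n i : ℝ)))
  rw [hper]
  refine (congrArg norm (hsh x)).trans_le ?_
  apply hB
  rw [mem_closedBall_zero_iff]
  have : (x + fun i => (-(n i : ℝ))) = cell (proj x) := by
    funext i
    rw [hn i]; simp [sub_eq_add_neg]
  rw [this]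
  exact norm_cell_le _

/-- derivative in `x` of a periodised function at an interior point -/
theorem dx_cell {g : E → E → ℂ} {x ξ : E} (h : ‖cell (proj x)‖ < 1 / 2) (i : Fin 2) :
    dx i (fun θ ξ => g (cell θ) ξ) x ξ
      = fderiv ℝ (fun c : E => g c ξ) (cell (proj x)) (Pi.single i 1) := by
  unfold dx
  have hev : (fun y : E => g (cell (proj y)) ξ)
      =ᶠ[nhds x] fun y : E => (fun c : E => g c ξ) (y + (cell (proj x) - x)) := by
    filter_upwards [cell_eventually h] with y hy
    rw [hy]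
    congr 1
    abel
  have hsh := fderiv_comp_add_right (𝕜 := ℝ) (f := fun c : E => g c ξ) (x := x)
    (cell (proj x) - x)
  rw [hev.fderiv_eq]
  refine (congrArg (fun L : E →L[ℝ] ℂ => L (Pi.single i 1)) hsh).trans ?_
  have : x + (cell (proj x) - x) = cell (proj x) := by abel
  rw [this]

end Pool.Agent.H56.Q
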