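import Pool.Agent.H56.Q.Brk
import Pool.Agent.H56.Q.Cell

/-! Module S: `(p1, p2)` is a classical integrable system: symbols of order 3, commuting.
(The almost everywhere independence is module I.) -/

set_option autoImplicit false

open MeasureTheory Complex
open scoped ContDiff ComplexConjugate

noncomputable section

namespace Pool.Agent.H56.Q

/-- symbols in `ξ` only -/
def KNxi (m : ℝ) (q : E → ℂ) : Prop :=
  ContDiff ℝ ∞ q ∧ ∀ j : ℕ, ∃ C : ℝ, ∀ ξ : E, ‖iteratedFDeriv ℝ j q ξ‖ ≤ C * (1 + ‖ξ‖) ^ (m - j)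

theorem one_add_norm_pos' (ξ : E) : 0 < 1 + ‖ξ‖ := by positivity

theorem C_nonneg {m : ℝ} {C t : ℝ} {ξ : E} (ht : 0 ≤ t) (h : t ≤ C * (1 + ‖ξ‖) ^ m) : 0 ≤ C := by
  have h1 : 0 < (1 + ‖ξ‖) ^ m := Real.rpow_pos_of_pos (one_add_norm_pos' ξ) m
  by_contra hc
  push Not at hc
  nlinarith [mul_neg_of_neg_of_pos hc h1]

/-- Leibniz -/
theorem KNxi.mul {m m' : ℝ} {q q' : E → ℂ} (h : KNxi m q) (h' : KNxi m' q') :
    KNxi (m + m') (fun ξ => q ξ * q' ξ) := by
  obtain ⟨hs, hb⟩ := h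
  obtain ⟨hs', hb'⟩ := h'
  refine ⟨hs.mul hs', fun j => ?_⟩
  choose C hC using hb
  choose C' hC' using hb'
  have hC0 : ∀ i, 0 ≤ C i := fun i => C_nonneg (norm_nonneg _) (hC i 0)
  have hC0' : ∀ i, 0 ≤ C' i := fun i => C_nonneg (norm_nonneg _) (hC' i 0)
  refine ⟨∑ i ∈ Finset.range (j + 1), (j.choose i : ℝ) * C i * C' (j - i), fun ξ => ?_⟩
  refine (norm_iteratedFDeriv_mul_le hs hs' ξ (n := j) (by exact_mod_cast le_top)).trans ?_
  rw [Finset.sum_mul]
  refine Finset.sum_le_sum fun i hi => ?_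
  have hij : i ≤ j := by simpa [Nat.lt_succ_iff] using hi
  have hpos := one_add_norm_pos' ξ
  have e : (1 + ‖ξ‖) ^ (m + m' - j) = (1 + ‖ξ‖) ^ (m - i) * (1 + ‖ξ‖) ^ (m' - ((j - i : ℕ) : ℝ)) := by
    rw [← Real.rpow_add hpos]
    congr 1
    push_cast [Nat.cast_sub hij]
    ring
  rw [e]
  calc (j.choose i : ℝ) * ‖iteratedFDeriv ℝ i q ξ‖ * ‖iteratedFDeriv ℝ (j - i) q' ξ‖
      ≤ (j.choose i : ℝ) * (C i * (1 + ‖ξ‖) ^ (m - i))
          * (C' (j - i) * (1 + ‖ξ‖) ^ (m' - ((j - i : ℕ) : ℝ))) := by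
        gcongr
        · have := hC0 i; positivity
        · exact hC i ξ
        · exact hC' (j - i) ξ
    _ = _ := by ring

theorem clm_iter_two (L : E →L[ℝ] ℂ) (j : ℕ) (ξ : E) : iteratedFDeriv ℝ (j + 2) (fun x => L x) ξ = 0 := by
  have h1 : (fderiv ℝ fun x => L x) = fun _ => L := by
    ext1 x
    exact L.fderiv
  have h2 : ‖iteratedFDeriv ℝ (j + 2) (fun x => L x) ξ‖ = 0 := by
    rw [← norm_iteratedFDeriv_fderiv, h1, iteratedFDeriv_const_of_ne (by omega)]
    simp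
  exact norm_eq_zero.1 h2

theorem KNxi.clm (L : E →L[ℝ] ℂ) : KNxi 1 (fun ξ => L ξ) := by
  refine ⟨L.contDiff, fun j => ?_⟩
  rcases j with _ | _ | j
  · refine ⟨‖L‖, fun ξ => ?_⟩
    have := one_add_norm_pos' ξ
    simp only [norm_iteratedFDeriv_zero, Nat.cast_zero, sub_zero, Real.rpow_one]
    refine (L.le_opNorm ξ).trans ?_
    gcongr
    linarith
  · refine ⟨‖L‖, fun ξ => ?_⟩
    have h1 : (fderiv ℝ fun x => L x) = fun _ => L := by
      ext1 x
      exact L.fderiv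
    rw [← norm_iteratedFDeriv_fderiv, h1]
    simp
  · refine ⟨0, fun ξ => ?_⟩
    rw [clm_iter_two]
    simp

theorem KNxi.coord (i : Fin 2) : KNxi 1 (fun ξ => (ξ i : ℂ)) :=
  KNxi.clm (Complex.ofRealCLM.comp (ContinuousLinearMap.proj (R := ℝ) i))

theorem KNxi.one : KNxi 0 (fun _ => 1) := by
  refine ⟨contDiff_const, fun j => ?_⟩
  rcases j with _ | j
  · refine ⟨1, fun ξ => ?_⟩
    simp
  · refine ⟨0, fun ξ => ?_⟩
    rw [iteratedFDeriv_const_of_ne (by omega)]
    simp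

theorem rpow_mono' {m m' : ℝ} (hmm : m ≤ m') (ξ : E) (j : ℕ) :
    (1 + ‖ξ‖) ^ (m - j) ≤ (1 + ‖ξ‖) ^ (m' - j) := by
  apply Real.rpow_le_rpow_of_exponent_le
  · linarith [norm_nonneg ξ]
  · linarith

theorem KNxi.mono {m m' : ℝ} (hmm : m ≤ m') {q : E → ℂ} (h : KNxi m q) : KNxi m' q := by
  refine ⟨h.1, fun j => ?_⟩
  obtain ⟨C, hC⟩ := h.2 j
  have h0 : 0 ≤ C := C_nonneg (norm_nonneg _) (hC 0)
  exact ⟨C, fun ξ => (hC ξ).trans (mul_le_mul_of_nonneg_left (rpow_mono' hmm ξ j) h0)⟩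

/-- joint smoothness of the iterated derivative in the second variable -/
theorem joint_iter {F : Type*} [NormedAddCommGroup F] [NormedSpace ℝ F] {f : E → E → F}
    (hf : ContDiff ℝ ∞ (fun z : E × E => f z.1 z.2)) (j : ℕ) :
    ContDiff ℝ ∞ (fun z : E × E => iteratedFDeriv ℝ j (f z.1) z.2) := by
  induction j with
  | zero =>
    have : (fun z : E × E => iteratedFDeriv ℝ 0 (f z.1) z.2)
        = (continuousMultilinearCurryFin0 ℝ E F).symm ∘ (fun z : E × E => f z.1 z.2) := by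
      ext z
      simp [iteratedFDeriv_zero_eq_comp]
    rw [this]
    exact (continuousMultilinearCurryFin0 ℝ E F).symm.contDiff.comp hf
  | succ j ih =>
    have h1 : ContDiff ℝ ∞ (fun z : E × E => fderiv ℝ (iteratedFDeriv ℝ j (f z.1)) z.2) := by
      have : ContDiff ℝ ∞ (Function.uncurry fun (z : E × E) (η : E) => iteratedFDeriv ℝ j (f z.1) η) := by
        have h2 : (Function.uncurry fun (z : E × E) (η : E) => iteratedFDeriv ℝ j (f z.1) η)
            = (fun z : E × E => iteratedFDeriv ℝ j (f z.1) z.2) ∘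
              (fun w : (E × E) × E => (w.1.1, w.2)) := by
          ext w
          rfl
        rw [h2]
        exact ih.comp (by fun_prop)
      exact ContDiff.fderiv (m := ∞) (n := ∞) this contDiff_snd (by simp)
    have h2 : (fun z : E × E => iteratedFDeriv ℝ (j + 1) (f z.1) z.2)
        = (continuousMultilinearCurryLeftEquiv ℝ (fun _ : Fin (j + 1) => E) F).symm ∘
          (fun z : E × E => fderiv ℝ (iteratedFDeriv ℝ j (f z.1)) z.2) := by
      ext z
      simp [iteratedFDeriv_succ_eq_comp_left]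
    rw [h2]
    exact (continuousMultilinearCurryLeftEquiv ℝ (fun _ : Fin (j + 1) => E) F).symm.contDiff.comp h1

theorem joint_iter_left {F : Type*} [NormedAddCommGroup F] [NormedSpace ℝ F] {f : E → E → F}
    (hf : ContDiff ℝ ∞ (fun z : E × E => f z.1 z.2)) (j : ℕ) (ξ : E) :
    ContDiff ℝ ∞ (fun y : E => iteratedFDeriv ℝ j (f y) ξ) :=
  (joint_iter hf j).comp (g := fun z : E × E => iteratedFDeriv ℝ j (f z.1) z.2)
    (f := fun y : E => (y, ξ)) (by fun_prop)

theorem joint_right {F : Type*} [NormedAddCommGroup F] [NormedSpace ℝ F] {f : E → E → F}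
    (hf : ContDiff ℝ ∞ (fun z : E × E => f z.1 z.2)) (y : E) : ContDiff ℝ ∞ (f y) :=
  hf.comp (g := fun z : E × E => f z.1 z.2) (f := fun η : E => (y, η)) (by fun_prop)

theorem nat_le_infty (j : ℕ) : (j : ℕ∞ω) ≤ ∞ := by exact_mod_cast le_top

theorem KN.add {m : ℝ} {a a' : T2 → E → ℂ} (h : KN m a) (h' : KN m a') :
    KN m (fun x ξ => a x ξ + a' x ξ) := by
  refine ⟨h.1.add h'.1, fun i j => ?_⟩
  obtain ⟨C, hC⟩ := h.2 i j
  obtain ⟨C', hC'⟩ := h'.2 i j
  refine ⟨C + C', fun x ξ => ?_⟩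
  have e : (fun y : E => iteratedFDeriv ℝ j (fun η : E => a (proj y) η + a' (proj y) η) ξ)
      = (fun y : E => iteratedFDeriv ℝ j (fun η : E => a (proj y) η) ξ
          + iteratedFDeriv ℝ j (fun η : E => a' (proj y) η) ξ) := by
    ext1 y
    have h1 := ((joint_right (f := fun y η => a (proj y) η) h.1 y).of_le (nat_le_infty j)).contDiffAt
      (x := ξ)
    have h2 := ((joint_right (f := fun y η => a' (proj y) η) h'.1 y).of_le (nat_le_infty j)).contDiffAt
      (x := ξ)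
    exact fun_iteratedFDeriv_add_apply h1 h2
  rw [e]
  have h1 := ((joint_iter_left (f := fun y η => a (proj y) η) h.1 j ξ).of_le (nat_le_infty i)).contDiffAt
    (x := x)
  have h2 := ((joint_iter_left (f := fun y η => a' (proj y) η) h'.1 j ξ).of_le (nat_le_infty i)).contDiffAt
    (x := x)
  rw [fun_iteratedFDeriv_add_apply h1 h2]
  refine (norm_add_le _ _).trans ?_
  rw [add_mul]
  exact add_le_add (hC x ξ) (hC' x ξ)

/-- product of a smooth function on the torus and a symbol in `ξ` -/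
theorem KN.prod {m : ℝ} {f : T2 → ℂ} {q : E → ℂ}
    (hf : ContDiff ℝ ∞ (fun x : E => f (proj x)))
    (hb : ∀ j : ℕ, ∃ B : ℝ, ∀ x : E, ‖iteratedFDeriv ℝ j (fun x : E => f (proj x)) x‖ ≤ B)
    (hq : KNxi m q) : KN m (fun x ξ => f x * q ξ) := by
  refine ⟨(hf.comp contDiff_fst).mul (hq.1.comp contDiff_snd), fun i j => ?_⟩
  obtain ⟨B, hB⟩ := hb i
  obtain ⟨C, hC⟩ := hq.2 j
  have hB0 : 0 ≤ B := (norm_nonneg _).trans (hB 0)
  have hC0 : 0 ≤ C := C_nonneg (norm_nonneg _) (hC 0)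
  refine ⟨B * C, fun x ξ => ?_⟩
  have e : (fun y : E => iteratedFDeriv ℝ j (fun η : E => f (proj y) * q η) ξ)
      = (fun y : E => f (proj y) • iteratedFDeriv ℝ j q ξ) := by
    ext1 y
    have h1 := (hq.1.of_le (nat_le_infty j)).contDiffAt (x := ξ)
    exact iteratedFDeriv_const_smul_apply' (a := f (proj y)) h1
  rw [e]
  set v := iteratedFDeriv ℝ j q ξ with hv
  let Λ : ℂ →L[ℝ] (ContinuousMultilinearMap ℝ (fun _ : Fin j => E) ℂ) :=
    LinearMap.mkContinuous
      { toFun := fun z => z • v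
        map_add' := fun a b => add_smul a b v
        map_smul' := fun a b => smul_assoc a b v } ‖v‖
      (fun z => by simpa [mul_comm] using norm_smul_le z v)
  have hΛ : ‖Λ‖ ≤ ‖v‖ := LinearMap.mkContinuous_norm_le _ (norm_nonneg _) _
  have h3 : ‖iteratedFDeriv ℝ i (fun y : E => f (proj y) • v) x‖
      ≤ ‖Λ‖ * ‖iteratedFDeriv ℝ i (fun y : E => f (proj y)) x‖ :=
    Λ.norm_iteratedFDeriv_comp_left (f := fun y : E => f (proj y)) (N := ∞) hf.contDiffAt
      (nat_le_infty i)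
  have hpos := Real.rpow_pos_of_pos (one_add_norm_pos' ξ) (m - j)
  calc ‖iteratedFDeriv ℝ i (fun y : E => f (proj y) • v) x‖
      ≤ ‖Λ‖ * ‖iteratedFDeriv ℝ i (fun y : E => f (proj y)) x‖ := h3
    _ ≤ (C * (1 + ‖ξ‖) ^ (m - j)) * B := by
        gcongr
        · exact hΛ.trans (hC ξ)
        · exact hB x
    _ = B * C * (1 + ‖ξ‖) ^ (m - j) := by ring

/-- composition with a real linear map -/
theorem KN.clm {m : ℝ} {a : T2 → E → ℂ} (L : ℂ →L[ℝ] ℂ) (h : KN m a) :
    KN m (fun x ξ => L (a x ξ)) := by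
  refine ⟨L.contDiff.comp h.1, fun i j => ?_⟩
  obtain ⟨C, hC⟩ := h.2 i j
  let Λ := ContinuousLinearMap.compContinuousMultilinearMapL ℝ (fun _ : Fin j => E) ℂ ℂ L
  refine ⟨‖Λ‖ * C, fun x ξ => ?_⟩
  have e : (fun y : E => iteratedFDeriv ℝ j (fun η : E => L (a (proj y) η)) ξ)
      = Λ ∘ (fun y : E => iteratedFDeriv ℝ j (fun η : E => a (proj y) η) ξ) := by
    ext1 y
    have h1 := ((joint_right (f := fun y η => a (proj y) η) h.1 y)).contDiffAt (x := ξ)
    exact L.iteratedFDeriv_comp_left h1 (nat_le_infty j)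
  rw [e]
  refine (Λ.norm_iteratedFDeriv_comp_left (N := ∞)
    (joint_iter_left (f := fun y η => a (proj y) η) h.1 j ξ).contDiffAt (nat_le_infty i)).trans ?_
  rw [mul_assoc]
  exact mul_le_mul_of_nonneg_left (hC x ξ) (norm_nonneg _)

/-- real and imaginary parts (compose with the real linear maps `re`, `im`) -/
theorem KN.re {m : ℝ} {a : T2 → E → ℂ} (h : KN m a) : KN m (fun x ξ => ((a x ξ).re : ℂ)) :=
  KN.clm (Complex.ofRealCLM.comp Complex.reCLM) h

theorem KN.im {m : ℝ} {a : T2 → E → ℂ} (h : KN m a) : KN m (fun x ξ => ((a x ξ).im : ℂ)) :=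
  KN.clm (Complex.ofRealCLM.comp Complex.imCLM) h

theorem sC_ge {c : E} {ρ : ℝ} (h0 : 0 ≤ ρ) (h : ρ ≤ ‖c‖) : 64 * ρ ^ 2 ≤ sC c := by
  have h1 : ‖c‖ ^ 2 ≤ (c 0) ^ 2 + (c 1) ^ 2 := by
    have h2 : ‖c‖ ≤ |c 0| ∨ ‖c‖ ≤ |c 1| := by
      by_contra hcon
      push Not at hcon
      have : ‖c‖ < ‖c‖ := by
        rw [pi_norm_lt_iff (lt_of_le_of_lt (abs_nonneg _) hcon.1)]
        intro i
        fin_cases i
        · exact hcon.1
        · exact hcon.2
      exact lt_irrefl _ this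
    rcases h2 with h2 | h2
    · have := pow_le_pow_left₀ (norm_nonneg c) h2 2
      rw [sq_abs] at this
      nlinarith [sq_nonneg (c 1)]
    · have := pow_le_pow_left₀ (norm_nonneg c) h2 2
      rw [sq_abs] at this
      nlinarith [sq_nonneg (c 0)]
  have h3 : ρ ^ 2 ≤ ‖c‖ ^ 2 := pow_le_pow_left₀ h0 h 2
  unfold sC
  linarith

theorem cla_sC_contDiff : ContDiff ℝ ∞ sC := by
  unfold sC
  fun_prop

theorem cla_yC_contDiff : ContDiff ℝ ∞ yC := by
  have h0 : ContDiff ℝ ∞ (fun c : E => ((c 0 : ℝ) : ℂ)) := (KNxi.coord 0).1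
  have h1 : ContDiff ℝ ∞ (fun c : E => ((c 1 : ℝ) : ℂ)) := (KNxi.coord 1).1
  exact contDiff_const.mul (h0.add (h1.mul contDiff_const))

theorem ofReal_comp_contDiff {f : E → ℝ} (hf : ContDiff ℝ ∞ f) :
    ContDiff ℝ ∞ (fun c => ((f c : ℝ) : ℂ)) := Complex.ofRealCLM.contDiff.comp hf

theorem conj_comp_contDiff {f : E → ℂ} (hf : ContDiff ℝ ∞ f) :
    ContDiff ℝ ∞ (fun c => conj (f c)) := Complex.conjCLE.contDiff.comp hf

/-- `1 - κ s` -/
def cA (c : E) : ℂ := 1 - (kap (sC c) : ℂ) * (sC c : ℂ)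

/-- `- κ ȳ²` -/
def cB (c : E) : ℂ := - ((kap (sC c) : ℂ) * conj (yC c) ^ 2)

/-- prefactor -/
def cP (c : E) : ℂ := (1 / 8) * yC c * (EE (sC c) : ℂ)

theorem cA_contDiff : ContDiff ℝ ∞ cA := by
  have h1 := ofReal_comp_contDiff (kap_contDiff.comp cla_sC_contDiff)
  have h2 := ofReal_comp_contDiff cla_sC_contDiff
  exact contDiff_const.sub (h1.mul h2)

theorem cB_contDiff : ContDiff ℝ ∞ cB := by
  have h1 := ofReal_comp_contDiff (kap_contDiff.comp cla_sC_contDiff)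
  exact (h1.mul ((conj_comp_contDiff cla_yC_contDiff).pow 2)).neg

theorem cP_contDiff : ContDiff ℝ ∞ cP := by
  have h1 := ofReal_comp_contDiff (EE_contDiff.comp cla_sC_contDiff)
  exact (contDiff_const.mul cla_yC_contDiff).mul h1

theorem cP_zero {c : E} (h : 1 / 4 ≤ ‖c‖) : cP c = 0 := by
  have h1 := sC_ge (by norm_num) h
  have h2 : EE (sC c) = 0 := EE_zero (by linarith)
  simp [cP, h2]

theorem KNxi.eta_mem : KNxi 1 eta := by
  have : eta = fun ξ => ((((2 : ℂ)⁻¹) • (Complex.ofRealCLM.comp (ContinuousLinearMap.proj (R := ℝ) 0)) -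
    (I / 2) • (Complex.ofRealCLM.comp (ContinuousLinearMap.proj (R := ℝ) 1)) : E →L[ℝ] ℂ)) ξ := by
    ext ξ
    simp [eta]
    ring
  rw [this]
  exact KNxi.clm _

theorem KNxi.eta_conj_mem : KNxi 1 (fun ξ => conj (eta ξ)) := by
  have : (fun ξ => conj (eta ξ)) = fun ξ => ((((2 : ℂ)⁻¹) • (Complex.ofRealCLM.comp (ContinuousLinearMap.proj (R := ℝ) 0)) +
    (I / 2) • (Complex.ofRealCLM.comp (ContinuousLinearMap.proj (R := ℝ) 1)) : E →L[ℝ] ℂ)) ξ := by
    ext ξ
    have h2 : conj (2 : ℂ) = 2 := Complex.conj_ofNat 2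
    simp [eta, h2]
    ring
  rw [this]
  exact KNxi.clm _

theorem KN.cell_prod {m : ℝ} {g : E → ℂ} {q : E → ℂ} (hg : ContDiff ℝ ∞ g)
    (h0 : ∀ c, 1 / 4 ≤ ‖c‖ → g c = 0) (hq : KNxi m q) : KN m (fun x ξ => g (cell x) * q ξ) :=
  KN.prod (f := fun x => g (cell x)) (contDiff_cell (by norm_num) hg h0)
    (bdd_cell (by norm_num) hg h0) hq

/-- `hh(cell x, ξ)` is a cubic polynomial in `ξ` with smooth periodic coefficients -/
theorem hh_KN : KN 3 (fun x ξ => hh (cell x) ξ) := by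
  have q3 : KNxi 3 (fun ξ => eta ξ * eta ξ * eta ξ) := by
    convert (KNxi.eta_mem.mul KNxi.eta_mem).mul KNxi.eta_mem using 1
    norm_num
  have q2 : KNxi 3 (fun ξ => eta ξ * eta ξ * conj (eta ξ)) := by
    convert (KNxi.eta_mem.mul KNxi.eta_mem).mul KNxi.eta_conj_mem using 1
    norm_num
  have q1 : KNxi 3 (fun ξ => eta ξ * conj (eta ξ) * conj (eta ξ)) := by
    convert (KNxi.eta_mem.mul KNxi.eta_conj_mem).mul KNxi.eta_conj_mem using 1
    norm_num
  have q0 : KNxi 3 (fun ξ => conj (eta ξ) * conj (eta ξ) * conj (eta ξ)) := by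
    convert (KNxi.eta_conj_mem.mul KNxi.eta_conj_mem).mul KNxi.eta_conj_mem using 1
    norm_num
  have k3 : KN 3 (fun x ξ => (cP (cell x) * cA (cell x) ^ 3) * (eta ξ * eta ξ * eta ξ)) :=
    KN.cell_prod (g := fun c => cP c * cA c ^ 3) (cP_contDiff.mul (cA_contDiff.pow 3))
      (fun c hc => by simp [cP_zero hc]) q3
  have k2 : KN 3 (fun x ξ => (cP (cell x) * (3 * cA (cell x) ^ 2 * cB (cell x)))
      * (eta ξ * eta ξ * conj (eta ξ))) :=
    KN.cell_prod (g := fun c => cP c * (3 * cA c ^ 2 * cB c))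
      (cP_contDiff.mul ((contDiff_const.mul (cA_contDiff.pow 2)).mul cB_contDiff))
      (fun c hc => by simp [cP_zero hc]) q2
  have k1 : KN 3 (fun x ξ => (cP (cell x) * (3 * cA (cell x) * cB (cell x) ^ 2))
      * (eta ξ * conj (eta ξ) * conj (eta ξ))) :=
    KN.cell_prod (g := fun c => cP c * (3 * cA c * cB c ^ 2))
      (cP_contDiff.mul ((contDiff_const.mul cA_contDiff).mul (cB_contDiff.pow 2)))
      (fun c hc => by simp [cP_zero hc]) q1
  have k0 : KN 3 (fun x ξ => (cP (cell x) * cB (cell x) ^ 3)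
      * (conj (eta ξ) * conj (eta ξ) * conj (eta ξ))) :=
    KN.cell_prod (g := fun c => cP c * cB c ^ 3) (cP_contDiff.mul (cB_contDiff.pow 3))
      (fun c hc => by simp [cP_zero hc]) q0
  convert ((k3.add k2).add k1).add k0 using 3 with x ξ
  simp only [hh, Th, cP, cA, cB]
  ring

/-- uniformly bounded derivatives -/
def Bdd (f : E → ℝ) : Prop :=
  ContDiff ℝ ∞ f ∧ ∀ j : ℕ, ∃ B : ℝ, ∀ x : E, ‖iteratedFDeriv ℝ j f x‖ ≤ B

theorem Bdd.sub {f g : E → ℝ} (hf : Bdd f) (hg : Bdd g) : Bdd (fun x => f x - g x) := by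
  refine ⟨hf.1.sub hg.1, fun j => ?_⟩
  obtain ⟨B, hB⟩ := hf.2 j
  obtain ⟨B', hB'⟩ := hg.2 j
  refine ⟨B + B', fun x => ?_⟩
  rw [fun_iteratedFDeriv_sub_apply (hf.1.of_le (nat_le_infty j)).contDiffAt
    (hg.1.of_le (nat_le_infty j)).contDiffAt]
  exact (norm_sub_le _ _).trans (add_le_add (hB x) (hB' x))

theorem Bdd.sin (i : Fin 2) : Bdd (fun x => Real.sin (2 * Real.pi * x i)) := by
  let L : E →L[ℝ] ℝ := (2 * Real.pi) • ContinuousLinearMap.proj (R := ℝ) i
  have e : (fun x : E => Real.sin (2 * Real.pi * x i)) = Real.sin ∘ L := by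
    ext x
    simp [L]
  rw [e]
  refine ⟨Real.contDiff_sin.comp L.contDiff, fun j => ⟨1 * ∏ _i : Fin j, ‖L‖, fun x => ?_⟩⟩
  rw [L.iteratedFDeriv_comp_right (n := ∞) Real.contDiff_sin x (nat_le_infty j)]
  refine (ContinuousMultilinearMap.norm_compContinuousLinearMap_le _ _).trans ?_
  gcongr
  rw [norm_iteratedFDeriv_eq_norm_iteratedDeriv, Real.norm_eq_abs]
  exact Real.abs_iteratedDeriv_sin_le_one j _

theorem sin_cell (x : E) (i : Fin 2) :
    Real.sin (2 * Real.pi * cell (proj x) i) = Real.sin (2 * Real.pi * x i) := by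
  obtain ⟨n, hn⟩ := exists_int x
  rw [hn i]
  have : 2 * Real.pi * (x i - n i) = 2 * Real.pi * x i - n i * (2 * Real.pi) := by ring
  rw [this, Real.sin_sub_int_mul_two_pi]

/-- the base functions `ω(s) sin (2π c_i)` on the torus are smooth (write
`ω sin = sin (2π x_i) - (1 - ω) sin (2π c_i)`, the second term is supported in the disc `s ≤ 3`) -/
theorem base_smooth (i : Fin 2) :
    ContDiff ℝ ∞ (fun x : E => om (sC (cell (proj x))) * Real.sin (2 * Real.pi * cell (proj x) i)) ∧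
    ∀ j : ℕ, ∃ B : ℝ, ∀ x : E, ‖iteratedFDeriv ℝ j
      (fun x : E => om (sC (cell (proj x))) * Real.sin (2 * Real.pi * cell (proj x) i)) x‖ ≤ B := by
  let g : E → ℝ := fun c => (1 - om (sC c)) * Real.sin (2 * Real.pi * c i)
  have hg : ContDiff ℝ ∞ g := by
    have h1 : ContDiff ℝ ∞ (fun c : E => om (sC c)) := om_contDiff.comp cla_sC_contDiff
    exact (contDiff_const.sub h1).mul (Bdd.sin i).1
  have hg0 : ∀ c, 1 / 4 ≤ ‖c‖ → g c = 0 := by
    intro c hc
    have h1 := sC_ge (by norm_num) hc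
    have h2 : om (sC c) = 1 := om_one (by linarith)
    simp [g, h2]
  have hgb : Bdd (fun x => g (cell (proj x))) :=
    ⟨contDiff_cell (by norm_num) hg hg0, bdd_cell (by norm_num) hg hg0⟩
  have e : (fun x : E => om (sC (cell (proj x))) * Real.sin (2 * Real.pi * cell (proj x) i))
      = (fun x : E => Real.sin (2 * Real.pi * x i) - g (cell (proj x))) := by
    ext x
    simp only [g]
    rw [← sin_cell x i]
    ring
  rw [e]
  exact (Bdd.sin i).sub hgb

theorem base_KN (i : Fin 2) :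
    KN 3 (fun x _ => ((om (sC (cell x)) * Real.sin (2 * Real.pi * cell x i) : ℝ) : ℂ)) := by
  obtain ⟨h1, h2⟩ := base_smooth i
  have h3 := KN.prod (m := 3)
    (f := fun x => ((om (sC (cell x)) * Real.sin (2 * Real.pi * cell x i) : ℝ) : ℂ))
    (q := fun _ => 1) (ofReal_comp_contDiff h1) (fun j => by
      obtain ⟨B, hB⟩ := h2 j
      refine ⟨‖Complex.ofRealCLM‖ * B, fun x => ?_⟩
      refine (Complex.ofRealCLM.norm_iteratedFDeriv_comp_left (N := ∞) h1.contDiffAt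
        (nat_le_infty j)).trans ?_
      exact mul_le_mul_of_nonneg_left (hB x) (norm_nonneg _)) (KNxi.one.mono (by norm_num))
  convert h3 using 3
  simp

theorem p1_KN : KN 3 (toCx p1) := by
  convert hh_KN.re.add (base_KN 0) using 3 with x ξ
  simp [toCx, p1, p1c]

theorem p2_KN : KN 3 (toCx p2) := by
  convert hh_KN.im.add (base_KN 1) using 3 with x ξ
  simp [toCx, p2, p2c]

theorem fderiv_ofReal {f : E → ℝ} {c v : E} (hf : DifferentiableAt ℝ f c) :
    fderiv ℝ (fun x => ((f x : ℝ) : ℂ)) c v = ((fderiv ℝ f c v : ℝ) : ℂ) := by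
  have h := (Complex.ofRealCLM.hasFDerivAt.comp c hf.hasFDerivAt).fderiv
  have h2 : (fun x => ((f x : ℝ) : ℂ)) = (⇑Complex.ofRealCLM) ∘ f := rfl
  rw [h2, h]
  rfl

theorem sC_lt_norm {x : E} (h : sC (cell (proj x)) < 2) : ‖cell (proj x)‖ < 1 / 2 := by
  by_contra hc
  push Not at hc
  have := sC_ge (by norm_num) hc
  linarith

theorem p1c_eventually {c : E} (h : sC c < 2) (ξ : E) :
    (fun y => p1c y ξ) =ᶠ[nhds c] fun y => (hh y ξ).re := by
  filter_upwards [cla_sC_contDiff.continuous.continuousAt.eventually_lt continuousAt_const h] with y hy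
  have : om (sC y) = 0 := om_zero hy.le
  simp [p1c, this]

theorem p2c_eventually {c : E} (h : sC c < 2) (ξ : E) :
    (fun y => p2c y ξ) =ᶠ[nhds c] fun y => (hh y ξ).im := by
  filter_upwards [cla_sC_contDiff.continuous.continuousAt.eventually_lt continuousAt_const h] with y hy
  have : om (sC y) = 0 := om_zero hy.le
  simp [p2c, this]

theorem hh_left (ξ : E) : ContDiff ℝ ∞ (fun y => hh y ξ) :=
  hh_contDiff.comp (g := fun z : E × E => hh z.1 z.2) (f := fun y : E => (y, ξ)) (by fun_prop)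

theorem hh_right (c : E) : ContDiff ℝ ∞ (fun η => hh c η) :=
  hh_contDiff.comp (g := fun z : E × E => hh z.1 z.2) (f := fun y : E => (c, y)) (by fun_prop)

theorem re_cd {f : E → ℂ} (h : ContDiff ℝ ∞ f) : ContDiff ℝ ∞ (fun y => (f y).re) :=
  Complex.reCLM.contDiff.comp h

theorem im_cd {f : E → ℂ} (h : ContDiff ℝ ∞ f) : ContDiff ℝ ∞ (fun y => (f y).im) :=
  Complex.imCLM.contDiff.comp h

/-- `{p1, p2} = 0`.  With `P_j = Re/Im hh`, `f_j = ω sin`: `{P1,P2} = 0` by `hh_bracket`,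
`{f1,f2} = 0`, and in `{P1,f2} + {f1,P2}` the terms are `∂_ξ P · ∂_x f`: for `s < 2` the function
`f` vanishes near the point, for `s ≥ 2` the function `P(x,·)` vanishes identically. -/
theorem p_commute (x ξ : E) : pb (toCx p1) (toCx p2) x ξ = 0 := by
  rcases lt_or_ge (sC (cell (proj x))) 2 with hs | hs
  · have hn := sC_lt_norm hs
    set c := cell (proj x) with hc
    have hom : om (sC c) = 0 := om_zero hs.le
    have d1 : ∀ i, dx i (toCx p1) x ξ
        = ((fderiv ℝ (fun y : E => (hh y ξ).re) c (Pi.single i 1) : ℝ) : ℂ) := by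
      intro i
      have h1 : dx i (toCx p1) x ξ = fderiv ℝ (fun y : E => ((p1c y ξ : ℝ) : ℂ)) c (Pi.single i 1) :=
        dx_cell (g := fun c ξ => ((p1c c ξ : ℝ) : ℂ)) hn i
      rw [h1, ← fderiv_ofReal ((re_cd (hh_left ξ)).differentiable (by simp) c)]
      have h2 : (fun y : E => ((p1c y ξ : ℝ) : ℂ)) =ᶠ[nhds c] fun y => (((hh y ξ).re : ℝ) : ℂ) :=
        (p1c_eventually hs ξ).fun_comp (fun t : ℝ => (t : ℂ))
      rw [h2.fderiv_eq]
    have d2 : ∀ i, dx i (toCx p2) x ξ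
        = ((fderiv ℝ (fun y : E => (hh y ξ).im) c (Pi.single i 1) : ℝ) : ℂ) := by
      intro i
      have h1 : dx i (toCx p2) x ξ = fderiv ℝ (fun y : E => ((p2c y ξ : ℝ) : ℂ)) c (Pi.single i 1) :=
        dx_cell (g := fun c ξ => ((p2c c ξ : ℝ) : ℂ)) hn i
      rw [h1, ← fderiv_ofReal ((im_cd (hh_left ξ)).differentiable (by simp) c)]
      have h2 : (fun y : E => ((p2c y ξ : ℝ) : ℂ)) =ᶠ[nhds c] fun y => (((hh y ξ).im : ℝ) : ℂ) :=
        (p2c_eventually hs ξ).fun_comp (fun t : ℝ => (t : ℂ))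
      rw [h2.fderiv_eq]
    have e1 : ∀ i, dxi i (toCx p1) x ξ
        = ((fderiv ℝ (fun η : E => (hh c η).re) ξ (Pi.single i 1) : ℝ) : ℂ) := by
      intro i
      rw [← fderiv_ofReal ((re_cd (hh_right c)).differentiable (by simp) ξ)]
      have h2 : (fun η : E => toCx p1 (proj x) η) = fun η => (((hh c η).re : ℝ) : ℂ) := by
        ext η
        simp [toCx, p1, p1c, ← hc, hom]
      unfold dxi
      rw [h2]
    have e2 : ∀ i, dxi i (toCx p2) x ξ
        = ((fderiv ℝ (fun η : E => (hh c η).im) ξ (Pi.single i 1) : ℝ) : ℂ) := by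
      intro i
      rw [← fderiv_ofReal ((im_cd (hh_right c)).differentiable (by simp) ξ)]
      have h2 : (fun η : E => toCx p2 (proj x) η) = fun η => (((hh c η).im : ℝ) : ℂ) := by
        ext η
        simp [toCx, p2, p2c, ← hc, hom]
      unfold dxi
      rw [h2]
    unfold pb
    simp only [d1, d2, e1, e2]
    exact_mod_cast hh_bracket c ξ
  · have h1 : ∀ i, dxi i (toCx p1) x ξ = 0 := by
      intro i
      have h2 : (fun η : E => toCx p1 (proj x) η) = fun _ => toCx p1 (proj x) 0 := by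
        ext η
        simp [toCx, p1, p1c, hh_zero hs]
      unfold dxi
      rw [h2]
      simp
    have h2 : ∀ i, dxi i (toCx p2) x ξ = 0 := by
      intro i
      have h2 : (fun η : E => toCx p2 (proj x) η) = fun _ => toCx p2 (proj x) 0 := by
        ext η
        simp [toCx, p2, p2c, hh_zero hs]
      unfold dxi
      rw [h2]
      simp
    unfold pb
    simp [h1, h2]

end Pool.Agent.H56.Q
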