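import Pool.Agent.H56.Q.ComA

/-! Module C: the commutator estimate. -/

set_option autoImplicit false

open MeasureTheory Complex
open scoped ContDiff

noncomputable section

namespace Pool.Agent.H56.Q

variable {R : ℝ} {a a' : ℝ → T2 → E → ℂ} {m ħ0 : ℝ} {b : ℝ → T2 → E → ℂ} {p : T2 → E → ℂ}

/-- general expansion of `∑ g_n G_n` with `G_n = B0 + ∑ (freq ħ n)_i B1_i + remainder` -/
theorem expand_bound {ħ : ℝ} {g G : (Fin 2 → ℤ) → ℂ} {A B0 : ℂ} {D B1 : Fin 2 → ℂ} {K : ℝ}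
    (hA : HasSum g A)
    (hD : ∀ i, HasSum (fun n => (2 * Real.pi * Complex.I * (n i : ℂ)) * g n) (D i))
    (hK : ∀ n, ‖g n * (G n - B0 - ∑ i, (freq ħ n i : ℂ) * B1 i)‖ ≤ K * (wt n ^ 2)⁻¹) :
    ‖(∑' n, g n * G n) - (A * B0 + (ħ : ℂ) / I * ∑ i, D i * B1 i)‖
      ≤ K * ∑' n : Fin 2 → ℤ, (wt n ^ 2)⁻¹ := by
  have hs : Summable (fun n => K * (wt n ^ 2)⁻¹) := summable_wt.mul_left K
  have hr : Summable (fun n => g n * (G n - B0 - ∑ i, (freq ħ n i : ℂ) * B1 i)) :=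
    Summable.of_norm_bounded hs hK
  have h1 : HasSum (fun n => g n * B0) (A * B0) := hA.mul_right B0
  have h2 : ∀ i, HasSum (fun n => g n * ((freq ħ n i : ℂ) * B1 i))
      ((ħ : ℂ) / I * (D i * B1 i)) := by
    intro i
    have h := ((hD i).mul_left ((ħ : ℂ) / I)).mul_right (B1 i)
    have e1 : (ħ : ℂ) / I * D i * B1 i = (ħ : ℂ) / I * (D i * B1 i) := by ring
    have e2 : (fun n : Fin 2 → ℤ =>
        (ħ : ℂ) / I * ((2 * Real.pi * Complex.I * (n i : ℂ)) * g n) * B1 i)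
        = fun n => g n * ((freq ħ n i : ℂ) * B1 i) := by
      funext n
      unfold freq
      push_cast
      field_simp
    rw [e1, e2] at h
    exact h
  have h3 : HasSum (fun n => ∑ i, g n * ((freq ħ n i : ℂ) * B1 i))
      (∑ i, (ħ : ℂ) / I * (D i * B1 i)) := hasSum_sum (fun i _ => h2 i)
  have h4 := (h1.add h3).add hr.hasSum
  have h5 : (fun n => g n * B0 + ∑ i, g n * ((freq ħ n i : ℂ) * B1 i)
      + g n * (G n - B0 - ∑ i, (freq ħ n i : ℂ) * B1 i)) = fun n => g n * G n := by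
    funext n
    rw [← Finset.mul_sum]
    ring
  rw [h5] at h4
  rw [h4.tsum_eq, ← Finset.mul_sum]
  have h6 : A * B0 + (ħ : ℂ) / I * ∑ i, D i * B1 i
      + (∑' n, g n * (G n - B0 - ∑ i, (freq ħ n i : ℂ) * B1 i))
      - (A * B0 + (ħ : ℂ) / I * ∑ i, D i * B1 i)
      = ∑' n, g n * (G n - B0 - ∑ i, (freq ħ n i : ℂ) * B1 i) := by ring
  rw [h6, ← tsum_mul_left]
  exact tsum_of_norm_bounded hs.hasSum hK

theorem norm_freq_le {ħ : ℝ} (hħ : 0 < ħ) (n : Fin 2 → ℤ) : ‖freq ħ n‖ ≤ 7 * ħ * wt n := by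
  have hw := one_le_wt n
  rw [pi_norm_le_iff_of_nonneg (by positivity)]
  intro i
  unfold freq
  rw [Real.norm_eq_abs, abs_mul, abs_of_pos (by positivity : 0 < 2 * Real.pi * ħ)]
  have h0 : |(n i : ℝ)| ≤ wt n := by
    unfold wt
    have h00 := abs_nonneg (n 0 : ℝ)
    have h01 := abs_nonneg (n 1 : ℝ)
    fin_cases i
    · simp only [Fin.zero_eta]
      nlinarith
    · simp only [Fin.mk_one]
      nlinarith
  have hpi : 2 * Real.pi * ħ ≤ 7 * ħ := by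
    have := Real.pi_lt_d2
    nlinarith
  exact mul_le_mul hpi h0 (abs_nonneg _) (by positivity)

theorem one_add_norm_freq_le {ħ : ℝ} (hħ : 0 < ħ) (h1 : ħ ≤ 1) (n : Fin 2 → ℤ) :
    1 + ‖freq ħ n‖ ≤ 8 * wt n := by
  have hw := one_le_wt n
  have h := norm_freq_le hħ n
  nlinarith

theorem nice_lift (ha : NiceFam R a a') {σ : ℝ} (hσ : σ ∈ Set.Icc (0 : ℝ) 2) (ξ : E) :
    ContDiff ℝ ∞ (fun x : E => a σ (proj x) ξ) := by
  have h := ha.smooth_at (σ := σ) ⟨by linarith [hσ.1], by linarith [hσ.2]⟩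
  have h2 : ContDiff ℝ ∞ (fun x : E => ((x, ξ) : E × E)) := contDiff_id.prodMk contDiff_const
  exact h.comp h2

theorem semi_lift (hb : IsSemiSymbol m ħ0 b p) {ħ : ℝ} (hħ : 0 < ħ) (h0 : ħ ≤ ħ0) (ξ : E) :
    ContDiff ℝ ∞ (fun x : E => b ħ (proj x) ξ) := by
  obtain ⟨c, _, _, h, _⟩ := hb
  have h2 : ContDiff ℝ ∞ (fun x : E => ((x, ξ) : E × E)) := contDiff_id.prodMk contDiff_const
  exact (h ħ hħ h0).comp h2

/-- `a` with shifted `b`:  `∑_n â(n,ξ) e_n b(x, ξ + 2πħn)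
   = a b + (ħ/i) ∑ ∂_x a ∂_ξ b + O(ħ² (1+‖ξ‖)^(-4))`.
Proof: `hasSum_fc`, `hasSum_fc_deriv` for `a`, Taylor for `b`, `â = 0` for `‖ξ‖ ≥ R`. -/
theorem comm_right (ha : NiceFam R a a') (hb : IsSemiSymbol m ħ0 b p) : ∃ C : ℝ, 0 ≤ C ∧
    ∀ ħ, 0 < ħ → ħ ≤ ħ0 → ħ ≤ 1 → ∀ σ ∈ Set.Icc (0 : ℝ) 2, ∀ x ξ : E,
      ‖(∑' n, fc (fun x => a σ x ξ) n * ek n (proj x) * b ħ (proj x) (ξ + freq ħ n))
          - (a σ (proj x) ξ * b ħ (proj x) ξ
            + (ħ : ℂ) / I * ∑ i, dx i (a σ) x ξ * dxi i (b ħ) x ξ)‖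
        ≤ C * ħ ^ 2 / (1 + ‖ξ‖) ^ 4 := by
  obtain ⟨B, M, hB, hT⟩ := semi_taylor hb
  obtain ⟨B', hB', hF⟩ := nice_fc ha (M + 4)
  have hS : 0 ≤ ∑' n : Fin 2 → ℤ, (wt n ^ 2)⁻¹ :=
    tsum_nonneg (fun n => by have := one_le_wt n; positivity)
  refine ⟨B' * B * 49 * 8 ^ M * (1 + |R|) ^ (M + 4) * ∑' n : Fin 2 → ℤ, (wt n ^ 2)⁻¹,
    by positivity, fun ħ hħ h0 h1 σ hσ x ξ => ?_⟩
  have hA := hasSum_fc (f := fun x => a σ x ξ) (nice_lift ha hσ ξ) x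
  have hD := fun i => hasSum_fc_deriv (f := fun x => a σ x ξ) (nice_lift ha hσ ξ) i x
  have key : ∀ n, ‖fc (fun x => a σ x ξ) n * ek n (proj x) * (b ħ (proj x) (ξ + freq ħ n)
      - b ħ (proj x) ξ - ∑ i, (freq ħ n i : ℂ) * dxi i (b ħ) x ξ)‖
      ≤ (B' * B * 49 * 8 ^ M * (1 + |R|) ^ (M + 4) * ħ ^ 2 / (1 + ‖ξ‖) ^ 4) * (wt n ^ 2)⁻¹ := by
    intro n
    have hw := one_le_wt n
    have hw0 : 0 < wt n := by linarith
    rcases le_or_gt R ‖ξ‖ with hR | hR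
    · rw [(hF σ hσ ξ n).2 hR]
      simp only [zero_mul, norm_zero]
      positivity
    · rw [norm_mul, norm_mul, norm_ek, mul_one]
      have e1 := (hF σ hσ ξ n).1
      have e2 := hT ħ hħ h0 x ξ (freq ħ n)
      have e3 := norm_freq_le hħ n
      have e4 := one_add_norm_freq_le hħ h1 n
      have hξ : 1 + ‖ξ‖ ≤ 1 + |R| := by linarith [le_abs_self R]
      calc ‖fc (fun x => a σ x ξ) n‖ * ‖b ħ (proj x) (ξ + freq ħ n)
            - b ħ (proj x) ξ - ∑ i, (freq ħ n i : ℂ) * dxi i (b ħ) x ξ‖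
          ≤ (B' / wt n ^ (M + 4)) *
            (B * (7 * ħ * wt n) ^ 2 * (1 + ‖ξ‖) ^ M * (8 * wt n) ^ M) := by
            apply mul_le_mul e1 _ (norm_nonneg _) (by positivity)
            refine e2.trans ?_
            gcongr
        _ = B' * B * 49 * 8 ^ M * ħ ^ 2 * (1 + ‖ξ‖) ^ M * (wt n ^ 2)⁻¹ := by
            field_simp
            ring
        _ = (B' * B * 49 * 8 ^ M * ((1 + ‖ξ‖) ^ M * (1 + ‖ξ‖) ^ 4) * ħ ^ 2 / (1 + ‖ξ‖) ^ 4)
              * (wt n ^ 2)⁻¹ := by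
            field_simp
        _ ≤ (B' * B * 49 * 8 ^ M * (1 + |R|) ^ (M + 4) * ħ ^ 2 / (1 + ‖ξ‖) ^ 4)
              * (wt n ^ 2)⁻¹ := by
            rw [← pow_add]
            gcongr
  have hmain := expand_bound (ħ := ħ) (g := fun n => fc (fun x => a σ x ξ) n * ek n (proj x))
    (G := fun n => b ħ (proj x) (ξ + freq ħ n)) (B1 := fun i => dxi i (b ħ) x ξ) hA hD key
  refine hmain.trans (le_of_eq ?_)
  ring

theorem norm_iter_zero (f : E → E → ℂ) (i : ℕ) (ξ x : E) :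
    ‖iteratedFDeriv ℝ i (fun y : E => iteratedFDeriv ℝ 0 (fun η : E => f y η) ξ) x‖
      = ‖iteratedFDeriv ℝ i (fun y : E => f y ξ) x‖ := by
  have h : (fun y : E => iteratedFDeriv ℝ 0 (fun η : E => f y η) ξ)
      = (continuousMultilinearCurryFin0 ℝ E ℂ).symm ∘ (fun y : E => f y ξ) := by
    funext y
    rw [iteratedFDeriv_zero_eq_comp]
    rfl
  rw [h]
  exact LinearIsometryEquiv.norm_iteratedFDeriv_comp_left _ _ _ _

/-- Fourier coefficients of `b`, with a power `M` that does not depend on `N` -/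
theorem semi_fc_unif (hb : IsSemiSymbol m ħ0 b p) : ∃ M : ℕ, ∀ N : ℕ, ∃ B : ℝ, 0 ≤ B ∧
    ∀ ħ, 0 < ħ → ħ ≤ ħ0 → ∀ (ξ : E) (n : Fin 2 → ℤ),
      ‖fc (fun x => b ħ x ξ) n‖ ≤ B * (1 + ‖ξ‖) ^ M / wt n ^ N := by
  obtain ⟨c, hc0, hKN, hsm, hexp⟩ := id hb
  refine ⟨⌈|m|⌉₊, fun N => ?_⟩
  choose C hC using fun i => hexp 0 i 0
  obtain ⟨D, hD, hdec⟩ := fc_decay N
  have hC0 : 0 ≤ ∑ j ∈ Finset.range (2 * N + 1), |C j| := Finset.sum_nonneg (fun _ _ => abs_nonneg _)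
  refine ⟨D * ∑ j ∈ Finset.range (2 * N + 1), |C j|, by positivity, fun ħ hħ h0 ξ n => ?_⟩
  have h := hdec (fun x => b ħ x ξ)
    ((∑ j ∈ Finset.range (2 * N + 1), |C j|) * (1 + ‖ξ‖) ^ ⌈|m|⌉₊) (semi_lift hb hħ h0 ξ) (by
      intro j hj x
      have h1 := hC j ħ hħ h0 x ξ
      simp only [Finset.range_zero, Finset.sum_empty, sub_zero, pow_zero, mul_one, Nat.cast_zero]
        at h1
      rw [norm_iter_zero (fun y η => b ħ (proj y) η)] at h1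
      refine h1.trans ?_
      have h2 : (1 + ‖ξ‖) ^ m ≤ (1 + ‖ξ‖) ^ ⌈|m|⌉₊ := by
        rw [← Real.rpow_natCast]
        apply Real.rpow_le_rpow_of_exponent_le (by linarith [norm_nonneg ξ])
        exact (le_abs_self m).trans (Nat.le_ceil _)
      have h3 : C j ≤ ∑ j ∈ Finset.range (2 * N + 1), |C j| :=
        (le_abs_self _).trans (Finset.single_le_sum (f := fun j => |C j|)
          (fun _ _ => abs_nonneg _) (Finset.mem_range.2 (by omega)))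
      have h4 : 0 ≤ (1 + ‖ξ‖) ^ m := Real.rpow_nonneg (by linarith [norm_nonneg ξ]) _
      calc C j * (1 + ‖ξ‖) ^ m ≤ (∑ j ∈ Finset.range (2 * N + 1), |C j|) * (1 + ‖ξ‖) ^ m :=
            mul_le_mul_of_nonneg_right h3 h4
        _ ≤ _ := mul_le_mul_of_nonneg_left h2 hC0) n
  refine h.trans (le_of_eq ?_)
  ring

/-- the same with the roles exchanged; for large `ξ` only the `n` with
`‖ξ‖ < R + ‖2πħn‖` contribute, and `1 + ‖ξ‖ ≤ (1 + R)(1 + 2πħ‖n‖)` there. -/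
theorem comm_left (ha : NiceFam R a a') (hb : IsSemiSymbol m ħ0 b p) : ∃ C : ℝ, 0 ≤ C ∧
    ∀ ħ, 0 < ħ → ħ ≤ ħ0 → ħ ≤ 1 → ∀ σ ∈ Set.Icc (0 : ℝ) 2, ∀ x ξ : E,
      ‖(∑' n, fc (fun x => b ħ x ξ) n * ek n (proj x) * a σ (proj x) (ξ + freq ħ n))
          - (a σ (proj x) ξ * b ħ (proj x) ξ
            + (ħ : ℂ) / I * ∑ i, dx i (b ħ) x ξ * dxi i (a σ) x ξ)‖
        ≤ C * ħ ^ 2 / (1 + ‖ξ‖) ^ 4 := by
  obtain ⟨B, hB, hT⟩ := nice_taylor ha
  obtain ⟨M, hF⟩ := semi_fc_unif hb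
  obtain ⟨B', hB', hF⟩ := hF (M + 8)
  have hS : 0 ≤ ∑' n : Fin 2 → ℤ, (wt n ^ 2)⁻¹ :=
    tsum_nonneg (fun n => by have := one_le_wt n; positivity)
  refine ⟨B' * B * 49 * (8 * (1 + |R|)) ^ (M + 4) * ∑' n : Fin 2 → ℤ, (wt n ^ 2)⁻¹,
    by positivity, fun ħ hħ h0 h1 σ hσ x ξ => ?_⟩
  have hA := hasSum_fc (f := fun x => b ħ x ξ) (semi_lift hb hħ h0 ξ) x
  have hD := fun i => hasSum_fc_deriv (f := fun x => b ħ x ξ) (semi_lift hb hħ h0 ξ) i x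
  have key : ∀ n, ‖fc (fun x => b ħ x ξ) n * ek n (proj x) * (a σ (proj x) (ξ + freq ħ n)
      - a σ (proj x) ξ - ∑ i, (freq ħ n i : ℂ) * dxi i (a σ) x ξ)‖
      ≤ (B' * B * 49 * (8 * (1 + |R|)) ^ (M + 4) * ħ ^ 2 / (1 + ‖ξ‖) ^ 4) * (wt n ^ 2)⁻¹ := by
    intro n
    have hw := one_le_wt n
    have hw0 : 0 < wt n := by linarith
    rcases le_or_gt (R + ‖freq ħ n‖) ‖ξ‖ with hR | hR
    · rw [(hT σ hσ x ξ (freq ħ n)).2 hR]
      simp only [mul_zero, norm_zero]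
      positivity
    · rw [norm_mul, norm_mul, norm_ek, mul_one]
      have e1 := hF ħ hħ h0 ξ n
      have e2 := (hT σ hσ x ξ (freq ħ n)).1
      have e3 := norm_freq_le hħ n
      have e4 := one_add_norm_freq_le hħ h1 n
      have hξ : 1 + ‖ξ‖ ≤ 8 * (1 + |R|) * wt n := by
        have h2 := le_abs_self R
        have h3 := abs_nonneg R
        have h4 : 1 + ‖ξ‖ ≤ |R| + 8 * wt n := by linarith
        nlinarith
      calc ‖fc (fun x => b ħ x ξ) n‖ * ‖a σ (proj x) (ξ + freq ħ n)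
            - a σ (proj x) ξ - ∑ i, (freq ħ n i : ℂ) * dxi i (a σ) x ξ‖
          ≤ (B' * (1 + ‖ξ‖) ^ M / wt n ^ (M + 8)) * (B * (7 * ħ * wt n) ^ 2) := by
            apply mul_le_mul e1 _ (norm_nonneg _) (by positivity)
            refine e2.trans ?_
            gcongr
        _ = (B' * B * 49 * ((1 + ‖ξ‖) ^ M * (1 + ‖ξ‖) ^ 4 / wt n ^ (M + 4)) * ħ ^ 2
              / (1 + ‖ξ‖) ^ 4) * (wt n ^ 2)⁻¹ := by
            field_simp
            ring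
        _ ≤ (B' * B * 49 * (8 * (1 + |R|)) ^ (M + 4) * ħ ^ 2 / (1 + ‖ξ‖) ^ 4)
              * (wt n ^ 2)⁻¹ := by
            have h5 : (1 + ‖ξ‖) ^ M * (1 + ‖ξ‖) ^ 4 / wt n ^ (M + 4)
                ≤ (8 * (1 + |R|)) ^ (M + 4) := by
              rw [← pow_add, ← div_pow]
              apply pow_le_pow_left₀ (by positivity)
              rw [div_le_iff₀ hw0]
              exact hξ
            gcongr
  have hmain := expand_bound (ħ := ħ) (g := fun n => fc (fun x => b ħ x ξ) n * ek n (proj x))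
    (G := fun n => a σ (proj x) (ξ + freq ħ n)) (B1 := fun i => dxi i (a σ) x ξ) hA hD key
  rw [mul_comm (a σ (proj x) ξ) (b ħ (proj x) ξ)]
  refine hmain.trans (le_of_eq ?_)
  ring

/-- first derivatives of `a`: bounded, and zero for large `ξ` -/
theorem nice_deriv_bdd (ha : NiceFam R a a') : ∃ B : ℝ, 0 ≤ B ∧
    ∀ σ ∈ Set.Icc (0 : ℝ) 2, ∀ (x ξ : E) (i : Fin 2),
      ‖dx i (a σ) x ξ‖ ≤ B ∧ ‖dxi i (a σ) x ξ‖ ≤ B ∧
      (R < ‖ξ‖ → dx i (a σ) x ξ = 0 ∧ dxi i (a σ) x ξ = 0) := by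
  obtain ⟨B1, hB1, h1⟩ := ha.bdd 1 0
  obtain ⟨B2, hB2, h2⟩ := ha.bdd 0 1
  refine ⟨max B1 B2, le_max_of_le_left hB1, fun σ hσ x ξ i => ⟨?_, ?_, ?_⟩⟩
  · have h := h1 σ hσ x ξ
    rw [norm_iter_zero (fun y η => a σ (proj y) η), norm_iteratedFDeriv_one] at h
    unfold dx
    refine (ContinuousLinearMap.le_opNorm _ _).trans ?_
    have h3 : ‖(Pi.single i 1 : E)‖ = 1 := by
      rw [Pi.norm_single]; simp
    rw [h3, mul_one]
    exact h.trans (le_max_left _ _)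
  · have h := h2 σ hσ x ξ
    rw [norm_iteratedFDeriv_zero, norm_iteratedFDeriv_one] at h
    unfold dxi
    refine (ContinuousLinearMap.le_opNorm _ _).trans ?_
    have h3 : ‖(Pi.single i 1 : E)‖ = 1 := by
      rw [Pi.norm_single]; simp
    rw [h3, mul_one]
    exact h.trans (le_max_right _ _)
  · intro hR
    have hσ' : σ ∈ Set.Ioo (-1 : ℝ) 3 := ⟨by linarith [hσ.1], by linarith [hσ.2]⟩
    constructor
    · unfold dx
      have : (fun y : E => a σ (proj y) ξ) = fun _ => 0 := by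
        funext y
        exact ha.supp σ hσ' _ ξ hR.le
      rw [this]
      simp
    · unfold dxi
      have : (fun η : E => a σ (proj x) η) =ᶠ[nhds ξ] fun _ => 0 := by
        have hopen : IsOpen {η : E | R < ‖η‖} := isOpen_lt continuous_const continuous_norm
        filter_upwards [hopen.mem_nhds hR] with η hη
        exact ha.supp σ hσ' _ η (le_of_lt hη)
      rw [this.fderiv_eq]
      simp

/-- pointwise commutator estimate: combine the two with the transport equation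
`a' + {p, a} = 0` and `semi_sub`  (`(i/ħ) (ħ/i) = 1`). -/
theorem comm_pointwise (ha : NiceFam R a a') (hb : IsSemiSymbol m ħ0 b p)
    (htr : ∀ σ ∈ Set.Icc (0 : ℝ) 2, ∀ x ξ : E, a' σ (proj x) ξ + pb p (a σ) x ξ = 0) :
    ∃ C : ℝ, 0 ≤ C ∧
    ∀ ħ, 0 < ħ → ħ ≤ ħ0 → ħ ≤ 1 → ∀ σ ∈ Set.Icc (0 : ℝ) 2, ∀ x ξ : E,
      ‖(I / ħ) * (∑' n, fc (fun x => a σ x ξ) n * ek n (proj x) * b ħ (proj x) (ξ + freq ħ n))
        - (I / ħ) * (∑' n, fc (fun x => b ħ x ξ) n * ek n (proj x) * a σ (proj x) (ξ + freq ħ n))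
        + a' σ (proj x) ξ‖ ≤ C * ħ / (1 + ‖ξ‖) ^ 4 := by
  obtain ⟨C1, hC1, h1⟩ := comm_right ha hb
  obtain ⟨C2, hC2, h2⟩ := comm_left ha hb
  obtain ⟨B, M, hB, h3⟩ := semi_sub hb
  obtain ⟨B', hB', h4⟩ := nice_deriv_bdd ha
  refine ⟨C1 + C2 + 4 * (B * B') * (1 + |R|) ^ (M + 4), by positivity,
    fun ħ hħ h0 hħ1 σ hσ x ξ => ?_⟩
  have k1 := h1 ħ hħ h0 hħ1 σ hσ x ξ
  have k2 := h2 ħ hħ h0 hħ1 σ hσ x ξ
  have k3 := h3 ħ hħ h0 x ξ
  have k4 := h4 σ hσ x ξ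
  have k5 := htr σ hσ x ξ
  set S1 := ∑' n, fc (fun x => a σ x ξ) n * ek n (proj x) * b ħ (proj x) (ξ + freq ħ n)
  set S2 := ∑' n, fc (fun x => b ħ x ξ) n * ek n (proj x) * a σ (proj x) (ξ + freq ħ n)
  have hħc : (ħ : ℂ) ≠ 0 := by exact_mod_cast hħ.ne'
  have hI : I / (ħ : ℂ) * ((ħ : ℂ) / I) = 1 := by
    field_simp
  have key : (I / ħ) * S1 - (I / ħ) * S2 + a' σ (proj x) ξ
      = (I / ħ) * (S1 - (a σ (proj x) ξ * b ħ (proj x) ξ
            + (ħ : ℂ) / I * ∑ i, dx i (a σ) x ξ * dxi i (b ħ) x ξ))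
        - (I / ħ) * (S2 - (a σ (proj x) ξ * b ħ (proj x) ξ
            + (ħ : ℂ) / I * ∑ i, dx i (b ħ) x ξ * dxi i (a σ) x ξ))
        + ∑ i, (dx i (a σ) x ξ * (dxi i (b ħ) x ξ - dxi i p x ξ)
          - (dx i (b ħ) x ξ - dx i p x ξ) * dxi i (a σ) x ξ) := by
    have e1 : a' σ (proj x) ξ = - pb p (a σ) x ξ := by linear_combination k5
    rw [e1]
    unfold pb
    simp only [mul_sub, mul_add, ← mul_assoc, hI, one_mul, Finset.sum_sub_distrib, sub_mul]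
    have e2 : ∀ i, dxi i p x ξ * dx i (a σ) x ξ = dx i (a σ) x ξ * dxi i p x ξ :=
      fun i => mul_comm _ _
    simp only [e2]
    ring
  rw [key]
  have hn : ‖I / (ħ : ℂ)‖ = ħ⁻¹ := by
    rw [norm_div, Complex.norm_I, Complex.norm_real, Real.norm_of_nonneg hħ.le, one_div]
  have b1 : ‖(I / (ħ : ℂ)) * (S1 - (a σ (proj x) ξ * b ħ (proj x) ξ
            + (ħ : ℂ) / I * ∑ i, dx i (a σ) x ξ * dxi i (b ħ) x ξ))‖
      ≤ C1 * ħ / (1 + ‖ξ‖) ^ 4 := by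
    rw [norm_mul, hn]
    calc ħ⁻¹ * _ ≤ ħ⁻¹ * (C1 * ħ ^ 2 / (1 + ‖ξ‖) ^ 4) :=
          mul_le_mul_of_nonneg_left k1 (by positivity)
      _ = _ := by field_simp
  have b2 : ‖(I / (ħ : ℂ)) * (S2 - (a σ (proj x) ξ * b ħ (proj x) ξ
            + (ħ : ℂ) / I * ∑ i, dx i (b ħ) x ξ * dxi i (a σ) x ξ))‖
      ≤ C2 * ħ / (1 + ‖ξ‖) ^ 4 := by
    rw [norm_mul, hn]
    calc ħ⁻¹ * _ ≤ ħ⁻¹ * (C2 * ħ ^ 2 / (1 + ‖ξ‖) ^ 4) :=
          mul_le_mul_of_nonneg_left k2 (by positivity)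
      _ = _ := by field_simp
  have b3 : ‖∑ i, (dx i (a σ) x ξ * (dxi i (b ħ) x ξ - dxi i p x ξ)
          - (dx i (b ħ) x ξ - dx i p x ξ) * dxi i (a σ) x ξ)‖
      ≤ 4 * (B * B') * (1 + |R|) ^ (M + 4) * ħ / (1 + ‖ξ‖) ^ 4 := by
    rcases le_or_gt ‖ξ‖ R with hR | hR
    · have hξ : 1 + ‖ξ‖ ≤ 1 + |R| := by linarith [le_abs_self R]
      have hi : ∀ i : Fin 2, ‖dx i (a σ) x ξ * (dxi i (b ħ) x ξ - dxi i p x ξ)
          - (dx i (b ħ) x ξ - dx i p x ξ) * dxi i (a σ) x ξ‖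
          ≤ 2 * (B * B') * (1 + |R|) ^ (M + 4) * ħ / (1 + ‖ξ‖) ^ 4 := by
        intro i
        have c1 := (k3 i).1
        have c2 := (k3 i).2
        have c3 := (k4 i).1
        have c4 := (k4 i).2.1
        calc _ ≤ ‖dx i (a σ) x ξ * (dxi i (b ħ) x ξ - dxi i p x ξ)‖
              + ‖(dx i (b ħ) x ξ - dx i p x ξ) * dxi i (a σ) x ξ‖ := norm_sub_le _ _
          _ ≤ B' * (B * ħ * (1 + ‖ξ‖) ^ M) + (B * ħ * (1 + ‖ξ‖) ^ M) * B' := by
              rw [norm_mul, norm_mul]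
              gcongr
          _ = 2 * (B * B') * ((1 + ‖ξ‖) ^ M * (1 + ‖ξ‖) ^ 4) * ħ / (1 + ‖ξ‖) ^ 4 := by
              field_simp
              ring
          _ ≤ _ := by
              rw [← pow_add]
              gcongr
      rw [Fin.sum_univ_two]
      refine (norm_add_le _ _).trans ?_
      have := hi 0
      have := hi 1
      calc _ ≤ 2 * (B * B') * (1 + |R|) ^ (M + 4) * ħ / (1 + ‖ξ‖) ^ 4
            + 2 * (B * B') * (1 + |R|) ^ (M + 4) * ħ / (1 + ‖ξ‖) ^ 4 := add_le_add (hi 0) (hi 1)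
        _ = _ := by ring
    · have hz : ∀ i : Fin 2, dx i (a σ) x ξ * (dxi i (b ħ) x ξ - dxi i p x ξ)
          - (dx i (b ħ) x ξ - dx i p x ξ) * dxi i (a σ) x ξ = 0 := by
        intro i
        obtain ⟨z1, z2⟩ := (k4 i).2.2 hR
        rw [z1, z2]
        ring
      simp only [hz, Finset.sum_const_zero, norm_zero]
      positivity
  calc _ ≤ C1 * ħ / (1 + ‖ξ‖) ^ 4 + C2 * ħ / (1 + ‖ξ‖) ^ 4
        + 4 * (B * B') * (1 + |R|) ^ (M + 4) * ħ / (1 + ‖ξ‖) ^ 4 := by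
        refine (norm_add_le _ _).trans (add_le_add ((norm_sub_le _ _).trans ?_) b3)
        exact add_le_add b1 b2
    _ = _ := by ring

end Pool.Agent.H56.Q
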