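import Pool.Agent.H56.Q.Uni

/-! Module CA: bounds, Taylor expansions and Fourier coefficients of the symbols. -/

set_option autoImplicit false

open MeasureTheory Complex
open scoped ContDiff

noncomputable section

namespace Pool.Agent.H56.Q

variable {R : ℝ} {a a' : ℝ → T2 → E → ℂ} {m ħ0 : ℝ} {b : ℝ → T2 → E → ℂ} {p : T2 → E → ℂ}

/-- zero inner derivatives can be removed -/
theorem coma_norm_iter_zero (F : E → E → ℂ) (i : ℕ) (x ξ : E) :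
    ‖iteratedFDeriv ℝ i (fun y : E => iteratedFDeriv ℝ 0 (fun η : E => F y η) ξ) x‖
      = ‖iteratedFDeriv ℝ i (fun y : E => F y ξ) x‖ := by
  have e : (fun y : E => iteratedFDeriv ℝ 0 (fun η : E => F y η) ξ)
      = (continuousMultilinearCurryFin0 ℝ E ℂ).symm ∘ fun y => F y ξ := by
    ext y
    simp
  rw [e]
  exact LinearIsometryEquiv.norm_iteratedFDeriv_comp_left _ _ _ _

theorem rpow_le_pow {m : ℝ} {t : ℝ} (ht : 1 ≤ t) (n : ℕ) {m' : ℝ} (h : m' ≤ m) (hn : m ≤ n) :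
    t ^ m' ≤ t ^ n := by
  rw [← Real.rpow_natCast]
  exact Real.rpow_le_rpow_of_exponent_le ht (h.trans hn)

/-- polynomial bounds for the symbol `b`, uniform in `ħ` (from the case `J = 0` of the expansion);
real exponents are replaced by a natural number `M ≥ m` -/
theorem semi_bdd (hb : IsSemiSymbol m ħ0 b p) (i j : ℕ) : ∃ (B : ℝ) (M : ℕ), 0 ≤ B ∧
    ∀ ħ, 0 < ħ → ħ ≤ ħ0 → ∀ x ξ : E,
      ‖iteratedFDeriv ℝ i (fun y : E => iteratedFDeriv ℝ j (fun η : E => b ħ (proj y) η) ξ) x‖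
        ≤ B * (1 + ‖ξ‖) ^ M := by
  obtain ⟨c, hc0, hKN, hsm, hest⟩ := hb
  obtain ⟨C, hC⟩ := hest 0 i j
  refine ⟨|C|, ⌈|m|⌉₊, abs_nonneg _, fun ħ h0 h1 x ξ => ?_⟩
  have h := hC ħ h0 h1 x ξ
  simp only [Finset.range_zero, Finset.sum_empty, sub_zero, pow_zero, mul_one, Nat.cast_zero] at h
  refine h.trans ?_
  have h3 : (1 + ‖ξ‖) ^ (m - (j : ℝ)) ≤ (1 + ‖ξ‖) ^ (⌈|m|⌉₊ : ℕ) := by
    apply rpow_le_pow (m := |m|) (by linarith [norm_nonneg ξ])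
    · linarith [le_abs_self m, (Nat.cast_nonneg j : (0 : ℝ) ≤ j)]
    · exact Nat.le_ceil _
  have h4 : 0 ≤ (1 + ‖ξ‖) ^ (m - (j : ℝ)) := Real.rpow_nonneg (by positivity) _
  calc C * (1 + ‖ξ‖) ^ (m - (j : ℝ)) ≤ |C| * (1 + ‖ξ‖) ^ (m - (j : ℝ)) := by
        gcongr; exact le_abs_self C
    _ ≤ _ := by gcongr

theorem norm_single_one (i : Fin 2) : ‖(Pi.single i 1 : E)‖ = 1 := by
  rw [Pi.norm_single]; simp

/-- `b - p = O(ħ)` for the first derivatives (case `J = 1`) -/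
theorem semi_sub (hb : IsSemiSymbol m ħ0 b p) : ∃ (B : ℝ) (M : ℕ), 0 ≤ B ∧
    ∀ ħ, 0 < ħ → ħ ≤ ħ0 → ∀ (x ξ : E) (i : Fin 2),
      ‖dx i (b ħ) x ξ - dx i p x ξ‖ ≤ B * ħ * (1 + ‖ξ‖) ^ M ∧
      ‖dxi i (b ħ) x ξ - dxi i p x ξ‖ ≤ B * ħ * (1 + ‖ξ‖) ^ M := by
  obtain ⟨c, hc0, hKN, hsm, hest⟩ := hb
  obtain ⟨C1, hC1⟩ := hest 1 1 0
  obtain ⟨C2, hC2⟩ := hest 1 0 1
  refine ⟨|C1| + |C2|, ⌈|m|⌉₊, by positivity, fun ħ h0 h1 x ξ i => ?_⟩
  have hp : ContDiff ℝ ∞ (fun z : E × E => p (proj z.1) z.2) := by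
    have := (hKN 0).1; rwa [hc0] at this
  have hbs := hsm ħ h0 h1
  have hsum : ∀ y η : E, b ħ (proj y) η - ∑ l ∈ Finset.range 1, (ħ : ℂ) ^ l * c l (proj y) η
      = b ħ (proj y) η - p (proj y) η := by
    intro y η
    rw [Finset.sum_range_one, pow_zero, one_mul, hc0]
  have hle : ∀ j : ℕ, (1 + ‖ξ‖) ^ (m - ((1 : ℕ) : ℝ) - (j : ℝ)) ≤ (1 + ‖ξ‖) ^ (⌈|m|⌉₊ : ℕ) := by
    intro j
    apply rpow_le_pow (m := |m|) (by linarith [norm_nonneg ξ])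
    · push_cast
      linarith [le_abs_self m, (Nat.cast_nonneg j : (0 : ℝ) ≤ j)]
    · exact Nat.le_ceil _
  have hnn : ∀ j : ℕ, 0 ≤ (1 + ‖ξ‖) ^ (m - ((1 : ℕ) : ℝ) - (j : ℝ)) := fun j =>
    Real.rpow_nonneg (by positivity) _
  constructor
  · have h := hC1 ħ h0 h1 x ξ
    simp only [hsum] at h
    rw [coma_norm_iter_zero (fun y η => b ħ (proj y) η - p (proj y) η), norm_iteratedFDeriv_one] at h
    have d1 : DifferentiableAt ℝ (fun y : E => b ħ (proj y) ξ) x :=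
      ((hbs.comp (f := fun y : E => (y, ξ)) (by fun_prop)).differentiable (by simp)) x
    have d2 : DifferentiableAt ℝ (fun y : E => p (proj y) ξ) x :=
      ((hp.comp (f := fun y : E => (y, ξ)) (by fun_prop)).differentiable (by simp)) x
    rw [fderiv_fun_sub d1 d2] at h
    have e : dx i (b ħ) x ξ - dx i p x ξ
        = (fderiv ℝ (fun y : E => b ħ (proj y) ξ) x - fderiv ℝ (fun y : E => p (proj y) ξ) x)
          (Pi.single i 1) := by
      simp [dx]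
    rw [e]
    refine (ContinuousLinearMap.le_opNorm _ _).trans ?_
    rw [norm_single_one, mul_one]
    refine h.trans ?_
    rw [pow_one]
    calc C1 * ħ * (1 + ‖ξ‖) ^ (m - ((1 : ℕ) : ℝ) - ((0 : ℕ) : ℝ))
        ≤ (|C1| + |C2|) * ħ * (1 + ‖ξ‖) ^ (m - ((1 : ℕ) : ℝ) - ((0 : ℕ) : ℝ)) := by
          gcongr
          linarith [le_abs_self C1, abs_nonneg C2]
      _ ≤ _ := by gcongr; exact hle 0
  · have h := hC2 ħ h0 h1 x ξ
    simp only [hsum] at h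
    rw [norm_iteratedFDeriv_zero, norm_iteratedFDeriv_one] at h
    have d1 : DifferentiableAt ℝ (fun η : E => b ħ (proj x) η) ξ :=
      ((hbs.comp (f := fun η : E => (x, η)) (by fun_prop)).differentiable (by simp)) ξ
    have d2 : DifferentiableAt ℝ (fun η : E => p (proj x) η) ξ :=
      ((hp.comp (f := fun η : E => (x, η)) (by fun_prop)).differentiable (by simp)) ξ
    rw [fderiv_fun_sub d1 d2] at h
    have e : dxi i (b ħ) x ξ - dxi i p x ξ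
        = (fderiv ℝ (fun η : E => b ħ (proj x) η) ξ - fderiv ℝ (fun η : E => p (proj x) η) ξ)
          (Pi.single i 1) := by
      simp [dxi]
    rw [e]
    refine (ContinuousLinearMap.le_opNorm _ _).trans ?_
    rw [norm_single_one, mul_one]
    refine h.trans ?_
    rw [pow_one]
    calc C2 * ħ * (1 + ‖ξ‖) ^ (m - ((1 : ℕ) : ℝ) - ((1 : ℕ) : ℝ))
        ≤ (|C1| + |C2|) * ħ * (1 + ‖ξ‖) ^ (m - ((1 : ℕ) : ℝ) - ((1 : ℕ) : ℝ)) := by
          gcongr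
          linarith [le_abs_self C2, abs_nonneg C1]
      _ ≤ _ := by gcongr; exact hle 1

/-- second order Taylor estimate -/
theorem taylor2 {g : E → ℂ} (hg : ContDiff ℝ ∞ g) {ξ v : E} {B : ℝ}
    (hB : ∀ z, ‖z - ξ‖ ≤ ‖v‖ → ‖iteratedFDeriv ℝ 2 g z‖ ≤ B) :
    ‖g (ξ + v) - g ξ - ∑ i, (v i : ℂ) * fderiv ℝ g ξ (Pi.single i 1)‖ ≤ B * ‖v‖ ^ 2 := by
  have hB0 : 0 ≤ B := (norm_nonneg _).trans (hB ξ (by simp))
  have hconv : Convex ℝ (Metric.closedBall ξ ‖v‖) := convex_closedBall _ _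
  have hgd : Differentiable ℝ g := hg.differentiable (by simp)
  have hg' : ContDiff ℝ ∞ (fderiv ℝ g) := hg.fderiv_right (by simp)
  have hg'd : Differentiable ℝ (fderiv ℝ g) := hg'.differentiable (by simp)
  have hsecond : ∀ z ∈ Metric.closedBall ξ ‖v‖, ‖fderiv ℝ (fderiv ℝ g) z‖ ≤ B := by
    intro z hz
    have h1 := hB z (by simpa [dist_eq_norm] using hz)
    rw [← norm_iteratedFDeriv_one, norm_iteratedFDeriv_fderiv]
    exact h1
  have hξ : ξ ∈ Metric.closedBall ξ ‖v‖ := Metric.mem_closedBall_self (norm_nonneg _)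
  have hfirst : ∀ z ∈ Metric.closedBall ξ ‖v‖, ‖fderiv ℝ g z - fderiv ℝ g ξ‖ ≤ B * ‖v‖ := by
    intro z hz
    have h1 := hconv.norm_image_sub_le_of_norm_fderiv_le (f := fderiv ℝ g)
      (fun w _ => hg'd w) hsecond hξ hz
    refine h1.trans ?_
    gcongr
    simpa [dist_eq_norm] using hz
  have hmem : ξ + v ∈ Metric.closedBall ξ ‖v‖ := by simp
  have h2 := hconv.norm_image_sub_le_of_norm_fderiv_le' (f := g) (φ := fderiv ℝ g ξ)
    (fun w _ => hgd w) hfirst hξ hmem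
  have e : fderiv ℝ g ξ (ξ + v - ξ) = ∑ i, (v i : ℂ) * fderiv ℝ g ξ (Pi.single i 1) := by
    rw [add_sub_cancel_left]
    conv_lhs => rw [pi_eq_sum_univ' v]
    rw [map_sum]
    apply Finset.sum_congr rfl
    intro i _
    rw [map_smul, Complex.real_smul]
  rw [e, add_sub_cancel_left] at h2
  calc _ ≤ B * ‖v‖ * ‖v‖ := h2
    _ = _ := by ring

/-- Taylor expansion of `b` in `ξ` -/
theorem semi_taylor (hb : IsSemiSymbol m ħ0 b p) : ∃ (B : ℝ) (M : ℕ), 0 ≤ B ∧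
    ∀ ħ, 0 < ħ → ħ ≤ ħ0 → ∀ x ξ v : E,
      ‖b ħ (proj x) (ξ + v) - b ħ (proj x) ξ - ∑ i, (v i : ℂ) * dxi i (b ħ) x ξ‖
        ≤ B * ‖v‖ ^ 2 * (1 + ‖ξ‖) ^ M * (1 + ‖v‖) ^ M := by
  obtain ⟨B, M, hB, h⟩ := semi_bdd hb 0 2
  obtain ⟨c, hc0, hKN, hsm, hest⟩ := hb
  refine ⟨B, M, hB, fun ħ h0 h1 x ξ v => ?_⟩
  have hg : ContDiff ℝ ∞ (fun η : E => b ħ (proj x) η) :=
    (hsm ħ h0 h1).comp (f := fun η : E => (x, η)) (by fun_prop)
  have := taylor2 (g := fun η : E => b ħ (proj x) η) hg (ξ := ξ) (v := v)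
    (B := B * ((1 + ‖ξ‖) ^ M * (1 + ‖v‖) ^ M)) (by
      intro z hz
      have h3 := h ħ h0 h1 x z
      rw [norm_iteratedFDeriv_zero] at h3
      refine h3.trans ?_
      rw [← mul_pow]
      gcongr
      have : ‖z‖ ≤ ‖ξ‖ + ‖v‖ := by
        calc ‖z‖ = ‖ξ + (z - ξ)‖ := by congr 1; abel
          _ ≤ ‖ξ‖ + ‖z - ξ‖ := norm_add_le _ _
          _ ≤ _ := by gcongr
      nlinarith [norm_nonneg ξ, norm_nonneg v])
  refine this.trans (le_of_eq ?_)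
  ring

/-- Taylor expansion of `a` in `ξ`; the remainder vanishes if `‖ξ‖ ≥ R + ‖v‖` -/
theorem nice_taylor (ha : NiceFam R a a') : ∃ B : ℝ, 0 ≤ B ∧
    ∀ σ ∈ Set.Icc (0 : ℝ) 2, ∀ x ξ v : E,
      ‖a σ (proj x) (ξ + v) - a σ (proj x) ξ - ∑ i, (v i : ℂ) * dxi i (a σ) x ξ‖
        ≤ B * ‖v‖ ^ 2 ∧
      (R + ‖v‖ ≤ ‖ξ‖ → a σ (proj x) (ξ + v) - a σ (proj x) ξ - ∑ i, (v i : ℂ) * dxi i (a σ) x ξ
        = 0) := by
  obtain ⟨B, hB, h⟩ := ha.bdd 0 2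
  refine ⟨B, hB, fun σ hσ x ξ v => ⟨?_, ?_⟩⟩
  · have hσ' : σ ∈ Set.Ioo (-1 : ℝ) 3 := ⟨by linarith [hσ.1], by linarith [hσ.2]⟩
    have hg : ContDiff ℝ ∞ (fun η : E => a σ (proj x) η) :=
      (ha.smooth_at hσ').comp (f := fun η : E => (x, η)) (by fun_prop)
    exact taylor2 (g := fun η : E => a σ (proj x) η) hg (ξ := ξ) (v := v) (B := B) (by
      intro z hz
      have h3 := h σ hσ x z
      rwa [norm_iteratedFDeriv_zero] at h3)
  · intro hξ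
    have hσ' : σ ∈ Set.Ioo (-1 : ℝ) 3 := ⟨by linarith [hσ.1], by linarith [hσ.2]⟩
    have h1 : a σ (proj x) (ξ + v) = 0 := by
      apply ha.supp σ hσ'
      have : ‖ξ‖ ≤ ‖ξ + v‖ + ‖v‖ := by
        calc ‖ξ‖ = ‖(ξ + v) - v‖ := by congr 1; abel
          _ ≤ _ := norm_sub_le _ _
      linarith
    have h2 : a σ (proj x) ξ = 0 := by
      apply ha.supp σ hσ'
      linarith [norm_nonneg v]
    rw [h1, h2]
    by_cases hv : v = 0
    · simp [hv]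
    · have hv' : 0 < ‖v‖ := norm_pos_iff.mpr hv
      have hz : (fun η : E => a σ (proj x) η) =ᶠ[nhds ξ] fun _ => 0 := by
        have : ∀ᶠ η in nhds ξ, R < ‖η‖ :=
          continuous_norm.continuousAt.eventually (lt_mem_nhds (by linarith : R < ‖ξ‖))
        filter_upwards [this] with η hη
        exact ha.supp σ hσ' _ _ hη.le
      have hd : ∀ i, dxi i (a σ) x ξ = 0 := by
        intro i
        rw [dxi, hz.fderiv_eq]
        simp
      simp [hd]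

/-- Fourier coefficients of `a` and `b` -/
theorem nice_fc (ha : NiceFam R a a') (N : ℕ) : ∃ B : ℝ, 0 ≤ B ∧
    ∀ σ ∈ Set.Icc (0 : ℝ) 2, ∀ (ξ : E) (n : Fin 2 → ℤ),
      ‖fc (fun x => a σ x ξ) n‖ ≤ B / wt n ^ N ∧ (R ≤ ‖ξ‖ → fc (fun x => a σ x ξ) n = 0) := by
  obtain ⟨C, hC, hdec⟩ := fc_decay N
  choose B hB0 hB using fun j => ha.bdd j 0
  refine ⟨C * ∑ j ∈ Finset.range (2 * N + 1), B j,
    mul_nonneg hC.le (Finset.sum_nonneg fun j _ => hB0 j), fun σ hσ ξ n => ⟨?_, ?_⟩⟩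
  · have hσ' : σ ∈ Set.Ioo (-1 : ℝ) 3 := ⟨by linarith [hσ.1], by linarith [hσ.2]⟩
    apply hdec (fun x => a σ x ξ)
    · exact (ha.smooth_at hσ').comp (f := fun y : E => (y, ξ)) (by fun_prop)
    · intro j hj x
      have h3 := hB j σ hσ x ξ
      rw [coma_norm_iter_zero (fun y η => a σ (proj y) η)] at h3
      refine h3.trans ?_
      exact Finset.single_le_sum (f := B) (fun j _ => hB0 j) (Finset.mem_range.mpr (by omega))
  · intro hξ
    have hσ' : σ ∈ Set.Ioo (-1 : ℝ) 3 := ⟨by linarith [hσ.1], by linarith [hσ.2]⟩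
    have e2 : (fun x : T2 => a σ x ξ) = fun x => (0 : ℂ) * ek 0 x := by
      ext x; rw [ha.supp σ hσ' x _ hξ, zero_mul]
    rw [e2, fc, cls_smul _ (continuous_ek _), zero_smul, inner_zero_right]

theorem semi_fc (hb : IsSemiSymbol m ħ0 b p) (N : ℕ) : ∃ (B : ℝ) (M : ℕ), 0 ≤ B ∧
    ∀ ħ, 0 < ħ → ħ ≤ ħ0 → ∀ (ξ : E) (n : Fin 2 → ℤ),
      ‖fc (fun x => b ħ x ξ) n‖ ≤ B * (1 + ‖ξ‖) ^ M / wt n ^ N := by
  obtain ⟨C, hC, hdec⟩ := fc_decay N
  choose B M hB0 hB using fun j => semi_bdd hb j 0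
  obtain ⟨c, hc0, hKN, hsm, hest⟩ := hb
  refine ⟨C * ∑ j ∈ Finset.range (2 * N + 1), B j, ∑ j ∈ Finset.range (2 * N + 1), M j,
    mul_nonneg hC.le (Finset.sum_nonneg fun j _ => hB0 j), fun ħ h0 h1 ξ n => ?_⟩
  rw [mul_assoc]
  apply hdec (fun x => b ħ x ξ)
  · exact (hsm ħ h0 h1).comp (f := fun y : E => (y, ξ)) (by fun_prop)
  · intro j hj x
    have h3 := hB j ħ h0 h1 x ξ
    rw [coma_norm_iter_zero (fun y η => b ħ (proj y) η)] at h3
    refine h3.trans ?_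
    have hj' : j ∈ Finset.range (2 * N + 1) := Finset.mem_range.mpr (by omega)
    have hM : M j ≤ ∑ j ∈ Finset.range (2 * N + 1), M j :=
      Finset.single_le_sum (f := M) (fun j _ => Nat.zero_le _) hj'
    have hBj : B j ≤ ∑ j ∈ Finset.range (2 * N + 1), B j :=
      Finset.single_le_sum (f := B) (fun j _ => hB0 j) hj'
    gcongr
    · exact Finset.sum_nonneg fun j _ => hB0 j
    · linarith [norm_nonneg ξ]

end Pool.Agent.H56.Q
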