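import Mathlib

/-!
Definitions for MP_c1d796_mp (exact quantisation of classical integrable systems), setting (b),
on the torus `X = 𝕋² = (ℝ/ℤ)²`.
-/

set_option autoImplicit false

open MeasureTheory
open scoped ContDiff

noncomputable section

namespace Pool.Agent.H56.Q

/-- the plane `ℝ²` (covering space of the torus, and momentum space) -/
abbrev E : Type := Fin 2 → ℝ

/-- the torus `𝕋² = (ℝ/ℤ)²` -/
abbrev T2 : Type := UnitAddTorus (Fin 2)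

/-- the covering map `ℝ² → 𝕋²` -/
def proj (x : E) : T2 := fun i => ((x i : ℝ) : UnitAddCircle)

/-- the normalised Haar (Lebesgue) measure on `𝕋²` -/
abbrev muT : Measure T2 := Measure.pi fun _ : Fin 2 => AddCircle.haarAddCircle

/-- `L²(𝕋²)` -/
abbrev L2T : Type := Lp ℂ 2 muT

/-- the class of a function in `L²(𝕋²)` (zero if the function is not square integrable) -/
def cls (f : T2 → ℂ) : L2T := open Classical in if h : MemLp f 2 muT then h.toLp f else 0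

/-- the exponential `e_k(x) = exp (2 π i k·x)` on `𝕋²` -/
def ek (k : Fin 2 → ℤ) : T2 → ℂ := fun x => UnitAddTorus.mFourier k x

/-- the frequency `2 π ħ k` -/
def freq (ħ : ℝ) (k : Fin 2 → ℤ) : E := fun i => 2 * Real.pi * ħ * (k i : ℝ)

/-- Kohn-Nirenberg class `S^m(T*𝕋²)`: smooth functions `a(x,ξ)` on `𝕋² × ℝ²` with
`|∂_x^i ∂_ξ^j a| ≤ C_ij (1 + |ξ|)^(m - j)`. -/
def KN (m : ℝ) (a : T2 → E → ℂ) : Prop :=
  ContDiff ℝ ∞ (fun z : E × E => a (proj z.1) z.2) ∧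
  ∀ i j : ℕ, ∃ C : ℝ, ∀ x ξ : E,
    ‖iteratedFDeriv ℝ i (fun y : E => iteratedFDeriv ℝ j (fun η : E => a (proj y) η) ξ) x‖
      ≤ C * (1 + ‖ξ‖) ^ (m - j)

/-- `a ħ` (for `0 < ħ ≤ ħ₀`) is a semiclassical symbol of order `m` with an expansion
`∑ ħ^j c_j`, `c_j ∈ S^(m-j)`, and principal symbol `c_0 = a0`. -/
def IsSemiSymbol (m ħ0 : ℝ) (a : ℝ → T2 → E → ℂ) (a0 : T2 → E → ℂ) : Prop :=
  ∃ c : ℕ → T2 → E → ℂ, c 0 = a0 ∧ (∀ j : ℕ, KN (m - j) (c j)) ∧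
    (∀ ħ : ℝ, 0 < ħ → ħ ≤ ħ0 → ContDiff ℝ ∞ (fun z : E × E => a ħ (proj z.1) z.2)) ∧
    ∀ J i j : ℕ, ∃ C : ℝ, ∀ ħ : ℝ, 0 < ħ → ħ ≤ ħ0 → ∀ x ξ : E,
      ‖iteratedFDeriv ℝ i (fun y : E => iteratedFDeriv ℝ j (fun η : E =>
          a ħ (proj y) η - ∑ l ∈ Finset.range J, (ħ : ℂ) ^ l * c l (proj y) η) ξ) x‖
        ≤ C * ħ ^ J * (1 + ‖ξ‖) ^ (m - J - j)

/-- The semiclassical pseudo-differential operator with symbol `a ħ` applied to the exponential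
`e_k`: the function `x ↦ a_ħ(x, 2πħk) e_k(x)`. -/
def opExp (ħ : ℝ) (a : ℝ → T2 → E → ℂ) (k : Fin 2 → ℤ) : L2T :=
  cls fun x => a ħ x (freq ħ k) * ek k x

/-- strongly continuous one-parameter group of unitary operators -/
structure IsUnitaryGroup {H : Type*} [NormedAddCommGroup H] [InnerProductSpace ℂ H]
    (U : ℝ → H →L[ℂ] H) : Prop where
  zero : U 0 = ContinuousLinearMap.id ℂ H
  add : ∀ s t : ℝ, U (s + t) = (U s).comp (U t)
  norm : ∀ (t : ℝ) (v : H), ‖U t v‖ = ‖v‖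
  cont : ∀ v : H, Continuous fun t => U t v

/-- the unitary group `U(t) = exp(-i t P_ħ / ħ)` of (a self-adjoint extension of) the operator
`P_ħ` with symbol `a ħ`: the derivative of `U(t) e_k` at `0` is `-(i/ħ) P_ħ e_k` -/
def Generates (ħ : ℝ) (a : ℝ → T2 → E → ℂ) (U : ℝ → L2T →L[ℂ] L2T) : Prop :=
  ∀ k : Fin 2 → ℤ, HasDerivAt (fun t => U t (cls (ek k)))
    ((-(Complex.I / (ħ : ℂ))) • opExp ħ a k) 0

/-- partial derivative in `x_i` of a function on `𝕋² × ℝ²` (as a function on `ℝ² × ℝ²`) -/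
def dx (i : Fin 2) (f : T2 → E → ℂ) (x ξ : E) : ℂ :=
  fderiv ℝ (fun y : E => f (proj y) ξ) x (Pi.single i 1)

/-- partial derivative in `ξ_i` -/
def dxi (i : Fin 2) (f : T2 → E → ℂ) (x ξ : E) : ℂ :=
  fderiv ℝ (fun η : E => f (proj x) η) ξ (Pi.single i 1)

/-- Poisson bracket `{f,g} = ∑ (∂_ξ f ∂_x g - ∂_x f ∂_ξ g)` on `T*𝕋²` -/
def pb (f g : T2 → E → ℂ) (x ξ : E) : ℂ :=
  ∑ i : Fin 2, (dxi i f x ξ * dx i g x ξ - dx i f x ξ * dxi i g x ξ)

/-- complexification of a real function on `T*𝕋²` -/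
def toCx (p : T2 → E → ℝ) : T2 → E → ℂ := fun x ξ => (p x ξ : ℂ)

/-- A classical integrable system on `T*𝕋²`: two real symbols (of order `m`) which
Poisson-commute and have linearly independent differentials almost everywhere. -/
structure IsClassicalIntegrable (m : ℝ) (p1 p2 : T2 → E → ℝ) : Prop where
  symb1 : KN m (toCx p1)
  symb2 : KN m (toCx p2)
  commute : ∀ x ξ : E, pb (toCx p1) (toCx p2) x ξ = 0
  indep : ∀ᵐ z : E × E, LinearIndependent ℝ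
    ![fderiv ℝ (fun w : E × E => p1 (proj w.1) w.2) z, fderiv ℝ (fun w : E × E => p2 (proj w.1) w.2) z]

/-- `(p1, p2)` is quantised exactly: for some `ħ₀ > 0` there are semiclassical pseudo-differential
operators `P1, P2` (of some orders) with principal symbols `p1, p2` such that for every
`0 < ħ ≤ ħ₀` they generate commuting unitary groups, `exp(-isP1/ħ) exp(-itP2/ħ) =
exp(-itP2/ħ) exp(-isP1/ħ)`. -/
def IsQuantised (p1 p2 : T2 → E → ℝ) : Prop :=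
  ∃ ħ0 : ℝ, 0 < ħ0 ∧ ∃ (m1 m2 : ℝ) (a1 a2 : ℝ → T2 → E → ℂ),
    IsSemiSymbol m1 ħ0 a1 (toCx p1) ∧ IsSemiSymbol m2 ħ0 a2 (toCx p2) ∧
    ∀ ħ : ℝ, 0 < ħ → ħ ≤ ħ0 → ∃ U1 U2 : ℝ → L2T →L[ℂ] L2T,
      IsUnitaryGroup U1 ∧ IsUnitaryGroup U2 ∧ Generates ħ a1 U1 ∧ Generates ħ a2 U2 ∧
      ∀ s t : ℝ, (U1 s).comp (U2 t) = (U2 t).comp (U1 s)

end Pool.Agent.H56.Q
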