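import Pool.Agent.H56.Q.HilA

/-! Module H: one-parameter unitary groups and the abstract Egorov lemma. -/

set_option autoImplicit false

open scoped ENNReal

noncomputable section

namespace Pool.Agent.H56.Q

variable {H : Type*} [NormedAddCommGroup H] [InnerProductSpace ℂ H] [CompleteSpace H] {ι : Type*}

/-- the finite rank operator `u ↦ ∑_{k ∈ K} ⟨b_k, u⟩ v_k` -/
def finOp (b : HilbertBasis ι ℂ H) (K : Finset ι) (v : ι → H) : H →L[ℂ] H :=
  ∑ k ∈ K, (innerSL ℂ (b k)).smulRight (v k)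

omit [CompleteSpace H] in
theorem finOp_apply (b : HilbertBasis ι ℂ H) (K : Finset ι) (v : ι → H) (u : H) :
    finOp b K v u = ∑ k ∈ K, (inner ℂ (b k) u : ℂ) • v k := by
  simp [finOp]

omit [CompleteSpace H] in
theorem group_inv_left {U : ℝ → H →L[ℂ] H} (hU : IsUnitaryGroup U) (s : ℝ) :
    (U (-s)).comp (U s) = ContinuousLinearMap.id ℂ H := by
  rw [← hU.add, neg_add_cancel, hU.zero]

omit [CompleteSpace H] in
theorem group_inv_right {U : ℝ → H →L[ℂ] H} (hU : IsUnitaryGroup U) (s : ℝ) :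
    (U s).comp (U (-s)) = ContinuousLinearMap.id ℂ H := by
  rw [← hU.add, add_neg_cancel, hU.zero]

omit [CompleteSpace H] in
/-- `v` lies in the domain of the generator of `U`, with image `w`; then `U(t)v` is
differentiable everywhere -/
theorem group_hasDerivAt {U : ℝ → H →L[ℂ] H} (hU : IsUnitaryGroup U) {v w : H}
    (h : HasDerivAt (fun t => U t v) w 0) (t : ℝ) : HasDerivAt (fun t => U t v) (U t w) t := by
  have h1 : HasDerivAt (fun s : ℝ => U (s - t) v) w t := by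
    have h0 : HasDerivAt (fun s : ℝ => U s v) w (t - t) := by rw [sub_self]; exact h
    have := HasDerivAt.scomp (x := t) (h := fun s : ℝ => s - t) (g₁ := fun s : ℝ => U s v) h0
      ((hasDerivAt_id t).sub_const t)
    simpa [Function.comp_def] using this
  have h2 : HasDerivAt (fun s : ℝ => U t (U (s - t) v)) (U t w) t := by
    have := ((U t).restrictScalars ℝ).hasFDerivAt.comp_hasDerivAt t h1
    simpa [Function.comp_def] using this
  refine h2.congr_of_eventuallyEq (Filter.Eventually.of_forall fun s => ?_)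
  show U s v = U t (U (s - t) v)
  rw [← ContinuousLinearMap.comp_apply, ← hU.add]
  congr 2
  ring

omit [CompleteSpace H] in
/-- the domain of the generator is invariant -/
theorem group_dom_invariant {U : ℝ → H →L[ℂ] H} (hU : IsUnitaryGroup U) {v w : H}
    (h : HasDerivAt (fun t => U t v) w 0) (s : ℝ) :
    HasDerivAt (fun t => U t (U s v)) (U s w) 0 := by
  have h1 : HasDerivAt (fun t : ℝ => U s (U t v)) (U s w) 0 := by
    have := ((U s).restrictScalars ℝ).hasFDerivAt.comp_hasDerivAt (0 : ℝ) h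
    simpa [Function.comp_def] using this
  refine h1.congr_of_eventuallyEq (Filter.Eventually.of_forall fun t => ?_)
  show U t (U s v) = U s (U t v)
  rw [← ContinuousLinearMap.comp_apply, ← ContinuousLinearMap.comp_apply, ← hU.add, ← hU.add,
    add_comm]

omit [CompleteSpace H] in
theorem group_inner {U : ℝ → H →L[ℂ] H} (hU : IsUnitaryGroup U) (t : ℝ) (u v : H) :
    inner ℂ (U t u) (U t v) = inner ℂ u v := by
  let L : H →ₗᵢ[ℂ] H := { toLinearMap := (U t).toLinearMap, norm_map' := hU.norm t }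
  exact L.inner_map_map u v

omit [CompleteSpace H] in
/-- skew-symmetry of the generator -/
theorem generator_skew {U : ℝ → H →L[ℂ] H} (hU : IsUnitaryGroup U) {v v' w w' : H}
    (h : HasDerivAt (fun t => U t v) w 0) (h' : HasDerivAt (fun t => U t v') w' 0) :
    inner ℂ v w' = - inner ℂ w v' := by
  have h1 := HasDerivAt.inner ℂ h h'
  have h2 : (fun t : ℝ => (inner ℂ (U t v) (U t v') : ℂ)) = fun _ => inner ℂ v v' := by
    funext t
    exact group_inner hU t v v'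
  rw [h2] at h1
  have h3 := h1.unique (hasDerivAt_const (0 : ℝ) (inner ℂ v v' : ℂ))
  rw [hU.zero] at h3
  simp only [ContinuousLinearMap.id_apply] at h3
  exact eq_neg_of_add_eq_zero_left h3

omit [CompleteSpace H] in
/-- derivative of `σ ↦ U(-σ) v(σ)` -/
theorem group_neg_hasDerivAt {U : ℝ → H →L[ℂ] H} (hU : IsUnitaryGroup U) {v : ℝ → H} {v' w : H}
    {σ : ℝ} (hv : HasDerivAt v v' σ) (hw : HasDerivAt (fun τ => U τ (v σ)) w 0) :
    HasDerivAt (fun τ => U (-τ) (v τ)) (U (-σ) (v' - w)) σ := by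
  -- second part: `τ ↦ U(-τ) v(σ)`
  have h2 : HasDerivAt (fun τ : ℝ => U (-τ) (v σ)) (-(U (-σ) w)) σ := by
    have h0 := group_hasDerivAt hU hw (-σ)
    have := HasDerivAt.scomp (x := σ) (h := fun s : ℝ => -s) (g₁ := fun s : ℝ => U s (v σ)) h0
      (hasDerivAt_neg σ)
    simpa [Function.comp_def] using this
  -- first part: `τ ↦ U(-τ) (v τ - v σ)`
  have h1 : HasDerivAt (fun τ : ℝ => U (-τ) (v τ - v σ)) (U (-σ) v') σ := by
    rw [hasDerivAt_iff_tendsto_slope]
    have hs : Filter.Tendsto (slope v σ) (nhdsWithin σ {σ}ᶜ) (nhds v') :=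
      hasDerivAt_iff_tendsto_slope.1 hv
    have hc : Filter.Tendsto (fun τ : ℝ => U (-τ) v') (nhdsWithin σ {σ}ᶜ) (nhds (U (-σ) v')) := by
      have : Continuous fun τ : ℝ => U (-τ) v' := (hU.cont v').comp continuous_neg
      exact (this.tendsto σ).mono_left nhdsWithin_le_nhds
    have hd : Filter.Tendsto (fun τ : ℝ => U (-τ) (slope v σ τ - v')) (nhdsWithin σ {σ}ᶜ)
        (nhds 0) := by
      rw [tendsto_zero_iff_norm_tendsto_zero]
      have h3 : Filter.Tendsto (fun τ : ℝ => ‖slope v σ τ - v'‖) (nhdsWithin σ {σ}ᶜ) (nhds 0) := by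
        have h4 := (hs.sub_const v').norm
        rwa [sub_self, norm_zero] at h4
      refine h3.congr fun τ => ?_
      rw [hU.norm]
    have h5 := hd.add hc
    rw [zero_add] at h5
    refine h5.congr fun τ => ?_
    rw [← map_add, sub_add_cancel]
    show U (-τ) (slope v σ τ) = slope (fun τ : ℝ => U (-τ) (v τ - v σ)) σ τ
    simp only [slope, vsub_eq_sub, sub_self, map_zero, sub_zero]
    rw [show ((τ - σ)⁻¹ • (v τ - v σ) : H) = (((τ - σ)⁻¹ : ℝ) : ℂ) • (v τ - v σ) from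
      (Complex.coe_smul _ _).symm, map_smul, Complex.coe_smul]
  have h6 := h1.add h2
  have h7 : U (-σ) v' + -(U (-σ) w) = U (-σ) (v' - w) := by rw [map_sub, sub_eq_add_neg]
  rw [h7] at h6
  refine h6.congr_of_eventuallyEq (Filter.Eventually.of_forall fun τ => ?_)
  show U (-τ) (v τ) = U (-τ) (v τ - v σ) + U (-τ) (v σ)
  rw [← map_add, sub_add_cancel]

/-- Abstract Egorov lemma.  `G k = d/dt U(t) b_k` at `0`, `v σ k`, `v' σ k` its derivative in `σ`,
`w σ k = d/dt U(t) v(σ,k)` at `0`, and `A_σ = finOp b K (v σ)`.  For `F(σ) = U(-σ) A_σ U(σ)` one has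
`F'(σ) = U(-σ) T_σ U(σ)` with
`T_σ b_l = ∑_{k ∈ K} ⟨b_k, G_l⟩ v(σ,k) + [l ∈ K] (v'(σ,l) - w(σ,l))`. -/
theorem egorov_abs (b : HilbertBasis ι ℂ H) {U : ℝ → H →L[ℂ] H} (hU : IsUnitaryGroup U)
    {G : ι → H} (hG : ∀ k, HasDerivAt (fun t => U t (b k)) (G k) 0)
    (K : Finset ι) {t : ℝ} (ht : 0 ≤ t) (v v' w : ℝ → ι → H)
    (hv : ∀ σ ∈ Set.Icc 0 t, ∀ k ∈ K, HasDerivAt (fun τ => v τ k) (v' σ k) σ)
    (hw : ∀ σ ∈ Set.Icc 0 t, ∀ k ∈ K, HasDerivAt (fun τ => U τ (v σ k)) (w σ k) 0)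
    (M : ℝ) (hM : 0 ≤ M)
    (hMT : ∀ σ ∈ Set.Icc 0 t, ∑' l, ‖(∑ k ∈ K, (inner ℂ (b k) (G l) : ℂ) • v σ k)
      + (open Classical in if l ∈ K then v' σ l - w σ l else 0)‖ₑ ^ 2 ≤ ENNReal.ofReal M) :
    hs b ((U (-t)).comp ((finOp b K (v t)).comp (U t)) - finOp b K (v 0))
      ≤ ENNReal.ofReal (t ^ 2 * M) := by
  classical
  -- the operator `T_σ`
  let T : ℝ → H →L[ℂ] H := fun σ =>
    ∑ k ∈ K, ((innerSL ℂ (b k)).smulRight (v' σ k - w σ k) - (innerSL ℂ (G k)).smulRight (v σ k))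
  have hTapply : ∀ σ u, T σ u = ∑ k ∈ K, ((inner ℂ (b k) u : ℂ) • (v' σ k - w σ k)
      - (inner ℂ (G k) u : ℂ) • v σ k) := by
    intro σ u
    simp [T]
  have hTb : ∀ σ l, T σ (b l) = (∑ k ∈ K, (inner ℂ (b k) (G l) : ℂ) • v σ k)
      + (if l ∈ K then v' σ l - w σ l else 0) := by
    intro σ l
    rw [hTapply, Finset.sum_sub_distrib, sub_eq_add_neg, add_comm, ← Finset.sum_neg_distrib]
    congr 1
    · refine Finset.sum_congr rfl fun k _ => ?_
      rw [generator_skew hU (hG k) (hG l), neg_smul]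
    · have hb : ∀ k, (inner ℂ (b k) (b l) : ℂ) = if k = l then 1 else 0 := by
        intro k
        exact orthonormal_iff_ite.1 b.orthonormal k l
      simp only [hb, ite_smul, one_smul, zero_smul]
      rw [Finset.sum_ite_eq' K l]
  have hTM : ∀ σ ∈ Set.Icc 0 t, hs b (T σ) ≤ ENNReal.ofReal M := by
    intro σ hσ
    have h1 := hMT σ hσ
    unfold hs
    refine le_trans (le_of_eq ?_) h1
    refine tsum_congr fun l => ?_
    rw [hTb]
  -- the derivative of `F(σ) b_l`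
  let F : ℝ → H →L[ℂ] H := fun σ => (U (-σ)).comp ((finOp b K (v σ)).comp (U σ))
  let D : ℝ → H →L[ℂ] H := fun σ => (U (-σ)).comp ((T σ).comp (U σ))
  have hFD : ∀ σ ∈ Set.Icc 0 t, ∀ l, HasDerivAt (fun τ => F τ (b l)) (D σ (b l)) σ := by
    intro σ hσ l
    have h1 : ∀ k ∈ K, HasDerivAt (fun τ : ℝ => (inner ℂ (b k) (U τ (b l)) : ℂ) •
        U (-τ) (v τ k)) ((inner ℂ (b k) (U σ (b l)) : ℂ) • U (-σ) (v' σ k - w σ k)
          + (-(inner ℂ (G k) (U σ (b l)) : ℂ)) • U (-σ) (v σ k)) σ := by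
      intro k hk
      have h2 : HasDerivAt (fun τ : ℝ => (inner ℂ (b k) (U τ (b l)) : ℂ))
          (-(inner ℂ (G k) (U σ (b l)) : ℂ)) σ := by
        have h3 := HasDerivAt.inner ℂ (hasDerivAt_const σ (b k)) (group_hasDerivAt hU (hG l) σ)
        have h4 : (inner ℂ (b k) (U σ (G l)) : ℂ) = -(inner ℂ (G k) (U σ (b l)) : ℂ) :=
          generator_skew hU (hG k) (group_dom_invariant hU (hG l) σ)
        rw [inner_zero_left, add_zero, h4] at h3
        exact h3
      exact h2.smul (group_neg_hasDerivAt hU (hv σ hσ k hk) (hw σ hσ k hk))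
    have h5 := HasDerivAt.fun_sum h1
    have h6 : (∑ k ∈ K, ((inner ℂ (b k) (U σ (b l)) : ℂ) • U (-σ) (v' σ k - w σ k)
          + (-(inner ℂ (G k) (U σ (b l)) : ℂ)) • U (-σ) (v σ k))) = D σ (b l) := by
      show _ = U (-σ) (T σ (U σ (b l)))
      rw [hTapply, map_sum]
      refine Finset.sum_congr rfl fun k _ => ?_
      rw [map_sub (U (-σ)) ((inner ℂ (b k) (U σ (b l)) : ℂ) • (v' σ k - w σ k)), map_smul,
        map_smul, neg_smul, ← sub_eq_add_neg]
    rw [h6] at h5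
    refine h5.congr_of_eventuallyEq (Filter.Eventually.of_forall fun τ => ?_)
    show U (-τ) (finOp b K (v τ) (U τ (b l))) = _
    rw [finOp_apply, map_sum]
    refine Finset.sum_congr rfl fun k _ => ?_
    rw [map_smul]
  have hDM : ∀ σ ∈ Set.Icc 0 t, hs b (D σ) ≤ ENNReal.ofReal M := by
    intro σ hσ
    have h1 : hs b (D σ) = hs b ((T σ).comp (U σ)) :=
      hs_comp_left b ((T σ).comp (U σ)) (U (-σ)) (hU.norm (-σ))
    have h2 : hs b ((T σ).comp (U σ)) = hs b (T σ) :=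
      hs_comp_right b (T σ) (U σ) (U (-σ)) (hU.norm σ) (group_inv_right hU σ)
        (group_inv_left hU σ)
    rw [h1, h2]
    exact hTM σ hσ
  have hF0 : F 0 = finOp b K (v 0) := by
    show (U (-0)).comp ((finOp b K (v 0)).comp (U 0)) = _
    rw [neg_zero, hU.zero]
    rfl
  rw [← hF0]
  show hs b (F t - F 0) ≤ _
  -- finite sums
  unfold hs
  rw [ENNReal.tsum_eq_iSup_sum]
  refine iSup_le fun S => ?_
  let g : ι → H := fun l => F t (b l) - F 0 (b l)
  let N : ℝ := ∑ l ∈ S, ‖g l‖ ^ 2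
  have hN0 : 0 ≤ N := Finset.sum_nonneg fun l _ => by positivity
  have hsumD : ∀ σ ∈ Set.Icc 0 t, ∑ l ∈ S, ‖D σ (b l)‖ ^ 2 ≤ M := by
    intro σ hσ
    have h1 : ∑ l ∈ S, ‖D σ (b l)‖ₑ ^ 2 ≤ ENNReal.ofReal M :=
      le_trans (ENNReal.sum_le_tsum S) (hDM σ hσ)
    have h2 : ∑ l ∈ S, ‖D σ (b l)‖ₑ ^ 2 = ENNReal.ofReal (∑ l ∈ S, ‖D σ (b l)‖ ^ 2) := by
      rw [ENNReal.ofReal_sum_of_nonneg fun l _ => by positivity]
      refine Finset.sum_congr rfl fun l _ => ?_
      rw [← ofReal_norm, ENNReal.ofReal_pow (norm_nonneg _)]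
    rw [h2] at h1
    exact (ENNReal.ofReal_le_ofReal_iff hM).1 h1
  have key : N ≤ t ^ 2 * M := by
    let φ : ℝ → ℝ := fun σ => ∑ l ∈ S, (inner ℂ (g l) (F σ (b l)) : ℂ).re
    let φ' : ℝ → ℝ := fun σ => ∑ l ∈ S, (inner ℂ (g l) (D σ (b l)) : ℂ).re
    have hφ : ∀ σ ∈ Set.Icc 0 t, HasDerivAt φ (φ' σ) σ := by
      intro σ hσ
      refine HasDerivAt.fun_sum fun l _ => ?_
      have h3 := HasDerivAt.inner ℂ (hasDerivAt_const σ (g l)) (hFD σ hσ l)
      rw [inner_zero_left, add_zero] at h3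
      have h4 := Complex.reCLM.hasFDerivAt.comp_hasDerivAt σ h3
      simpa [Function.comp_def] using h4
    have hφ' : ∀ σ ∈ Set.Icc 0 t, ‖φ' σ‖ ≤ Real.sqrt N * Real.sqrt M := by
      intro σ hσ
      calc ‖φ' σ‖ ≤ ∑ l ∈ S, ‖(inner ℂ (g l) (D σ (b l)) : ℂ).re‖ := norm_sum_le _ _
        _ ≤ ∑ l ∈ S, ‖g l‖ * ‖D σ (b l)‖ := by
            refine Finset.sum_le_sum fun l _ => ?_
            calc ‖(inner ℂ (g l) (D σ (b l)) : ℂ).re‖ ≤ ‖(inner ℂ (g l) (D σ (b l)) : ℂ)‖ := by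
                  rw [Real.norm_eq_abs]; exact Complex.abs_re_le_norm _
              _ ≤ _ := norm_inner_le_norm _ _
        _ ≤ Real.sqrt (∑ l ∈ S, ‖g l‖ ^ 2) * Real.sqrt (∑ l ∈ S, ‖D σ (b l)‖ ^ 2) :=
            Real.sum_mul_le_sqrt_mul_sqrt S _ _
        _ ≤ Real.sqrt N * Real.sqrt M := by
            refine mul_le_mul_of_nonneg_left ?_ (Real.sqrt_nonneg _)
            exact Real.sqrt_le_sqrt (hsumD σ hσ)
    have h7 := norm_image_sub_le_of_norm_deriv_le_segment' (f := φ) (f' := φ') (a := 0) (b := t)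
      (C := Real.sqrt N * Real.sqrt M) (fun σ hσ => (hφ σ hσ).hasDerivWithinAt)
      (fun σ hσ => hφ' σ ⟨hσ.1, hσ.2.le⟩) t ⟨ht, le_refl t⟩
    have h8 : φ t - φ 0 = N := by
      show (∑ l ∈ S, (inner ℂ (g l) (F t (b l)) : ℂ).re) -
        (∑ l ∈ S, (inner ℂ (g l) (F 0 (b l)) : ℂ).re) = ∑ l ∈ S, ‖g l‖ ^ 2
      rw [← Finset.sum_sub_distrib]
      refine Finset.sum_congr rfl fun l _ => ?_
      rw [← Complex.sub_re, ← inner_sub_right]
      show (inner ℂ (g l) (g l) : ℂ).re = _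
      rw [inner_self_eq_norm_sq_to_K]
      norm_cast
    rw [h8, sub_zero, Real.norm_eq_abs, abs_of_nonneg hN0] at h7
    -- `N ≤ √N √M t`
    have h9 : Real.sqrt N * Real.sqrt N = N := Real.mul_self_sqrt hN0
    have h10 : Real.sqrt M * Real.sqrt M = M := Real.mul_self_sqrt hM
    by_cases hz : Real.sqrt N = 0
    · have : N = 0 := by rw [← h9, hz, zero_mul]
      rw [this]
      positivity
    · have hpos : 0 < Real.sqrt N := lt_of_le_of_ne (Real.sqrt_nonneg _) (Ne.symm hz)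
      have h11 : Real.sqrt N ≤ Real.sqrt M * t := by
        have : Real.sqrt N * Real.sqrt N ≤ Real.sqrt N * (Real.sqrt M * t) := by
          rw [h9]; linarith [h7]
        exact le_of_mul_le_mul_left this hpos
      calc N = Real.sqrt N * Real.sqrt N := h9.symm
        _ ≤ (Real.sqrt M * t) * (Real.sqrt M * t) :=
            mul_le_mul h11 h11 (Real.sqrt_nonneg _) (by positivity)
        _ = t ^ 2 * (Real.sqrt M * Real.sqrt M) := by ring
        _ = t ^ 2 * M := by rw [h10]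
  have h12 : ∑ l ∈ S, ‖(F t - F 0) (b l)‖ₑ ^ 2 = ENNReal.ofReal N := by
    show _ = ENNReal.ofReal (∑ l ∈ S, ‖g l‖ ^ 2)
    rw [ENNReal.ofReal_sum_of_nonneg fun l _ => by positivity]
    refine Finset.sum_congr rfl fun l _ => ?_
    rw [← ofReal_norm, ENNReal.ofReal_pow (norm_nonneg _)]
    rfl
  rw [h12]
  exact ENNReal.ofReal_le_ofReal key

/-- a norm convergent series in the domain of the generator -/
theorem generator_tsum {U : ℝ → H →L[ℂ] H} (hU : IsUnitaryGroup U) {κ : Type*} {c : κ → ℂ}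
    {f g : κ → H} (hf : ∀ k, HasDerivAt (fun t => U t (f k)) (g k) 0)
    (hc : Summable fun k => ‖c k‖ * ‖f k‖) (hcg : Summable fun k => ‖c k‖ * ‖g k‖) :
    HasDerivAt (fun t => U t (∑' k, c k • f k)) (∑' k, c k • g k) 0 := by
  have hsf : Summable fun k => c k • f k := by
    refine Summable.of_norm ?_
    simpa only [norm_smul] using hc
  have h1 : ∀ k (y : ℝ), HasDerivAt (fun t : ℝ => c k • U t (f k)) (c k • U y (g k)) y :=
    fun k y => (group_hasDerivAt hU (hf k) y).const_smul (c k)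
  have h2 := hasDerivAt_tsum (𝕜 := ℝ) (g := fun k t => c k • U t (f k))
    (g' := fun k y => c k • U y (g k)) (u := fun k => ‖c k‖ * ‖g k‖) hcg h1
    (fun k y => by rw [norm_smul, hU.norm])
    (y₀ := 0) (by simpa [hU.zero] using hsf) 0
  have h3 : (∑' k, c k • U 0 (g k)) = ∑' k, c k • g k := by simp [hU.zero]
  rw [h3] at h2
  refine h2.congr_of_eventuallyEq (Filter.Eventually.of_forall fun t => ?_)
  show U t (∑' k, c k • f k) = ∑' k, c k • U t (f k)
  rw [(U t).map_tsum hsf]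
  refine tsum_congr fun k => ?_
  rw [map_smul]

end Pool.Agent.H56.Q
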