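import Pool.Agent.H56.Q.Four

/-! Module L: lattice sums. -/

set_option autoImplicit false

open MeasureTheory Complex
open scoped ContDiff ENNReal

noncomputable section

namespace Pool.Agent.H56.Q

theorem low_sum_nat {ε : ℝ} (hε : 0 < ε) (N : ℕ) :
    ∑ n ∈ Finset.range N, ((1 + ε * ((n : ℝ) + 1)) ^ 2)⁻¹ ≤ 1 / ε := by
  have key : ∀ N : ℕ, ∑ n ∈ Finset.range N, ((1 + ε * ((n : ℝ) + 1)) ^ 2)⁻¹
      ≤ 1 / ε - 1 / (ε * (1 + ε * N)) := by
    intro N
    induction N with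
    | zero => simp
    | succ N ih =>
      rw [Finset.sum_range_succ]
      have h1 : 0 < 1 + ε * (N : ℝ) := by positivity
      have h2 : 0 < 1 + ε * ((N : ℝ) + 1) := by positivity
      have h3 : ((1 + ε * ((N : ℝ) + 1)) ^ 2)⁻¹
          ≤ 1 / (ε * (1 + ε * N)) - 1 / (ε * (1 + ε * ((N : ℝ) + 1))) := by
        rw [div_sub_div _ _ (by positivity) (by positivity), inv_eq_one_div,
          div_le_div_iff₀ (by positivity) (by positivity)]
        have h4 : 1 * (ε * (1 + ε * ((N : ℝ) + 1))) - ε * (1 + ε * N) * 1 = ε ^ 2 := by ring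
        rw [h4]
        have h5 : ε * (1 + ε * (N : ℝ)) * (ε * (1 + ε * ((N : ℝ) + 1)))
            = ε ^ 2 * ((1 + ε * (N : ℝ)) * (1 + ε * ((N : ℝ) + 1))) := by ring
        rw [h5, one_mul]
        apply mul_le_mul_of_nonneg_left _ (by positivity)
        rw [pow_two]
        apply mul_le_mul_of_nonneg_right _ h2.le
        nlinarith
      push_cast
      linarith
  refine (key N).trans ?_
  have : 0 ≤ 1 / (ε * (1 + ε * (N : ℝ))) := by positivity
  linarith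

theorem low_sum_int {ε : ℝ} (hε : 0 < ε) (h1 : ε ≤ 1) :
    ∑' n : ℤ, ENNReal.ofReal (((1 + ε * |(n : ℝ)|) ^ 2)⁻¹) ≤ ENNReal.ofReal (3 / ε) := by
  set f : ℤ → ℝ≥0∞ := fun n => ENNReal.ofReal (((1 + ε * |(n : ℝ)|) ^ 2)⁻¹) with hf
  have hB : ∑' n : ℕ, ENNReal.ofReal (((1 + ε * ((n : ℝ) + 1)) ^ 2)⁻¹)
      ≤ ENNReal.ofReal (1 / ε) := by
    rw [ENNReal.tsum_eq_iSup_nat]
    apply iSup_le
    intro N
    rw [← ENNReal.ofReal_sum_of_nonneg (fun _ _ => by positivity)]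
    exact ENNReal.ofReal_le_ofReal (low_sum_nat hε N)
  have hsplit : ∑' n : ℤ, f n = ∑' n : ℕ, f n + ∑' n : ℕ, f (-(n + 1 : ℤ)) :=
    tsum_of_nat_of_neg_add_one ENNReal.summable ENNReal.summable
  have hneg : ∀ n : ℕ, f (-(n + 1 : ℤ)) = ENNReal.ofReal (((1 + ε * ((n : ℝ) + 1)) ^ 2)⁻¹) := by
    intro n
    simp only [hf]
    congr 5
    push_cast
    rw [abs_neg]
    exact abs_of_nonneg (by positivity)
  have hpos : ∑' n : ℕ, f n = f 0 + ∑' n : ℕ, f ((n + 1 : ℕ) : ℤ) := by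
    rw [tsum_eq_zero_add' (f := fun n : ℕ => f n) ENNReal.summable]
    simp
  have hpos' : ∀ n : ℕ, f ((n + 1 : ℕ) : ℤ) = ENNReal.ofReal (((1 + ε * ((n : ℝ) + 1)) ^ 2)⁻¹) := by
    intro n
    simp only [hf]
    congr 5
    push_cast
    exact abs_of_nonneg (by positivity)
  have h0 : f 0 = ENNReal.ofReal 1 := by simp [hf]
  rw [hsplit, hpos]
  simp only [hneg, hpos', h0]
  calc ENNReal.ofReal 1 + ∑' n : ℕ, ENNReal.ofReal (((1 + ε * ((n : ℝ) + 1)) ^ 2)⁻¹)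
        + ∑' n : ℕ, ENNReal.ofReal (((1 + ε * ((n : ℝ) + 1)) ^ 2)⁻¹)
      ≤ ENNReal.ofReal (1 / ε) + ENNReal.ofReal (1 / ε) + ENNReal.ofReal (1 / ε) := by
        refine add_le_add (add_le_add (ENNReal.ofReal_le_ofReal ?_) hB) hB
        rw [le_div_iff₀ hε]
        linarith
    _ = ENNReal.ofReal (3 / ε) := by
        rw [← ENNReal.ofReal_add (by positivity) (by positivity),
          ← ENNReal.ofReal_add (by positivity) (by positivity)]
        congr 1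
        ring

/-- `∑_l (1 + ‖2πħl‖)^(-4) ≤ C ħ^(-2)` for `0 < ħ ≤ 1`
(`(1+‖ξ‖)^4 ≥ (1+|ξ_0|)^2 (1+|ξ_1|)^2`, and `∑_{n ∈ ℤ} (1 + ε|n|)^(-2) ≤ C/ε` for `ε ≤ 2π`). -/
theorem lattice_sum : ∃ C : ℝ, 0 ≤ C ∧ ∀ ħ : ℝ, 0 < ħ → ħ ≤ 1 →
    ∑' l : Fin 2 → ℤ, ENNReal.ofReal (((1 + ‖freq ħ l‖) ^ 4)⁻¹) ≤ ENNReal.ofReal (C / ħ ^ 2) := by
  refine ⟨9, by norm_num, fun ħ hħ hħ1 => ?_⟩
  have hpi : (1 : ℝ) ≤ 2 * Real.pi := by linarith [Real.pi_gt_three]
  have hcoord : ∀ (l : Fin 2 → ℤ) (i : Fin 2), ħ * |(l i : ℝ)| ≤ ‖freq ħ l‖ := by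
    intro l i
    have h1 : ‖freq ħ l i‖ ≤ ‖freq ħ l‖ := norm_le_pi_norm (freq ħ l) i
    refine le_trans ?_ h1
    rw [freq, Real.norm_eq_abs, abs_mul, abs_of_pos (by positivity : 0 < 2 * Real.pi * ħ)]
    nlinarith [mul_nonneg hħ.le (abs_nonneg (l i : ℝ))]
  have hle : ∀ l : Fin 2 → ℤ, ENNReal.ofReal (((1 + ‖freq ħ l‖) ^ 4)⁻¹)
      ≤ ENNReal.ofReal (((1 + ħ * |(l 0 : ℝ)|) ^ 2)⁻¹)
        * ENNReal.ofReal (((1 + ħ * |(l 1 : ℝ)|) ^ 2)⁻¹) := by
    intro l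
    rw [← ENNReal.ofReal_mul (by positivity)]
    apply ENNReal.ofReal_le_ofReal
    rw [← mul_inv]
    apply inv_anti₀ (by positivity)
    have h0 := hcoord l 0
    have h1 := hcoord l 1
    have e : (1 + ‖freq ħ l‖) ^ 4 = (1 + ‖freq ħ l‖) ^ 2 * (1 + ‖freq ħ l‖) ^ 2 := by ring
    rw [e]
    apply mul_le_mul
    · apply pow_le_pow_left₀ (by positivity); linarith
    · apply pow_le_pow_left₀ (by positivity); linarith
    · positivity
    · positivity
  have hprod : ∑' l : Fin 2 → ℤ, ENNReal.ofReal (((1 + ħ * |(l 0 : ℝ)|) ^ 2)⁻¹)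
        * ENNReal.ofReal (((1 + ħ * |(l 1 : ℝ)|) ^ 2)⁻¹)
      = (∑' n : ℤ, ENNReal.ofReal (((1 + ħ * |(n : ℝ)|) ^ 2)⁻¹))
        * ∑' n : ℤ, ENNReal.ofReal (((1 + ħ * |(n : ℝ)|) ^ 2)⁻¹) := by
    rw [← (finTwoArrowEquiv ℤ).symm.tsum_eq, ENNReal.tsum_prod']
    simp only [finTwoArrowEquiv_symm_apply, Matrix.cons_val_zero, Matrix.cons_val_one]
    rw [← ENNReal.tsum_mul_right]
    apply tsum_congr
    intro a
    rw [← ENNReal.tsum_mul_left]
  calc ∑' l : Fin 2 → ℤ, ENNReal.ofReal (((1 + ‖freq ħ l‖) ^ 4)⁻¹)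
      ≤ ∑' l : Fin 2 → ℤ, ENNReal.ofReal (((1 + ħ * |(l 0 : ℝ)|) ^ 2)⁻¹)
        * ENNReal.ofReal (((1 + ħ * |(l 1 : ℝ)|) ^ 2)⁻¹) := ENNReal.tsum_le_tsum hle
    _ ≤ ENNReal.ofReal (3 / ħ) * ENNReal.ofReal (3 / ħ) := by
        rw [hprod]
        exact mul_le_mul' (low_sum_int hħ hħ1) (low_sum_int hħ hħ1)
    _ = ENNReal.ofReal (9 / ħ ^ 2) := by
        rw [← ENNReal.ofReal_mul (by positivity)]
        congr 1
        field_simp
        norm_num

/-- number of integers in an open interval -/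
theorem low_card (a L : ℝ) (hL : 1 ≤ L) : ∃ S : Finset ℤ, (∀ n ∈ S, a < n ∧ (n : ℝ) < a + 2 * L) ∧
    L / 2 ≤ (S.card : ℝ) := by
  refine ⟨Finset.Ioo ⌊a⌋ ⌈a + 2 * L⌉, ?_, ?_⟩
  · intro n hn
    rw [Finset.mem_Ioo] at hn
    refine ⟨Int.floor_lt.mp hn.1, Int.lt_ceil.mp hn.2⟩
  · rw [Int.card_Ioo]
    have h1 := Int.floor_le a
    have h2 := Int.le_ceil (a + 2 * L)
    have h3 : (((⌈a + 2 * L⌉ - ⌊a⌋ - 1 : ℤ)) : ℝ) ≤ (((⌈a + 2 * L⌉ - ⌊a⌋ - 1).toNat : ℕ) : ℝ) := by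
      exact_mod_cast Int.self_le_toNat _
    push_cast at h3
    linarith

/-- lower bound for the Hilbert-Schmidt norm of an operator whose symbol does not vanish
identically: at least `c ħ^(-2)` of the frequencies `2πħk` lie near `ξ0`. -/
theorem lower_bound {d : T2 → E → ℂ} (hd : Continuous fun z : E × E => d (proj z.1) z.2)
    {x0 ξ0 : E} (h : d (proj x0) ξ0 ≠ 0) : ∃ c : ℝ, 0 < c ∧ ∃ ħ1 : ℝ, 0 < ħ1 ∧
    ∀ ħ : ℝ, 0 < ħ → ħ ≤ ħ1 →
      ENNReal.ofReal (c / ħ ^ 2) ≤ ∑' k, ‖cls (fun x => d x (freq ħ k) * ek k x)‖ₑ ^ 2 := by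
  -- a neighbourhood on which `d` is bounded below
  set m : ℝ := ‖d (proj x0) ξ0‖ / 2 with hm
  have hnorm : 0 < ‖d (proj x0) ξ0‖ := norm_pos_iff.mpr h
  have hmpos : 0 < m := by positivity
  have hopen : IsOpen {z : E × E | m < ‖d (proj z.1) z.2‖} :=
    isOpen_lt continuous_const hd.norm
  have hmem : (x0, ξ0) ∈ {z : E × E | m < ‖d (proj z.1) z.2‖} := by
    simp only [Set.mem_ofPred_eq, hm]
    linarith
  obtain ⟨U, V, hU, hV, hxU, hξV, hUV⟩ := isOpen_prod_iff.mp hopen x0 ξ0 hmem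
  obtain ⟨r, hr, hrV⟩ := Metric.isOpen_iff.mp hV ξ0 hξV
  -- measure of the projected neighbourhood
  have hWopen : IsOpen (proj '' U) := by
    have hop : IsOpenMap proj := by
      have : proj = Pi.map (fun _ : Fin 2 => ((↑) : ℝ → UnitAddCircle)) := rfl
      rw [this]
      exact IsOpenMap.piMap (fun _ => QuotientAddGroup.isOpenMap_coe)
        (Filter.Eventually.of_forall (fun _ => QuotientAddGroup.mk_surjective))
    exact hop U hU
  have hWpos : 0 < muT (proj '' U) := hWopen.measure_pos muT ⟨proj x0, x0, hxU, rfl⟩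
  have hWfin : muT (proj '' U) ≠ ⊤ := measure_ne_top _ _
  set w : ℝ := (muT (proj '' U)).toReal with hw
  have hwpos : 0 < w := ENNReal.toReal_pos hWpos.ne' hWfin
  -- bound of a single term
  have hterm : ∀ (ħ : ℝ) (k : Fin 2 → ℤ), freq ħ k ∈ V →
      ENNReal.ofReal (m ^ 2 * w) ≤ ‖cls (fun x => d x (freq ħ k) * ek k x)‖ₑ ^ 2 := by
    intro ħ k hk
    have hcont : Continuous (fun x : T2 => d x (freq ħ k) * ek k x) := by
      apply Continuous.mul _ (continuous_ek k)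
      exact continuous_of_lift (hd.comp (continuous_id.prodMk continuous_const))
    have hsq := norm_cls_sq hcont
    have hint : Integrable (fun x : T2 => ‖d x (freq ħ k) * ek k x‖ ^ 2) muT := by
      apply Continuous.integrable_of_hasCompactSupport (hcont.norm.pow 2)
      exact HasCompactSupport.of_compactSpace _
    have hlow : m ^ 2 * w ≤ ∫ x, ‖d x (freq ħ k) * ek k x‖ ^ 2 ∂muT := by
      have h1 : ∫ x, (proj '' U).indicator (fun _ => m ^ 2) x ∂muT = m ^ 2 * w := by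
        rw [integral_indicator hWopen.measurableSet, setIntegral_const, smul_eq_mul, mul_comm]
        rfl
      rw [← h1]
      apply integral_mono _ hint
      · intro x
        by_cases hx : x ∈ proj '' U
        · rw [Set.indicator_of_mem hx]
          obtain ⟨y, hy, rfl⟩ := hx
          have h2 : m < ‖d (proj y) (freq ħ k)‖ := hUV (Set.mk_mem_prod hy hk)
          simp only [norm_mul, norm_ek, mul_one]
          exact pow_le_pow_left₀ hmpos.le h2.le 2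
        · rw [Set.indicator_of_notMem hx]
          positivity
      · exact (integrable_const _).indicator hWopen.measurableSet
    rw [← hsq] at hlow
    have h3 : ‖cls (fun x => d x (freq ħ k) * ek k x)‖ₑ ^ 2
        = ENNReal.ofReal (‖cls (fun x => d x (freq ħ k) * ek k x)‖ ^ 2) := by
      rw [← ofReal_norm, ENNReal.ofReal_pow (norm_nonneg _)]
    rw [h3]
    exact ENNReal.ofReal_le_ofReal hlow
  -- counting
  have hpi := Real.pi_pos
  refine ⟨m ^ 2 * w * (r / (4 * Real.pi)) ^ 2, by positivity, r / (2 * Real.pi), by positivity,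
    fun ħ hħ hħ1 => ?_⟩
  set L : ℝ := r / (2 * Real.pi * ħ) with hL
  have hL1 : 1 ≤ L := by
    rw [hL, le_div_iff₀ (by positivity)]
    rw [le_div_iff₀ (by positivity)] at hħ1
    linarith
  obtain ⟨S0, hS0, hc0⟩ := low_card (ξ0 0 / (2 * Real.pi * ħ) - L) L hL1
  obtain ⟨S1, hS1, hc1⟩ := low_card (ξ0 1 / (2 * Real.pi * ħ) - L) L hL1
  set F : Finset (Fin 2 → ℤ) := (S0 ×ˢ S1).map (finTwoArrowEquiv ℤ).symm.toEmbedding with hF
  have hFmem : ∀ k ∈ F, freq ħ k ∈ V := by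
    intro k hk
    rw [hF, Finset.mem_map] at hk
    obtain ⟨⟨a, b⟩, hab, rfl⟩ := hk
    rw [Finset.mem_product] at hab
    apply hrV
    rw [Metric.mem_ball, dist_pi_lt_iff hr]
    have hpos : 0 < 2 * Real.pi * ħ := by positivity
    have hLr : 2 * Real.pi * ħ * L = r := by rw [hL]; field_simp
    have key : ∀ (t : ℝ) (n : ℤ), t / (2 * Real.pi * ħ) - L < n →
        (n : ℝ) < t / (2 * Real.pi * ħ) - L + 2 * L → dist (2 * Real.pi * ħ * (n : ℝ)) t < r := by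
      intro t n h1 h2
      have e : 2 * Real.pi * ħ * (t / (2 * Real.pi * ħ)) = t := by field_simp
      have h1' := mul_lt_mul_of_pos_left h1 hpos
      have h2' := mul_lt_mul_of_pos_left h2 hpos
      rw [mul_sub, e, hLr] at h1'
      have e2 : 2 * Real.pi * ħ * (t / (2 * Real.pi * ħ) - L + 2 * L)
          = 2 * Real.pi * ħ * (t / (2 * Real.pi * ħ)) + 2 * Real.pi * ħ * L := by ring
      rw [e2, e, hLr] at h2'
      rw [Real.dist_eq, abs_lt]
      constructor <;> linarith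
    intro i
    fin_cases i
    · simpa [freq] using key (ξ0 0) a (hS0 a hab.1).1 (hS0 a hab.1).2
    · simpa [freq] using key (ξ0 1) b (hS1 b hab.2).1 (hS1 b hab.2).2
  have hcard : (F.card : ℝ) = S0.card * S1.card := by
    rw [hF, Finset.card_map, Finset.card_product]; push_cast; ring
  have hcard' : (L / 2) ^ 2 ≤ (F.card : ℝ) := by
    rw [hcard, pow_two]
    exact mul_le_mul hc0 hc1 (by positivity) (by positivity)
  calc ENNReal.ofReal (m ^ 2 * w * (r / (4 * Real.pi)) ^ 2 / ħ ^ 2)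
      ≤ ENNReal.ofReal (F.card * (m ^ 2 * w)) := by
        apply ENNReal.ofReal_le_ofReal
        have e : m ^ 2 * w * (r / (4 * Real.pi)) ^ 2 / ħ ^ 2 = (L / 2) ^ 2 * (m ^ 2 * w) := by
          rw [hL]; field_simp; ring
        rw [e]
        exact mul_le_mul_of_nonneg_right hcard' (by positivity)
    _ = ∑ _k ∈ F, ENNReal.ofReal (m ^ 2 * w) := by
        rw [Finset.sum_const, nsmul_eq_mul, ENNReal.ofReal_mul (by positivity),
          ENNReal.ofReal_natCast]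
    _ ≤ ∑ k ∈ F, ‖cls (fun x => d x (freq ħ k) * ek k x)‖ₑ ^ 2 :=
        Finset.sum_le_sum (fun k hk => hterm ħ k (hFmem k hk))
    _ ≤ ∑' k, ‖cls (fun x => d x (freq ħ k) * ek k x)‖ₑ ^ 2 := ENNReal.sum_le_tsum F

end Pool.Agent.H56.Q
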