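import Pool.Agent.H56.Q.Com
import Pool.Agent.H56.Q.Hil
import Pool.Agent.H56.Q.Low

/-! Egorov's theorem on the torus in Hilbert-Schmidt norm. -/

set_option autoImplicit false

open MeasureTheory Complex
open scoped ContDiff ENNReal

noncomputable section

namespace Pool.Agent.H56.Q

variable {R : ℝ} {a a' : ℝ → T2 → E → ℂ} {m ħ0 : ℝ} {b : ℝ → T2 → E → ℂ} {p : T2 → E → ℂ}

theorem freq_add (ħ : ℝ) (k n : Fin 2 → ℤ) : freq ħ (k + n) = freq ħ k + freq ħ n := by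
  ext i; simp [freq]; ring

theorem one_add_freq_le {ħ : ℝ} (h0 : 0 < ħ) (h1 : ħ ≤ 1) (n : Fin 2 → ℤ) :
    1 + ‖freq ħ n‖ ≤ 7 * wt n := by
  have hpi : 2 * Real.pi ≤ 7 := by
    have := Real.pi_lt_d2; linarith
  have hpi0 := Real.pi_pos
  have key : ∀ i, 1 + |freq ħ n i| ≤ 7 * (1 + |(n i : ℝ)|) := by
    intro i
    have : |freq ħ n i| = 2 * Real.pi * ħ * |(n i : ℝ)| := by
      simp only [freq, abs_mul, abs_of_pos hpi0, abs_of_pos h0, abs_two]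
    rw [this]
    have h3 : 2 * Real.pi * ħ ≤ 7 := by nlinarith
    nlinarith [abs_nonneg (n i : ℝ), mul_le_mul_of_nonneg_right h3 (abs_nonneg (n i : ℝ))]
  have hw : ∀ i, 1 + |(n i : ℝ)| ≤ wt n := by
    intro i
    have h0' := abs_nonneg (n 0 : ℝ)
    have h1' := abs_nonneg (n 1 : ℝ)
    fin_cases i
    · simp only [wt, Fin.zero_eta, Fin.isValue]; nlinarith
    · simp only [wt, Fin.mk_one, Fin.isValue]; nlinarith
  have hn : ‖freq ħ n‖ ≤ 7 * wt n - 1 := by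
    rw [pi_norm_le_iff_of_nonneg]
    · intro i
      rw [Real.norm_eq_abs]
      linarith [key i, hw i]
    · linarith [one_le_wt n]
  linarith

theorem nice_cont (ha : NiceFam R a a') {σ : ℝ} (hσ : σ ∈ Set.Icc (0 : ℝ) 2) (ξ : E) :
    Continuous fun x : T2 => a σ x ξ := by
  apply continuous_of_lift
  have h := (ha.smooth_at (σ := σ) ⟨by linarith [hσ.1], by linarith [hσ.2]⟩).continuous
  exact h.comp (f := fun x : E => (x, ξ)) (by fun_prop)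

theorem nice_cont_lift (ha : NiceFam R a a') {σ : ℝ} (hσ : σ ∈ Set.Icc (0 : ℝ) 2) (ξ : E) :
    ContDiff ℝ ∞ fun x : E => a σ (proj x) ξ := by
  have h := (ha.smooth_at (σ := σ) ⟨by linarith [hσ.1], by linarith [hσ.2]⟩)
  exact h.comp (f := fun x : E => (x, ξ)) (by fun_prop)

theorem semi_smooth (hb : IsSemiSymbol m ħ0 b p) {ħ : ℝ} (h0 : 0 < ħ) (h1 : ħ ≤ ħ0) :
    ContDiff ℝ ∞ (fun z : E × E => b ħ (proj z.1) z.2) := by
  obtain ⟨c, -, -, h, -⟩ := hb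
  exact h ħ h0 h1

theorem semi_cont (hb : IsSemiSymbol m ħ0 b p) {ħ : ℝ} (h0 : 0 < ħ) (h1 : ħ ≤ ħ0) (ξ : E) :
    Continuous fun x : T2 => b ħ x ξ := by
  apply continuous_of_lift
  exact (semi_smooth hb h0 h1).continuous.comp (f := fun x : E => (x, ξ)) (by fun_prop)

theorem nice_sup (ha : NiceFam R a a') : ∃ B : ℝ, 0 ≤ B ∧
    ∀ σ ∈ Set.Icc (0 : ℝ) 2, ∀ (x : T2) (ξ : E), ‖a σ x ξ‖ ≤ B := by
  obtain ⟨B, hB, h⟩ := ha.bdd 0 0
  refine ⟨B, hB, fun σ hσ x ξ => ?_⟩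
  obtain ⟨y, rfl⟩ := proj_surjective x
  have := h σ hσ y ξ
  rwa [norm_iteratedFDeriv_zero, norm_iteratedFDeriv_zero] at this

theorem semi_sup (hb : IsSemiSymbol m ħ0 b p) : ∃ (B : ℝ) (M : ℕ), 0 ≤ B ∧
    ∀ ħ, 0 < ħ → ħ ≤ ħ0 → ∀ (x : T2) (ξ : E), ‖b ħ x ξ‖ ≤ B * (1 + ‖ξ‖) ^ M := by
  obtain ⟨B, M, hB, h⟩ := semi_bdd hb 0 0
  refine ⟨B, M, hB, fun ħ h0 h1 x ξ => ?_⟩
  obtain ⟨y, rfl⟩ := proj_surjective x
  have := h ħ h0 h1 y ξ
  rwa [norm_iteratedFDeriv_zero, norm_iteratedFDeriv_zero] at this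

/-- the two series have uniformly summable terms -/
theorem right_summable (ha : NiceFam R a a') (hb : IsSemiSymbol m ħ0 b p) {ħ : ℝ} (h0 : 0 < ħ)
    (h1 : ħ ≤ ħ0) (h2 : ħ ≤ 1) {σ : ℝ} (hσ : σ ∈ Set.Icc (0 : ℝ) 2) (ξ : E) :
    ∃ B : (Fin 2 → ℤ) → ℝ, Summable B ∧ (∀ n, ‖fc (fun x => a σ x ξ) n‖ ≤ B n) ∧
      ∀ n (x : T2), ‖fc (fun x => a σ x ξ) n‖ * ‖b ħ x (ξ + freq ħ n)‖ ≤ B n := by
  obtain ⟨B1, M, hB1, hbs⟩ := semi_sup hb
  obtain ⟨B2, hB2, hfc⟩ := nice_fc ha (M + 2)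
  set D : ℝ := B1 * ((1 + ‖ξ‖) * 7) ^ M with hD
  have hD0 : 0 ≤ D := by positivity
  refine ⟨fun n => (B2 * (1 + D)) * (wt n ^ 2)⁻¹, summable_wt.mul_left _, fun n => ?_, fun n x => ?_⟩
  · have h3 := (hfc σ hσ ξ n).1
    have hw := one_le_wt n
    have hw0 : 0 < wt n := by linarith
    calc _ ≤ B2 / wt n ^ (M + 2) := h3
      _ ≤ B2 / wt n ^ 2 := by
          apply div_le_div_of_nonneg_left hB2 (by positivity)
          exact pow_le_pow_right₀ hw (by omega)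
      _ = B2 * 1 * (wt n ^ 2)⁻¹ := by rw [div_eq_mul_inv, mul_one]
      _ ≤ (B2 * (1 + D)) * (wt n ^ 2)⁻¹ := by gcongr; linarith
  · have h3 := (hfc σ hσ ξ n).1
    have hw := one_le_wt n
    have hw0 : 0 < wt n := by linarith
    have h4 : ‖b ħ x (ξ + freq ħ n)‖ ≤ D * wt n ^ M := by
      refine (hbs ħ h0 h1 x _).trans ?_
      rw [hD, mul_assoc, ← mul_pow]
      gcongr
      have := one_add_freq_le h0 h2 n
      calc 1 + ‖ξ + freq ħ n‖ ≤ 1 + (‖ξ‖ + ‖freq ħ n‖) := by gcongr; exact norm_add_le _ _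
        _ ≤ (1 + ‖ξ‖) * (1 + ‖freq ħ n‖) := by nlinarith [norm_nonneg ξ, norm_nonneg (freq ħ n)]
        _ ≤ (1 + ‖ξ‖) * (7 * wt n) := by gcongr
        _ = (1 + ‖ξ‖) * 7 * wt n := by ring
    calc _ ≤ (B2 / wt n ^ (M + 2)) * (D * wt n ^ M) := by gcongr
      _ = B2 * D * (wt n ^ 2)⁻¹ := by rw [pow_add]; field_simp
      _ ≤ (B2 * (1 + D)) * (wt n ^ 2)⁻¹ := by gcongr; linarith

theorem left_summable (ha : NiceFam R a a') (hb : IsSemiSymbol m ħ0 b p) {ħ : ℝ} (h0 : 0 < ħ)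
    (h1 : ħ ≤ ħ0) {σ : ℝ} (hσ : σ ∈ Set.Icc (0 : ℝ) 2) (ξ : E) :
    ∃ B : (Fin 2 → ℤ) → ℝ, Summable B ∧
      ∀ n (x : T2), ‖fc (fun x => b ħ x ξ) n‖ * ‖a σ x (ξ + freq ħ n)‖ ≤ B n := by
  obtain ⟨B1, hB1, has⟩ := nice_sup ha
  obtain ⟨B2, M, hB2, hfc⟩ := semi_fc hb 2
  refine ⟨fun n => (B2 * (1 + ‖ξ‖) ^ M * B1) * (wt n ^ 2)⁻¹, summable_wt.mul_left _, fun n x => ?_⟩
  have h3 := hfc ħ h0 h1 ξ n
  calc _ ≤ (B2 * (1 + ‖ξ‖) ^ M / wt n ^ 2) * B1 := by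
        gcongr
        exact has σ hσ x _
    _ = _ := by ring

/-- pointwise expression of the symbol of the derivative -/
def DDsym (a a' : ℝ → T2 → E → ℂ) (b : ℝ → T2 → E → ℂ) (ħ σ : ℝ) (ξ : E) (x : T2) : ℂ :=
  (I / ħ) * (∑' n, fc (fun x => a σ x ξ) n * ek n x * b ħ x (ξ + freq ħ n))
        - (I / ħ) * (∑' n, fc (fun x => b ħ x ξ) n * ek n x * a σ x (ξ + freq ħ n))
        + a' σ x ξ

theorem right_series (ha : NiceFam R a a') (hb : IsSemiSymbol m ħ0 b p) {ħ : ℝ} (h0 : 0 < ħ)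
    (h1 : ħ ≤ ħ0) (h2 : ħ ≤ 1) {σ : ℝ} (hσ : σ ∈ Set.Icc (0 : ℝ) 2) (l : Fin 2 → ℤ) :
    Continuous (fun x => ∑' n, fc (fun x => a σ x (freq ħ l)) n * ek n x
        * b ħ x (freq ħ l + freq ħ n)) ∧
    cls (fun x => (∑' n, fc (fun x => a σ x (freq ħ l)) n * ek n x
        * b ħ x (freq ħ l + freq ħ n)) * ek l x)
      = ∑' n, fc (fun x => a σ x (freq ħ l)) n • opExp ħ b (l + n) := by
  obtain ⟨B, hB, hB1, hB2⟩ := right_summable ha hb h0 h1 h2 hσ (freq ħ l)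
  have hc : ∀ n, Continuous (fun x : T2 => fc (fun x => a σ x (freq ħ l)) n * ek n x
        * b ħ x (freq ħ l + freq ħ n)) := fun n =>
    (continuous_const.mul (continuous_ek n)).mul (semi_cont hb h0 h1 _)
  have hbd : ∀ n (x : T2), ‖fc (fun x => a σ x (freq ħ l)) n * ek n x
        * b ħ x (freq ħ l + freq ħ n)‖ ≤ B n := by
    intro n x
    rw [norm_mul, norm_mul, norm_ek, mul_one]
    exact hB2 n x
  obtain ⟨hcont, -⟩ := cls_tsum hc hB hbd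
  refine ⟨hcont, ?_⟩
  have hc' : ∀ n, Continuous (fun x : T2 => fc (fun x => a σ x (freq ħ l)) n
      * (b ħ x (freq ħ (l + n)) * ek (l + n) x)) := fun n =>
    continuous_const.mul ((semi_cont hb h0 h1 _).mul (continuous_ek _))
  have hbd' : ∀ n (x : T2), ‖fc (fun x => a σ x (freq ħ l)) n
      * (b ħ x (freq ħ (l + n)) * ek (l + n) x)‖ ≤ B n := by
    intro n x
    rw [norm_mul, norm_mul, norm_ek, mul_one, freq_add]
    exact hB2 n x
  obtain ⟨-, h⟩ := cls_tsum hc' hB hbd'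
  have e1 : (fun x => (∑' n, fc (fun x => a σ x (freq ħ l)) n * ek n x
        * b ħ x (freq ħ l + freq ħ n)) * ek l x)
      = fun x => ∑' n, fc (fun x => a σ x (freq ħ l)) n * (b ħ x (freq ħ (l + n)) * ek (l + n) x) := by
    ext x
    rw [← tsum_mul_right]
    congr 1
    ext n
    rw [freq_add, ek_add]; ring
  rw [e1, h]
  congr 1
  ext1 n
  exact cls_smul _ ((semi_cont hb h0 h1 _).mul (continuous_ek _))

theorem left_series (ha : NiceFam R a a') (hb : IsSemiSymbol m ħ0 b p) {ħ : ℝ} (h0 : 0 < ħ)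
    (h1 : ħ ≤ ħ0) {σ : ℝ} (hσ : σ ∈ Set.Icc (0 : ℝ) 2) (l : Fin 2 → ℤ)
    (K : Finset (Fin 2 → ℤ)) (hK : ∀ k, ‖freq ħ k‖ < R → k ∈ K) :
    Continuous (fun x => ∑' n, fc (fun x => b ħ x (freq ħ l)) n * ek n x
        * a σ x (freq ħ l + freq ħ n)) ∧
    cls (fun x => (∑' n, fc (fun x => b ħ x (freq ħ l)) n * ek n x
        * a σ x (freq ħ l + freq ħ n)) * ek l x)
      = ∑ k ∈ K, fc (fun x => b ħ x (freq ħ l)) (k - l) • cls (fun x => a σ x (freq ħ k) * ek k x) := by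
  obtain ⟨B, hB, hB2⟩ := left_summable ha hb h0 h1 hσ (freq ħ l)
  have hc : ∀ n, Continuous (fun x : T2 => fc (fun x => b ħ x (freq ħ l)) n * ek n x
        * a σ x (freq ħ l + freq ħ n)) := fun n =>
    (continuous_const.mul (continuous_ek n)).mul (nice_cont ha hσ _)
  have hbd : ∀ n (x : T2), ‖fc (fun x => b ħ x (freq ħ l)) n * ek n x
        * a σ x (freq ħ l + freq ħ n)‖ ≤ B n := by
    intro n x
    rw [norm_mul, norm_mul, norm_ek, mul_one]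
    exact hB2 n x
  obtain ⟨hcont, -⟩ := cls_tsum hc hB hbd
  refine ⟨hcont, ?_⟩
  have hc' : ∀ n, Continuous (fun x : T2 => fc (fun x => b ħ x (freq ħ l)) n
      * (a σ x (freq ħ (l + n)) * ek (l + n) x)) := fun n =>
    continuous_const.mul ((nice_cont ha hσ _).mul (continuous_ek _))
  have hbd' : ∀ n (x : T2), ‖fc (fun x => b ħ x (freq ħ l)) n
      * (a σ x (freq ħ (l + n)) * ek (l + n) x)‖ ≤ B n := by
    intro n x
    rw [norm_mul, norm_mul, norm_ek, mul_one, freq_add]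
    exact hB2 n x
  obtain ⟨-, h⟩ := cls_tsum hc' hB hbd'
  have e1 : (fun x => (∑' n, fc (fun x => b ħ x (freq ħ l)) n * ek n x
        * a σ x (freq ħ l + freq ħ n)) * ek l x)
      = fun x => ∑' n, fc (fun x => b ħ x (freq ħ l)) n * (a σ x (freq ħ (l + n)) * ek (l + n) x) := by
    ext x
    rw [← tsum_mul_right]
    congr 1
    ext n
    rw [freq_add, ek_add]; ring
  rw [e1, h]
  have e2 : (fun n => cls fun x => fc (fun x => b ħ x (freq ħ l)) n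
      * (a σ x (freq ħ (l + n)) * ek (l + n) x))
      = fun n => (fun k => fc (fun x => b ħ x (freq ħ l)) (k - l)
        • cls (fun x => a σ x (freq ħ k) * ek k x)) (Equiv.addLeft l n) := by
    ext1 n
    simp only [Equiv.coe_addLeft, add_sub_cancel_left]
    exact cls_smul _ ((nice_cont ha hσ _).mul (continuous_ek _))
  rw [e2, Equiv.tsum_eq (Equiv.addLeft l) (fun k => fc (fun x => b ħ x (freq ħ l)) (k - l)
        • cls (fun x => a σ x (freq ħ k) * ek k x))]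
  apply tsum_eq_sum
  intro k hk
  have hk' : R ≤ ‖freq ħ k‖ := by
    by_contra hcon
    exact hk (hK k (not_le.mp hcon))
  have hz : (fun x : T2 => a σ x (freq ħ k) * ek k x) = fun x => (0 : ℂ) * ek k x := by
    ext x
    rw [ha.supp σ ⟨by linarith [hσ.1], by linarith [hσ.2]⟩ x _ hk', zero_mul]
  rw [hz, cls_smul _ (continuous_ek k), zero_smul, smul_zero]

theorem nice_cont' (ha : NiceFam R a a') {σ : ℝ} (hσ : σ ∈ Set.Icc (0 : ℝ) 2) (ξ : E) :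
    Continuous fun x : T2 => a' σ x ξ :=
  ha.continuous' ⟨by linarith [hσ.1], by linarith [hσ.2]⟩ ξ

theorem opExp_bound (hb : IsSemiSymbol m ħ0 b p) {ħ : ℝ} (h0 : 0 < ħ) (h1 : ħ ≤ ħ0)
    (k : Fin 2 → ℤ) {C : ℝ} (hC : 0 ≤ C) (h : ∀ x : T2, ‖b ħ x (freq ħ k)‖ ≤ C) :
    ‖opExp ħ b k‖ ≤ C := by
  refine norm_cls_le ((semi_cont hb h0 h1 _).mul (continuous_ek _)) hC ?_
  intro x
  show ‖b ħ x (freq ħ k) * ek k x‖ ≤ C
  rw [norm_mul, norm_ek, mul_one]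
  exact h x

/-- Fourier series of `a(·, 2πħk) e_k` -/
theorem vs_series (ha : NiceFam R a a') (hb : IsSemiSymbol m ħ0 b p) {ħ : ℝ} (h0 : 0 < ħ)
    (h1 : ħ ≤ ħ0) (h2 : ħ ≤ 1) {σ : ℝ} (hσ : σ ∈ Set.Icc (0 : ℝ) 2) (k : Fin 2 → ℤ) :
    cls (fun x => a σ x (freq ħ k) * ek k x)
      = ∑' n, fc (fun x => a σ x (freq ħ k)) n • cls (ek (k + n)) := by
  obtain ⟨B, hB, hB1, -⟩ := right_summable ha hb h0 h1 h2 hσ (freq ħ k)
  have hc' : ∀ n, Continuous (fun x : T2 => fc (fun x => a σ x (freq ħ k)) n * ek (k + n) x) :=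
    fun n => continuous_const.mul (continuous_ek _)
  have hbd' : ∀ n (x : T2), ‖fc (fun x => a σ x (freq ħ k)) n * ek (k + n) x‖ ≤ B n := by
    intro n x
    rw [norm_mul, norm_ek, mul_one]
    exact hB1 n
  obtain ⟨-, h⟩ := cls_tsum hc' hB hbd'
  have e1 : (fun x => a σ x (freq ħ k) * ek k x)
      = fun x => ∑' n, fc (fun x => a σ x (freq ħ k)) n * ek (k + n) x := by
    ext x
    obtain ⟨y, rfl⟩ := proj_surjective x
    have h3 := (hasSum_fc (f := fun x => a σ x (freq ħ k)) (nice_cont_lift ha hσ (freq ħ k)) y).tsum_eq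
    rw [← h3, ← tsum_mul_right]
    congr 1
    ext n
    rw [ek_add]; ring
  rw [e1, h]
  congr 1
  ext1 n
  exact cls_smul _ (continuous_ek _)

theorem wd_deriv (ha : NiceFam R a a') (hb : IsSemiSymbol m ħ0 b p) {ħ : ℝ} (h0 : 0 < ħ)
    (h1 : ħ ≤ ħ0) (h2 : ħ ≤ 1) {σ : ℝ} (hσ : σ ∈ Set.Icc (0 : ℝ) 2) (k : Fin 2 → ℤ)
    {U : ℝ → L2T →L[ℂ] L2T} (hU : IsUnitaryGroup U) (hgen : Generates ħ b U) 
    (hn : ∀ k, ‖cls (ek k)‖ ≤ 1) :
    HasDerivAt (fun τ => U τ (cls (fun x => a σ x (freq ħ k) * ek k x)))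
      (∑' n, fc (fun x => a σ x (freq ħ k)) n • ((-(I / (ħ : ℂ))) • opExp ħ b (k + n))) 0 := by
  rw [vs_series ha hb h0 h1 h2 hσ k]
  obtain ⟨B, hB, hB1, hB2⟩ := right_summable ha hb h0 h1 h2 hσ (freq ħ k)
  apply generator_tsum hU (fun n => hgen (k + n))
  · apply Summable.of_nonneg_of_le (fun n => by positivity) (fun n => ?_) hB
    calc _ ≤ ‖fc (fun x => a σ x (freq ħ k)) n‖ * 1 := by gcongr; exact hn _
      _ ≤ B n := by rw [mul_one]; exact hB1 n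
  · apply Summable.of_nonneg_of_le (fun n => by positivity) (fun n => ?_)
      (hB.mul_left ‖(-(I / (ħ : ℂ)))‖)
    rw [norm_smul]
    by_cases hz : ‖fc (fun x => a σ x (freq ħ k)) n‖ = 0
    · rw [hz, zero_mul]
      have : 0 ≤ B n := (norm_nonneg _).trans (hB1 n)
      positivity
    · have hz' : 0 < ‖fc (fun x => a σ x (freq ħ k)) n‖ := lt_of_le_of_ne (norm_nonneg _) (Ne.symm hz)
      have hBn : 0 ≤ B n := (norm_nonneg _).trans (hB1 n)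
      have : ‖opExp ħ b (k + n)‖ ≤ B n / ‖fc (fun x => a σ x (freq ħ k)) n‖ := by
        apply opExp_bound hb h0 h1 _ (by positivity)
        intro x
        rw [le_div_iff₀ hz', freq_add, mul_comm]
        exact hB2 n x
      rw [le_div_iff₀ hz'] at this
      calc ‖fc (fun x => a σ x (freq ħ k)) n‖ * (‖-(I / (ħ : ℂ))‖ * ‖opExp ħ b (k + n)‖)
          = ‖-(I / (ħ : ℂ))‖ * (‖opExp ħ b (k + n)‖ * ‖fc (fun x => a σ x (freq ħ k)) n‖) := by ring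
        _ ≤ ‖-(I / (ħ : ℂ))‖ * B n := by gcongr

/-- the matrix of the generator -/
theorem inner_gen (hb : IsSemiSymbol m ħ0 b p) {ħ : ℝ} (h0 : 0 < ħ) (h1 : ħ ≤ ħ0)
    (k l : Fin 2 → ℤ) :
    inner ℂ (cls (ek k)) ((-(I / (ħ : ℂ))) • opExp ħ b l)
      = (-(I / (ħ : ℂ))) * fc (fun x => b ħ x (freq ħ l)) (k - l) := by
  rw [inner_smul_right]
  congr 1
  exact fc_shift (semi_cont hb h0 h1 _) l k

theorem key_id (ha : NiceFam R a a') (hb : IsSemiSymbol m ħ0 b p) {ħ : ℝ} (h0 : 0 < ħ)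
    (h1 : ħ ≤ ħ0) (h2 : ħ ≤ 1) {σ : ℝ} (hσ : σ ∈ Set.Icc (0 : ℝ) 2) (l : Fin 2 → ℤ)
    (K : Finset (Fin 2 → ℤ)) (hK : ∀ k, ‖freq ħ k‖ < R → k ∈ K) :
    Continuous (DDsym a a' b ħ σ (freq ħ l)) ∧
    (∑ k ∈ K, (inner ℂ (cls (ek k)) ((-(I / (ħ : ℂ))) • opExp ħ b l) : ℂ)
        • cls (fun x => a σ x (freq ħ k) * ek k x))
      + (cls (fun x => a' σ x (freq ħ l) * ek l x)
        - ∑' n, fc (fun x => a σ x (freq ħ l)) n • ((-(I / (ħ : ℂ))) • opExp ħ b (l + n)))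
      = cls (fun x => DDsym a a' b ħ σ (freq ħ l) x * ek l x) := by
  obtain ⟨cR, eR⟩ := right_series ha hb h0 h1 h2 hσ l
  obtain ⟨cL, eL⟩ := left_series ha hb h0 h1 hσ l K hK
  have cA := nice_cont' ha hσ (freq ħ l)
  refine ⟨((continuous_const.mul cR).sub (continuous_const.mul cL)).add cA, ?_⟩
  set FR : T2 → ℂ := fun x => ∑' n, fc (fun x => a σ x (freq ħ l)) n * ek n x
        * b ħ x (freq ħ l + freq ħ n) with hFR
  set FL : T2 → ℂ := fun x => ∑' n, fc (fun x => b ħ x (freq ħ l)) n * ek n x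
        * a σ x (freq ħ l + freq ħ n) with hFL
  have e0 : (fun x => DDsym a a' b ħ σ (freq ħ l) x * ek l x)
      = fun x => ((I / ħ) * (FR x * ek l x) + (-(I / ħ)) * (FL x * ek l x))
          + a' σ x (freq ħ l) * ek l x := by
    ext x
    simp only [DDsym, hFR, hFL]
    ring
  have cR' : Continuous fun x => FR x * ek l x := cR.mul (continuous_ek l)
  have cL' : Continuous fun x => FL x * ek l x := cL.mul (continuous_ek l)
  have cA' : Continuous fun x => a' σ x (freq ħ l) * ek l x := cA.mul (continuous_ek l)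
  have c1 : Continuous fun x => (I / ħ) * (FR x * ek l x) := continuous_const.mul cR'
  have c2 : Continuous fun x => (-(I / ħ)) * (FL x * ek l x) := continuous_const.mul cL'
  have c3 : Continuous fun x => (I / ħ) * (FR x * ek l x) + (-(I / ħ)) * (FL x * ek l x) := c1.add c2
  rw [e0, cls_add c3 cA', cls_add c1 c2, cls_smul _ cR', cls_smul _ cL', eR, eL]
  have e1 : (∑ k ∈ K, (inner ℂ (cls (ek k)) ((-(I / (ħ : ℂ))) • opExp ħ b l) : ℂ)
        • cls (fun x => a σ x (freq ħ k) * ek k x))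
      = (-(I / (ħ : ℂ))) • ∑ k ∈ K, fc (fun x => b ħ x (freq ħ l)) (k - l)
        • cls (fun x => a σ x (freq ħ k) * ek k x) := by
    rw [Finset.smul_sum]
    apply Finset.sum_congr rfl
    intro k _
    rw [inner_gen hb h0 h1, mul_smul]
  have e2 : ∑' n, fc (fun x => a σ x (freq ħ l)) n • ((-(I / (ħ : ℂ))) • opExp ħ b (l + n))
      = (-(I / (ħ : ℂ))) • ∑' n, fc (fun x => a σ x (freq ħ l)) n • opExp ħ b (l + n) := by
    rw [← tsum_const_smul'' (-(I / (ħ : ℂ)))]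
    congr 1
    ext1 n
    rw [smul_comm]
  rw [e1, e2, neg_smul (I / (ħ : ℂ)) (∑' n, fc (fun x => a σ x (freq ħ l)) n • opExp ħ b (l + n)),
    sub_neg_eq_add]
  abel

theorem key_zero (ha : NiceFam R a a') {ħ : ℝ} {σ : ℝ} (hσ : σ ∈ Set.Icc (0 : ℝ) 2)
    (l : Fin 2 → ℤ) (hl : R ≤ ‖freq ħ l‖) :
    (cls (fun x => a' σ x (freq ħ l) * ek l x)
        - ∑' n, fc (fun x => a σ x (freq ħ l)) n • ((-(I / (ħ : ℂ))) • opExp ħ b (l + n))) = 0 := by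
  have hσ' : σ ∈ Set.Ioo (-1 : ℝ) 3 := ⟨by linarith [hσ.1], by linarith [hσ.2]⟩
  have e1 : (fun x : T2 => a' σ x (freq ħ l) * ek l x) = fun x => (0 : ℂ) * ek l x := by
    ext x; rw [ha.supp' hσ' x hl, zero_mul]
  have e2 : (fun x : T2 => a σ x (freq ħ l)) = fun x => (0 : ℂ) * ek 0 x := by
    ext x; rw [ha.supp σ hσ' x _ hl, zero_mul]
  have e3 : ∀ n, fc (fun x : T2 => a σ x (freq ħ l)) n = 0 := by
    intro n
    rw [e2, fc, cls_smul _ (continuous_ek _), zero_smul, inner_zero_right]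
  simp only [e3, zero_smul, tsum_zero, sub_zero]
  rw [e1, cls_smul _ (continuous_ek _), zero_smul]

/-- Egorov's theorem -/
theorem egorov_torus (ha : NiceFam R a a') (hb : IsSemiSymbol m ħ0 b p)
    (htr : ∀ σ ∈ Set.Icc (0 : ℝ) 2, ∀ x ξ : E, a' σ (proj x) ξ + pb p (a σ) x ξ = 0) :
    ∃ C : ℝ, 0 ≤ C ∧ ∀ ħ, 0 < ħ → ħ ≤ ħ0 → ħ ≤ 1 →
      ∀ (U : ℝ → L2T →L[ℂ] L2T), IsUnitaryGroup U → Generates ħ b U →
      ∀ (bas : HilbertBasis (Fin 2 → ℤ) ℂ L2T), (∀ k, bas k = cls (ek k)) →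
      ∀ K : Finset (Fin 2 → ℤ), (∀ k, ‖freq ħ k‖ < R → k ∈ K) →
      hs bas ((U (-2)).comp
        ((finOp bas K (fun k => cls fun x => a 2 x (freq ħ k) * ek k x)).comp (U 2))
        - finOp bas K (fun k => cls fun x => a 0 x (freq ħ k) * ek k x)) ≤ ENNReal.ofReal C := by
  obtain ⟨C1, hC1, hcomm⟩ := comm_pointwise ha hb htr
  obtain ⟨C2, hC2, hlat⟩ := lattice_sum
  refine ⟨2 ^ 2 * (C1 ^ 2 * C2), by positivity, ?_⟩
  intro ħ h0 h1 h2 U hU hgen bas hbas K hK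
  have hn : ∀ k, ‖cls (ek k)‖ ≤ 1 := fun k => by rw [← hbas k, bas.orthonormal.1]
  have hG : ∀ k, HasDerivAt (fun t => U t (bas k)) ((-(I / (ħ : ℂ))) • opExp ħ b k) 0 := by
    intro k; rw [hbas k]; exact hgen k
  have hbound : ∀ σ ∈ Set.Icc (0 : ℝ) 2, ∀ l,
      ‖cls (fun x => DDsym a a' b ħ σ (freq ħ l) x * ek l x)‖ ≤ C1 * ħ / (1 + ‖freq ħ l‖) ^ 4 := by
    intro σ hσ l
    have hc := (key_id ha hb h0 h1 h2 hσ l K hK).1
    refine norm_cls_le (hc.mul (continuous_ek l)) (by positivity) ?_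
    intro x
    show ‖DDsym a a' b ħ σ (freq ħ l) x * ek l x‖ ≤ _
    rw [norm_mul, norm_ek, mul_one]
    obtain ⟨y, rfl⟩ := proj_surjective x
    exact hcomm ħ h0 h1 h2 σ hσ y _
  have hM : ∀ σ ∈ Set.Icc (0 : ℝ) 2,
      ∑' l, ‖(∑ k ∈ K, (inner ℂ (bas k) ((-(I / (ħ : ℂ))) • opExp ħ b l) : ℂ)
          • cls (fun x => a σ x (freq ħ k) * ek k x))
      + (open Classical in if l ∈ K then cls (fun x => a' σ x (freq ħ l) * ek l x)
        - ∑' n, fc (fun x => a σ x (freq ħ l)) n • ((-(I / (ħ : ℂ))) • opExp ħ b (l + n)) else 0)‖ₑ ^ 2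
        ≤ ENNReal.ofReal (C1 ^ 2 * C2) := by
    intro σ hσ
    have h3 : ∀ l, ‖(∑ k ∈ K, (inner ℂ (bas k) ((-(I / (ħ : ℂ))) • opExp ħ b l) : ℂ)
          • cls (fun x => a σ x (freq ħ k) * ek k x))
      + (open Classical in if l ∈ K then cls (fun x => a' σ x (freq ħ l) * ek l x)
        - ∑' n, fc (fun x => a σ x (freq ħ l)) n • ((-(I / (ħ : ℂ))) • opExp ħ b (l + n)) else 0)‖ₑ ^ 2
        ≤ ENNReal.ofReal (C1 ^ 2 * ħ ^ 2) * ENNReal.ofReal (((1 + ‖freq ħ l‖) ^ 4)⁻¹) := by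
      intro l
      have e : (∑ k ∈ K, (inner ℂ (bas k) ((-(I / (ħ : ℂ))) • opExp ħ b l) : ℂ)
          • cls (fun x => a σ x (freq ħ k) * ek k x))
      + (open Classical in if l ∈ K then cls (fun x => a' σ x (freq ħ l) * ek l x)
        - ∑' n, fc (fun x => a σ x (freq ħ l)) n • ((-(I / (ħ : ℂ))) • opExp ħ b (l + n)) else 0)
        = cls (fun x => DDsym a a' b ħ σ (freq ħ l) x * ek l x) := by
        rw [← (key_id ha hb h0 h1 h2 hσ l K hK).2]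
        simp only [hbas]
        split_ifs with hl
        · rfl
        · rw [key_zero ha hσ l (by by_contra hcon; exact hl (hK l (not_le.mp hcon)))]
      rw [e]
      have hb1 := hbound σ hσ l
      have hpos : 0 < (1 + ‖freq ħ l‖) ^ 4 := by positivity
      have hge : 1 ≤ (1 + ‖freq ħ l‖) ^ 4 := one_le_pow₀ (by linarith [norm_nonneg (freq ħ l)])
      rw [← ofReal_norm, ← ENNReal.ofReal_pow (norm_nonneg _), ← ENNReal.ofReal_mul (by positivity)]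
      apply ENNReal.ofReal_le_ofReal
      calc _ ≤ (C1 * ħ / (1 + ‖freq ħ l‖) ^ 4) ^ 2 := by gcongr
        _ = C1 ^ 2 * ħ ^ 2 * (((1 + ‖freq ħ l‖) ^ 4)⁻¹ * ((1 + ‖freq ħ l‖) ^ 4)⁻¹) := by
            field_simp
        _ ≤ C1 ^ 2 * ħ ^ 2 * (((1 + ‖freq ħ l‖) ^ 4)⁻¹ * 1) := by
            gcongr
            exact inv_le_one_of_one_le₀ hge
        _ = _ := by rw [mul_one]
    calc _ ≤ ∑' l, ENNReal.ofReal (C1 ^ 2 * ħ ^ 2) * ENNReal.ofReal (((1 + ‖freq ħ l‖) ^ 4)⁻¹) :=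
          ENNReal.tsum_le_tsum h3
      _ = ENNReal.ofReal (C1 ^ 2 * ħ ^ 2) * ∑' l, ENNReal.ofReal (((1 + ‖freq ħ l‖) ^ 4)⁻¹) :=
          ENNReal.tsum_mul_left
      _ ≤ ENNReal.ofReal (C1 ^ 2 * ħ ^ 2) * ENNReal.ofReal (C2 / ħ ^ 2) := by
          gcongr; exact hlat ħ h0 h2
      _ = ENNReal.ofReal (C1 ^ 2 * C2) := by
          rw [← ENNReal.ofReal_mul (by positivity)]
          congr 1
          field_simp
  have hv : ∀ σ ∈ Set.Icc (0 : ℝ) 2, ∀ k ∈ K,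
      HasDerivAt (fun τ => (fun (σ : ℝ) k => cls fun x => a σ x (freq ħ k) * ek k x) τ k)
        ((fun (σ : ℝ) k => cls fun x => a' σ x (freq ħ k) * ek k x) σ k) σ :=
    fun σ hσ k _ => ha.hasDerivAt_cls hσ k _
  have hw : ∀ σ ∈ Set.Icc (0 : ℝ) 2, ∀ k ∈ K,
      HasDerivAt (fun τ => U τ ((fun (σ : ℝ) k => cls fun x => a σ x (freq ħ k) * ek k x) σ k))
        ((fun (σ : ℝ) k => ∑' n, fc (fun x => a σ x (freq ħ k)) n •
          ((-(I / (ħ : ℂ))) • opExp ħ b (k + n))) σ k) 0 :=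
    fun σ hσ k _ => wd_deriv ha hb h0 h1 h2 hσ k hU hgen hn
  exact egorov_abs bas hU hG K (t := 2) zero_le_two
    (fun (σ : ℝ) k => cls fun x => a σ x (freq ħ k) * ek k x)
    (fun (σ : ℝ) k => cls fun x => a' σ x (freq ħ k) * ek k x)
    (fun (σ : ℝ) k => ∑' n, fc (fun x => a σ x (freq ħ k)) n •
          ((-(I / (ħ : ℂ))) • opExp ħ b (k + n))) hv hw (C1 ^ 2 * C2) (by positivity) (by
            intro σ hσ
            refine le_trans (le_of_eq ?_) (hM σ hσ)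
            congr! 6)

end Pool.Agent.H56.Q
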