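import Pool.Agent.H56.Q.FourA

/-! Module F: Fourier series on `𝕋²` for functions `f : T2 → ℂ` whose lift `f ∘ proj` is smooth. -/

set_option autoImplicit false

open MeasureTheory
open scoped ENNReal ContDiff

noncomputable section

namespace Pool.Agent.H56.Q

/-- Fourier coefficient -/
def fc (f : T2 → ℂ) (n : Fin 2 → ℤ) : ℂ := inner ℂ (cls (ek n)) (cls f)

theorem fc_eq {f : T2 → ℂ} (hf : Continuous f) (n : Fin 2 → ℤ) :
    fc f n = ∫ x, starRingEnd ℂ (ek n x) * f x ∂muT := by
  unfold fc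
  rw [L2.inner_def]
  apply integral_congr_ae
  filter_upwards [cls_coe (continuous_ek n), cls_coe hf] with x h1 h2
  rw [h1, h2, RCLike.inner_apply, mul_comm]

theorem conj_mul_ek (n : Fin 2 → ℤ) (x : T2) : starRingEnd ℂ (ek n x) * ek n x = 1 := by
  rw [mul_comm, Complex.mul_conj, Complex.normSq_eq_norm_sq, norm_ek]
  simp

theorem fc_shift {f : T2 → ℂ} (hf : Continuous f) (n k : Fin 2 → ℤ) :
    inner ℂ (cls (ek k)) (cls (fun x => f x * ek n x)) = fc f (k - n) := by
  have h : Continuous (fun x => f x * ek n x) := hf.mul (continuous_ek n)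
  have h1 := fc_eq h k
  unfold fc at h1
  rw [h1, fc_eq hf]
  congr 1
  ext x
  have h2 : ek k x = ek (k - n) x * ek n x := by
    rw [← ek_add, sub_add_cancel]
  rw [h2, map_mul]
  linear_combination (starRingEnd ℂ (ek (k - n) x) * f x) * conj_mul_ek n x

/-- the weight `(1+|n_0|)(1+|n_1|)` -/
def wt (n : Fin 2 → ℤ) : ℝ := (1 + |(n 0 : ℝ)|) * (1 + |(n 1 : ℝ)|)

theorem one_le_wt (n : Fin 2 → ℤ) : 1 ≤ wt n := by
  unfold wt
  nlinarith [abs_nonneg (n 0 : ℝ), abs_nonneg (n 1 : ℝ),
    mul_nonneg (abs_nonneg (n 0 : ℝ)) (abs_nonneg (n 1 : ℝ))]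

theorem summable_one_add : Summable fun n : ℤ => ((1 + |(n : ℝ)|) ^ 2)⁻¹ := by
  have h1 : Summable fun n : ℤ => 1 / (n : ℝ) ^ 2 := Real.summable_one_div_int_pow.2 (by norm_num)
  have h2 : Summable fun n : ℤ => if n = 0 then (1 : ℝ) else 0 :=
    summable_of_ne_finset_zero (s := {0}) (by
      intro b hb
      simp only [Finset.mem_singleton] at hb
      simp [hb])
  refine Summable.of_nonneg_of_le (fun n => by positivity) (fun n => ?_) (h1.add h2)
  by_cases hn : n = 0
  · subst hn
    simp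
  · have h3 : (0 : ℝ) < (n : ℝ) ^ 2 := by positivity
    simp only [hn, if_false, add_zero, one_div]
    apply inv_anti₀ h3
    rw [← sq_abs (n : ℝ)]
    gcongr
    linarith

theorem summable_wt : Summable fun n : Fin 2 → ℤ => (wt n ^ 2)⁻¹ := by
  have h := summable_one_add.mul_of_nonneg summable_one_add (fun n => by positivity)
    (fun n => by positivity)
  have h2 := (finTwoArrowEquiv ℤ).summable_iff.2 h
  refine h2.congr fun n => ?_
  simp only [Function.comp, finTwoArrowEquiv_apply, wt, mul_pow, mul_inv]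
  rfl

/-! ### derivatives -/

theorem proj_add (x y : E) : proj (x + y) = proj x + proj y := by
  ext i
  simp [proj]

theorem exists_of_proj_eq {x y : E} (h : proj x = proj y) :
    ∃ m : E, y = x + m ∧ proj m = 0 := by
  refine ⟨y - x, by abel, ?_⟩
  have h1 : proj (x + (y - x)) = proj x + proj (y - x) := proj_add _ _
  rw [add_sub_cancel, ← h] at h1
  exact left_eq_add.1 h1

theorem lift_periodic (f : T2 → ℂ) {m : E} (hm : proj m = 0) (z : E) :
    f (proj (z + m)) = f (proj z) := by
  rw [proj_add, hm, add_zero]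

/-- a section of `proj` -/
def sec (y : T2) : E := Function.surjInv proj_surjective y

theorem proj_sec (y : T2) : proj (sec y) = y := Function.surjInv_eq proj_surjective y

/-- partial derivative -/
def DD (i : Fin 2) (f : T2 → ℂ) : T2 → ℂ :=
  fun y => fderiv ℝ (fun x : E => f (proj x)) (sec y) (Pi.single i 1)

theorem DD_proj (i : Fin 2) (f : T2 → ℂ) (x : E) :
    DD i f (proj x) = fderiv ℝ (fun x : E => f (proj x)) x (Pi.single i 1) := by
  obtain ⟨m, hm, hm0⟩ := exists_of_proj_eq (x := x) (y := sec (proj x)) (proj_sec _).symm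
  unfold DD
  rw [hm]
  have h1 := fderiv_comp_add_right (𝕜 := ℝ) (f := fun x : E => f (proj x)) (x := x) m
  rw [← h1]
  congr 2
  ext z
  exact lift_periodic f hm0 z

theorem DD_smooth (i : Fin 2) {f : T2 → ℂ} (hf : ContDiff ℝ ∞ (fun x : E => f (proj x))) :
    ContDiff ℝ ∞ (fun x : E => DD i f (proj x)) := by
  have h1 : (fun x : E => DD i f (proj x))
      = fun x => fderiv ℝ (fun x : E => f (proj x)) x (Pi.single i 1) := by
    ext x
    exact DD_proj i f x
  rw [h1]
  exact (hf.fderiv_right (m := ∞) (by simp)).clm_apply contDiff_const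

theorem ek_add_pt (n : Fin 2 → ℤ) (x y : T2) : ek n (x + y) = ek n x * ek n y := by
  obtain ⟨a, rfl⟩ := proj_surjective x
  obtain ⟨b, rfl⟩ := proj_surjective y
  rw [← proj_add, ek_proj, ek_proj, ek_proj, ← Complex.exp_add]
  congr 1
  simp only [Pi.add_apply]
  push_cast
  ring

theorem ek_single (n : Fin 2 → ℤ) (i : Fin 2) (t : ℝ) :
    ek n (proj (t • Pi.single i 1)) = Complex.exp ((2 * Real.pi * Complex.I * (n i : ℂ)) * t) := by
  rw [ek_proj]
  congr 1
  fin_cases i <;> simp <;> ring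

theorem integral_shift {f : T2 → ℂ} (hf : Continuous f) (n : Fin 2 → ℤ) (p : T2) :
    ∫ x, starRingEnd ℂ (ek n x) * f (x + p) ∂muT = ek n p * fc f n := by
  have h1 : ∀ x : T2, starRingEnd ℂ (ek n x) * f (x + p)
      = ek n p * (starRingEnd ℂ (ek n (x + p)) * f (x + p)) := by
    intro x
    rw [ek_add_pt, map_mul]
    linear_combination -(starRingEnd ℂ (ek n x) * f (x + p)) * conj_mul_ek n p
  simp_rw [h1]
  rw [integral_const_mul, fc_eq hf,
    integral_add_right_eq_self (μ := muT) (fun x => starRingEnd ℂ (ek n x) * f x) p]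

theorem fc_DD {f : T2 → ℂ} (hf : ContDiff ℝ ∞ (fun x : E => f (proj x))) (i : Fin 2)
    (n : Fin 2 → ℤ) : fc (DD i f) n = (2 * Real.pi * Complex.I * (n i : ℂ)) * fc f n := by
  have hfc : Continuous f := continuous_of_lift hf.continuous
  have hDc : Continuous (DD i f) := continuous_of_lift (DD_smooth i hf).continuous
  obtain ⟨C, hC⟩ := (isCompact_range hDc).isBounded.exists_norm_le
  set e : E := Pi.single i 1 with he
  have hproj : Continuous fun t : ℝ => proj (t • e) := by
    have : Continuous fun t : ℝ => t • e := by fun_prop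
    exact continuous_proj.comp this
  have key := hasDerivAt_integral_of_dominated_loc_of_deriv_le (μ := muT) (𝕜 := ℝ)
    (F := fun (t : ℝ) (x : T2) => starRingEnd ℂ (ek n x) * f (x + proj (t • e)))
    (F' := fun (t : ℝ) (x : T2) => starRingEnd ℂ (ek n x) * DD i f (x + proj (t • e)))
    (x₀ := (0 : ℝ)) (s := Set.univ) (bound := fun _ => C) Filter.univ_mem
    (Filter.Eventually.of_forall fun t => by
      have : Continuous fun x : T2 => starRingEnd ℂ (ek n x) * f (x + proj (t • e)) :=
        (Complex.continuous_conj.comp (continuous_ek n)).mul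
          (hfc.comp (continuous_id.add continuous_const))
      exact this.aestronglyMeasurable)
    (by
      have : Continuous fun x : T2 => starRingEnd ℂ (ek n x) * f (x + proj ((0 : ℝ) • e)) :=
        (Complex.continuous_conj.comp (continuous_ek n)).mul
          (hfc.comp (continuous_id.add continuous_const))
      exact (memLp_one_iff_integrable.1 ((memLp_cont this).mono_exponent (by norm_num))))
    (by
      have : Continuous fun x : T2 => starRingEnd ℂ (ek n x) * DD i f (x + proj ((0 : ℝ) • e)) :=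
        (Complex.continuous_conj.comp (continuous_ek n)).mul
          (hDc.comp (continuous_id.add continuous_const))
      exact this.aestronglyMeasurable)
    (Filter.Eventually.of_forall fun x t _ => by
      rw [norm_mul, RCLike.norm_conj, norm_ek, one_mul]
      exact hC _ ⟨_, rfl⟩)
    (integrable_const _)
    (Filter.Eventually.of_forall fun x t _ => by
      obtain ⟨y, rfl⟩ := proj_surjective x
      have h1 : HasDerivAt (fun t : ℝ => y + t • e) e t := by
        have := ((hasDerivAt_id t).smul_const e).const_add y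
        simpa using this
      have h2 : HasFDerivAt (fun x : E => f (proj x))
          (fderiv ℝ (fun x : E => f (proj x)) (y + t • e)) (y + t • e) :=
        ((hf.differentiable (by simp)) _).hasFDerivAt
      have h3 := h2.comp_hasDerivAt t h1
      have h4 : HasDerivAt (fun t : ℝ => f (proj y + proj (t • e)))
          (DD i f (proj y + proj (t • e))) t := by
        rw [← proj_add, DD_proj]
        refine h3.congr_of_eventuallyEq (Filter.Eventually.of_forall fun s => ?_)
        simp only [Function.comp, proj_add]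
      exact h4.const_mul _)
  have h5 := key.2
  simp only [zero_smul] at h5
  have hp0 : proj (0 : E) = 0 := by
    ext i
    simp [proj]
  rw [hp0] at h5
  simp only [add_zero] at h5
  rw [← fc_eq hDc] at h5
  have h6 : (fun t : ℝ => ∫ x, starRingEnd ℂ (ek n x) * f (x + proj (t • e)) ∂muT)
      = fun t : ℝ => Complex.exp ((2 * Real.pi * Complex.I * (n i : ℂ)) * t) * fc f n := by
    ext t
    rw [integral_shift hfc, he, ek_single]
  rw [h6] at h5
  have h7 : HasDerivAt (fun t : ℝ => Complex.exp ((2 * Real.pi * Complex.I * (n i : ℂ)) * t)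
      * fc f n) ((2 * Real.pi * Complex.I * (n i : ℂ)) * fc f n) 0 := by
    have h8 : HasDerivAt (fun t : ℝ => (2 * Real.pi * Complex.I * (n i : ℂ)) * (t : ℂ))
        (2 * Real.pi * Complex.I * (n i : ℂ)) 0 := by
      simpa using (Complex.ofRealCLM.hasDerivAt (x := (0 : ℝ))).const_mul
        (2 * Real.pi * Complex.I * (n i : ℂ))
    have h9 := h8.cexp.mul_const (fc f n)
    simpa using h9
  exact h5.unique h7

/-- mixed derivatives of order `(a, b)` -/
def DDD (a b : ℕ) (f : T2 → ℂ) : T2 → ℂ := (DD 0)^[a] ((DD 1)^[b] f)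

theorem iter_smooth (i : Fin 2) {f : T2 → ℂ} (hf : ContDiff ℝ ∞ (fun x : E => f (proj x)))
    (a : ℕ) : ContDiff ℝ ∞ (fun x : E => ((DD i)^[a] f) (proj x)) := by
  induction a with
  | zero => exact hf
  | succ a ih =>
    rw [Function.iterate_succ_apply']
    exact DD_smooth i ih

theorem fc_iter (i : Fin 2) {f : T2 → ℂ} (hf : ContDiff ℝ ∞ (fun x : E => f (proj x)))
    (n : Fin 2 → ℤ) (a : ℕ) :
    fc ((DD i)^[a] f) n = (2 * Real.pi * Complex.I * (n i : ℂ)) ^ a * fc f n := by
  induction a with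
  | zero => simp
  | succ a ih =>
    rw [Function.iterate_succ_apply', fc_DD (iter_smooth i hf a), ih]
    ring

theorem norm_single (i : Fin 2) : ‖(Pi.single i 1 : E)‖ = 1 := by
  rw [Pi.norm_single]
  simp

theorem norm_iter_le (i : Fin 2) {f : T2 → ℂ} (hf : ContDiff ℝ ∞ (fun x : E => f (proj x)))
    (a : ℕ) : ∀ (k : ℕ) (x : E),
    ‖iteratedFDeriv ℝ k (fun x : E => ((DD i)^[a] f) (proj x)) x‖
      ≤ ‖iteratedFDeriv ℝ (k + a) (fun x : E => f (proj x)) x‖ := by
  induction a with
  | zero => intro k x; simp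
  | succ a ih =>
    intro k x
    have hs := iter_smooth i hf a
    have h1 : (fun x : E => ((DD i)^[a + 1] f) (proj x))
        = (ContinuousLinearMap.apply ℝ ℂ (Pi.single i 1 : E)) ∘
          (fderiv ℝ (fun x : E => ((DD i)^[a] f) (proj x))) := by
      ext x
      rw [Function.iterate_succ_apply', DD_proj]
      rfl
    rw [h1]
    have h2 : ContDiffAt ℝ ∞ (fderiv ℝ (fun x : E => ((DD i)^[a] f) (proj x))) x :=
      (hs.fderiv_right (m := ∞) (by simp)).contDiffAt
    refine (ContinuousLinearMap.norm_iteratedFDeriv_comp_left _ h2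
      (by exact_mod_cast le_top)).trans ?_
    rw [norm_iteratedFDeriv_fderiv]
    have h3 : ‖ContinuousLinearMap.apply ℝ ℂ (Pi.single i 1 : E)‖ ≤ 1 := by
      refine ContinuousLinearMap.opNorm_le_bound _ zero_le_one fun L => ?_
      rw [ContinuousLinearMap.apply_apply, one_mul]
      exact (L.le_opNorm _).trans (by rw [norm_single, mul_one])
    calc _ ≤ 1 * ‖iteratedFDeriv ℝ (k + 1) (fun x : E => ((DD i)^[a] f) (proj x)) x‖ := by
          gcongr
      _ ≤ _ := by
          rw [one_mul]
          have := ih (k + 1) x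
          rwa [show k + 1 + a = k + (a + 1) by ring] at this

theorem norm_fc_le {f : T2 → ℂ} (hf : Continuous f) {B : ℝ} (hB : 0 ≤ B)
    (h : ∀ x, ‖f x‖ ≤ B) (n : Fin 2 → ℤ) : ‖fc f n‖ ≤ B := by
  unfold fc
  refine (norm_inner_le_norm _ _).trans ?_
  have h1 : ‖cls (ek n)‖ ≤ 1 := norm_cls_le (continuous_ek n) zero_le_one fun x => (norm_ek n x).le
  have h2 := norm_cls_le hf hB h
  calc _ ≤ 1 * B := mul_le_mul h1 h2 (norm_nonneg _) zero_le_one
    _ = B := one_mul B

theorem pow_weight (m : ℤ) (N : ℕ) : ∃ a ≤ N,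
    (1 + |(m : ℝ)|) ^ N ≤ ‖(2 * Real.pi * Complex.I * (m : ℂ)) ^ a‖ := by
  by_cases hm : m = 0
  · refine ⟨0, Nat.zero_le _, ?_⟩
    subst hm
    simp
  · refine ⟨N, le_rfl, ?_⟩
    rw [norm_pow]
    gcongr
    have h1 : (1 : ℝ) ≤ |(m : ℝ)| := by
      exact_mod_cast Int.one_le_abs hm
    have h2 : ‖(2 * Real.pi * Complex.I * (m : ℂ))‖ = 2 * Real.pi * |(m : ℝ)| := by
      simp [abs_of_pos Real.pi_pos]
    rw [h2]
    nlinarith [Real.pi_gt_three]

/-- decay of Fourier coefficients: `N` integrations by parts in each variable. -/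
theorem fc_decay (N : ℕ) : ∃ C : ℝ, 0 < C ∧ ∀ (f : T2 → ℂ) (B : ℝ),
    ContDiff ℝ ∞ (fun x : E => f (proj x)) →
    (∀ j ≤ 2 * N, ∀ x : E, ‖iteratedFDeriv ℝ j (fun x : E => f (proj x)) x‖ ≤ B) →
    ∀ n, ‖fc f n‖ ≤ C * B / wt n ^ N := by
  refine ⟨1, one_pos, ?_⟩
  intro f B hf hB n
  obtain ⟨a, ha, ha2⟩ := pow_weight (n 0) N
  obtain ⟨b, hb, hb2⟩ := pow_weight (n 1) N
  have hB0 : 0 ≤ B := (norm_nonneg _).trans (hB 0 (Nat.zero_le _) 0)
  have hs1 := iter_smooth 1 hf b
  have hs2 := iter_smooth 0 hs1 a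
  have h1 : ‖fc ((DD 0)^[a] ((DD 1)^[b] f)) n‖ ≤ B := by
    refine norm_fc_le (continuous_of_lift hs2.continuous) hB0 (fun y => ?_) n
    obtain ⟨x, rfl⟩ := proj_surjective y
    have h2 := norm_iter_le 0 hs1 a 0 x
    have h3 := norm_iter_le 1 hf b (0 + a) x
    rw [norm_iteratedFDeriv_zero] at h2
    exact h2.trans (h3.trans (hB _ (by omega) x))
  rw [fc_iter 0 hs1, fc_iter 1 hf] at h1
  rw [norm_mul, norm_mul] at h1
  have hw : 0 < wt n ^ N := pow_pos (zero_lt_one.trans_le (one_le_wt n)) N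
  rw [one_mul, le_div_iff₀ hw, wt, mul_pow]
  calc ‖fc f n‖ * ((1 + |(n 0 : ℝ)|) ^ N * (1 + |(n 1 : ℝ)|) ^ N)
      ≤ ‖fc f n‖ * (‖(2 * Real.pi * Complex.I * (n 0 : ℂ)) ^ a‖
          * ‖(2 * Real.pi * Complex.I * (n 1 : ℂ)) ^ b‖) := by
        gcongr
    _ = ‖(2 * Real.pi * Complex.I * (n 0 : ℂ)) ^ a‖ *
          (‖(2 * Real.pi * Complex.I * (n 1 : ℂ)) ^ b‖ * ‖fc f n‖) := by ring
    _ ≤ B := h1

/-- smooth functions on the (compact) torus have bounded derivatives -/
theorem bounded_iteratedFDeriv {f : T2 → ℂ} (hf : ContDiff ℝ ∞ (fun x : E => f (proj x)))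
    (j : ℕ) : ∃ B : ℝ, 0 ≤ B ∧ ∀ x : E, ‖iteratedFDeriv ℝ j (fun x : E => f (proj x)) x‖ ≤ B := by
  have hc : Continuous (iteratedFDeriv ℝ j (fun x : E => f (proj x))) :=
    hf.continuous_iteratedFDeriv (by exact_mod_cast le_top)
  have hK : IsCompact (Set.Icc (0 : E) 1) := isCompact_Icc
  obtain ⟨C, hC⟩ := hK.exists_bound_of_continuousOn hc.continuousOn
  refine ⟨max C 0, le_max_right _ _, fun x => ?_⟩
  set m : E := fun i => -(⌊x i⌋ : ℝ) with hm
  have hm0 : proj m = 0 := by
    ext i
    simp [proj, hm]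
  have h1 : iteratedFDeriv ℝ j (fun x : E => f (proj x)) (x + m)
      = iteratedFDeriv ℝ j (fun x : E => f (proj x)) x := by
    rw [← iteratedFDeriv_comp_add_right]
    congr 1
    ext z
    exact lift_periodic f hm0 z
  rw [← h1]
  refine (hC (x + m) ⟨fun i => ?_, fun i => ?_⟩).trans (le_max_left _ _)
  · simp only [hm, Pi.add_apply, Pi.zero_apply]
    linarith [Int.floor_le (x i)]
  · simp only [hm, Pi.add_apply, Pi.one_apply]
    linarith [Int.lt_floor_add_one (x i)]

theorem summable_fc {f : T2 → ℂ} (hf : ContDiff ℝ ∞ (fun x : E => f (proj x))) :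
    Summable (fc f) := by
  obtain ⟨C, hC, h⟩ := fc_decay 2
  choose B hB0 hB using bounded_iteratedFDeriv hf
  have h1 := h f (∑ j ∈ Finset.range 5, B j) hf (by
    intro j hj x
    exact (hB j x).trans (Finset.single_le_sum (f := B) (fun i _ => hB0 i)
      (Finset.mem_range.2 (by omega))))
  refine Summable.of_norm_bounded (summable_wt.mul_left (C * ∑ j ∈ Finset.range 5, B j)) ?_
  intro n
  rw [← div_eq_mul_inv]
  exact h1 n

/-- Fourier series of a smooth function and of its first derivatives, pointwise -/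
theorem hasSum_fc {f : T2 → ℂ} (hf : ContDiff ℝ ∞ (fun x : E => f (proj x))) (x : E) :
    HasSum (fun n => fc f n * ek n (proj x)) (f (proj x)) := by
  have hfc : Continuous f := continuous_of_lift hf.continuous
  have h1 : UnitAddTorus.mFourierCoeff (⟨f, hfc⟩ : C(T2, ℂ)) = fc f := by
    ext n
    rw [fc_eq hfc]
    unfold UnitAddTorus.mFourierCoeff
    apply integral_congr_ae
    refine Filter.Eventually.of_forall fun t => ?_
    simp only [UnitAddTorus.mFourier_neg, smul_eq_mul, ContinuousMap.coe_mk]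
    rfl
  have h2 : Summable (UnitAddTorus.mFourierCoeff (⟨f, hfc⟩ : C(T2, ℂ))) := by
    rw [h1]
    exact summable_fc hf
  have h3 := UnitAddTorus.hasSum_mFourier_series_apply_of_summable h2 (proj x)
  rw [h1] at h3
  exact h3

theorem hasSum_fc_deriv {f : T2 → ℂ} (hf : ContDiff ℝ ∞ (fun x : E => f (proj x))) (i : Fin 2)
    (x : E) : HasSum (fun n => (2 * Real.pi * Complex.I * (n i : ℂ)) * (fc f n * ek n (proj x)))
      (fderiv ℝ (fun x : E => f (proj x)) x (Pi.single i 1)) := by
  have h := hasSum_fc (DD_smooth i hf) x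
  rw [DD_proj] at h
  refine h.congr_fun ?_
  intro n
  rw [fc_DD hf]
  ring

end Pool.Agent.H56.Q
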