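import Pool.Agent.H56.Q.Defs

/-! Module FA: basics on the torus `𝕋²` (basis of exponentials, `cls`). -/

set_option autoImplicit false

open MeasureTheory
open scoped ENNReal ContDiff

noncomputable section

namespace Pool.Agent.H56.Q

theorem memLp_cont {f : T2 → ℂ} (hf : Continuous f) : MemLp f 2 muT := by
  obtain ⟨C, hC⟩ := (isCompact_range hf).isBounded.exists_norm_le
  exact MemLp.of_bound hf.aestronglyMeasurable C
    (Filter.Eventually.of_forall fun x => hC _ ⟨x, rfl⟩)

theorem cls_def {f : T2 → ℂ} (hf : Continuous f) : cls f = (memLp_cont hf).toLp f := by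
  unfold cls
  rw [dif_pos (memLp_cont hf)]

theorem cls_eq_toLp {f : T2 → ℂ} (hf : Continuous f) :
    cls f = ContinuousMap.toLp 2 muT ℂ (⟨f, hf⟩ : C(T2, ℂ)) := by
  rw [cls_def hf]
  apply Lp.ext
  refine (MemLp.coeFn_toLp _).trans ?_
  exact (ContinuousMap.coeFn_toLp muT (⟨f, hf⟩ : C(T2, ℂ))).symm

theorem cls_coe {f : T2 → ℂ} (hf : Continuous f) : cls f =ᵐ[muT] f := by
  rw [cls_def hf]
  exact MemLp.coeFn_toLp _

theorem continuous_ek (k : Fin 2 → ℤ) : Continuous (ek k) := (UnitAddTorus.mFourier k).continuous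

/-- the exponentials form a Hilbert basis of `L²(𝕋²)` -/
theorem exists_basis : ∃ b : HilbertBasis (Fin 2 → ℤ) ℂ L2T, ∀ k, b k = cls (ek k) := by
  refine ⟨(UnitAddTorus.mFourierBasis (d := Fin 2) : HilbertBasis (Fin 2 → ℤ) ℂ L2T), fun k => ?_⟩
  rw [cls_eq_toLp (continuous_ek k)]
  exact congrFun (UnitAddTorus.coe_mFourierBasis (d := Fin 2)) k

theorem proj_surjective : Function.Surjective proj := by
  intro y
  have h : ∀ i : Fin 2, ∃ t : ℝ, ((t : ℝ) : UnitAddCircle) = y i := fun i =>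
    QuotientAddGroup.mk_surjective (y i)
  choose t ht using h
  exact ⟨t, funext ht⟩

theorem continuous_proj : Continuous proj :=
  continuous_pi fun i => (AddCircle.continuous_mk' (1 : ℝ)).comp (continuous_apply i)

theorem isOpenMap_proj : IsOpenMap proj := by
  have h : IsOpenMap (Pi.map fun (_ : Fin 2) (t : ℝ) => ((t : ℝ) : UnitAddCircle)) :=
    IsOpenMap.piMap (fun _ => QuotientAddGroup.isOpenMap_coe)
      (Filter.Eventually.of_forall fun _ => QuotientAddGroup.mk_surjective)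
  exact h

/-- `f ∘ proj` continuous implies `f` continuous (`proj` is an open quotient map) -/
theorem continuous_of_lift {f : T2 → ℂ} (hf : Continuous fun x : E => f (proj x)) :
    Continuous f :=
  (isOpenMap_proj.isQuotientMap continuous_proj proj_surjective).continuous_iff.2 hf

theorem ek_proj (k : Fin 2 → ℤ) (x : E) :
    ek k (proj x) = Complex.exp (2 * Real.pi * Complex.I * (k 0 * x 0 + k 1 * x 1)) := by
  unfold ek proj
  simp only [UnitAddTorus.mFourier, ContinuousMap.coe_mk, Fin.prod_univ_two, fourier_coe_apply]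
  rw [← Complex.exp_add]
  congr 1
  push_cast
  ring

theorem norm_ek (k : Fin 2 → ℤ) (x : T2) : ‖ek k x‖ = 1 := by
  obtain ⟨y, rfl⟩ := proj_surjective x
  rw [ek_proj]
  have : (2 * Real.pi * Complex.I * (k 0 * y 0 + k 1 * y 1) : ℂ)
      = ((2 * Real.pi * (k 0 * y 0 + k 1 * y 1) : ℝ) : ℂ) * Complex.I := by
    push_cast
    ring
  rw [this, Complex.norm_exp_ofReal_mul_I]

theorem ek_add (k n : Fin 2 → ℤ) (x : T2) : ek (k + n) x = ek k x * ek n x :=
  UnitAddTorus.mFourier_add

theorem cls_add {f g : T2 → ℂ} (hf : Continuous f) (hg : Continuous g) :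
    cls (fun x => f x + g x) = cls f + cls g := by
  have h : Continuous (fun x => f x + g x) := hf.add hg
  rw [cls_eq_toLp hf, cls_eq_toLp hg, cls_eq_toLp h, ← map_add]
  rfl

theorem cls_smul {f : T2 → ℂ} (c : ℂ) (hf : Continuous f) :
    cls (fun x => c * f x) = c • cls f := by
  have h : Continuous (fun x => c * f x) := continuous_const.mul hf
  rw [cls_eq_toLp hf, cls_eq_toLp h, ← map_smul]
  rfl

theorem norm_cls_le {f : T2 → ℂ} (hf : Continuous f) {C : ℝ} (hC : 0 ≤ C)
    (h : ∀ x, ‖f x‖ ≤ C) : ‖cls f‖ ≤ C := by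
  have h1 := Lp.norm_le_of_ae_bound (f := cls f) (p := 2) (μ := muT) hC
    (by
      filter_upwards [cls_coe hf] with x hx
      rw [hx]
      exact h x)
  have h2 : measureUnivNNReal muT = 1 := by
    rw [← ENNReal.coe_inj, coe_measureUnivNNReal]
    simp
  simpa [h2] using h1

theorem norm_cls_sq {f : T2 → ℂ} (hf : Continuous f) : ‖cls f‖ ^ 2 = ∫ x, ‖f x‖ ^ 2 ∂muT := by
  have h1 : (‖cls f‖ ^ 2 : ℝ) = RCLike.re (inner ℂ (cls f) (cls f)) :=
    (inner_self_eq_norm_sq (𝕜 := ℂ) (cls f)).symm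
  rw [h1, L2.inner_def, ← integral_re (L2.integrable_inner (cls f) (cls f))]
  apply integral_congr_ae
  filter_upwards [cls_coe hf] with x hx
  rw [hx]
  exact inner_self_eq_norm_sq (𝕜 := ℂ) (f x)

/-- `cls` of an absolutely and uniformly convergent series -/
theorem cls_tsum {κ : Type*} {f : κ → T2 → ℂ} (hf : ∀ k, Continuous (f k)) {B : κ → ℝ}
    (hB : Summable B) (h : ∀ k x, ‖f k x‖ ≤ B k) :
    Continuous (fun x => ∑' k, f k x) ∧ cls (fun x => ∑' k, f k x) = ∑' k, cls (f k) := by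
  have hc : Continuous (fun x => ∑' k, f k x) := continuous_tsum hf hB h
  refine ⟨hc, ?_⟩
  have hs : Summable fun k => (⟨f k, hf k⟩ : C(T2, ℂ)) := by
    refine Summable.of_norm_bounded hB fun k => ?_
    have h0 : 0 ≤ B k := (norm_nonneg _).trans (h k 0)
    exact (ContinuousMap.norm_le _ h0).2 (h k)
  have h1 : (⟨fun x => ∑' k, f k x, hc⟩ : C(T2, ℂ)) = ∑' k, (⟨f k, hf k⟩ : C(T2, ℂ)) := by
    ext x
    exact ContinuousMap.tsum_apply hs x
  rw [cls_eq_toLp hc, h1, (ContinuousMap.toLp 2 muT ℂ).map_tsum hs]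
  exact tsum_congr fun k => (cls_eq_toLp (hf k)).symm

end Pool.Agent.H56.Q
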