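import Pool.Agent.H56.Q.Defs

/-! Module HA: Hilbert-Schmidt norms.

`hs b T = ∑ ‖T b_k‖²` (in `ℝ≥0∞`).  Everything is elementary: Parseval and `ENNReal.tsum_comm`. -/

set_option autoImplicit false

open scoped ENNReal

noncomputable section

namespace Pool.Agent.H56.Q

variable {H : Type*} [NormedAddCommGroup H] [InnerProductSpace ℂ H] [CompleteSpace H] {ι : Type*}

/-- square of the Hilbert-Schmidt norm -/
def hs (b : HilbertBasis ι ℂ H) (T : H →L[ℂ] H) : ℝ≥0∞ := ∑' k, ‖T (b k)‖ₑ ^ 2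

omit [CompleteSpace H] in
/-- Parseval identity with extended norms -/
theorem parseval_enorm (b : HilbertBasis ι ℂ H) (u : H) :
    ‖u‖ₑ ^ 2 = ∑' l, ‖(inner ℂ (b l) u : ℂ)‖ₑ ^ 2 := by
  have h1 : HasSum (fun l => (inner ℂ u (b l) : ℂ) * inner ℂ (b l) u) (inner ℂ u u) :=
    b.hasSum_inner_mul_inner u u
  have h2 : ∀ l, (inner ℂ u (b l) : ℂ) * inner ℂ (b l) u
      = (((‖(inner ℂ (b l) u : ℂ)‖ ^ 2 : ℝ)) : ℂ) := by
    intro l
    rw [← inner_conj_symm u (b l), RCLike.conj_mul]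
    norm_cast
  have h3 : (inner ℂ u u : ℂ) = ((‖u‖ ^ 2 : ℝ) : ℂ) := by
    rw [inner_self_eq_norm_sq_to_K]
    norm_cast
  rw [h3] at h1
  have h4 : HasSum (fun l => ‖(inner ℂ (b l) u : ℂ)‖ ^ 2) (‖u‖ ^ 2) := by
    have h5 : HasSum (fun l => (((‖(inner ℂ (b l) u : ℂ)‖ ^ 2 : ℝ)) : ℂ)) ((‖u‖ ^ 2 : ℝ) : ℂ) := by
      convert h1 using 1
      funext l
      exact (h2 l).symm
    exact Complex.hasSum_ofReal.1 h5
  have h6 : ENNReal.ofReal (‖u‖ ^ 2) = ∑' l, ENNReal.ofReal (‖(inner ℂ (b l) u : ℂ)‖ ^ 2) := by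
    rw [← h4.tsum_eq]
    exact ENNReal.ofReal_tsum_of_nonneg (fun l => by positivity) h4.summable
  rw [← ofReal_norm, ← ENNReal.ofReal_pow (norm_nonneg _), h6]
  refine tsum_congr fun l => ?_
  rw [← ofReal_norm, ← ENNReal.ofReal_pow (norm_nonneg _)]

/-- Parseval: `∑_k ∑_l |⟨b_l, T b_k⟩|²` is symmetric -/
theorem hs_adjoint (b : HilbertBasis ι ℂ H) (T : H →L[ℂ] H) :
    hs b (ContinuousLinearMap.adjoint T) = hs b T := by
  unfold hs
  have h1 : ∀ k, ‖T (b k)‖ₑ ^ 2 = ∑' l, ‖(inner ℂ (b l) (T (b k)) : ℂ)‖ₑ ^ 2 :=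
    fun k => parseval_enorm b _
  have h2 : ∀ k, ‖(ContinuousLinearMap.adjoint T) (b k)‖ₑ ^ 2
      = ∑' l, ‖(inner ℂ (b k) (T (b l)) : ℂ)‖ₑ ^ 2 := by
    intro k
    rw [parseval_enorm b]
    refine tsum_congr fun l => ?_
    rw [ContinuousLinearMap.adjoint_inner_right, ← inner_conj_symm, ← ofReal_norm, ← ofReal_norm,
      RCLike.norm_conj]
  simp only [h1, h2]
  exact ENNReal.tsum_comm

omit [CompleteSpace H] in
theorem hs_comp_left (b : HilbertBasis ι ℂ H) (T U : H →L[ℂ] H) (hU : ∀ v, ‖U v‖ = ‖v‖) :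
    hs b (U.comp T) = hs b T := by
  unfold hs
  refine tsum_congr fun k => ?_
  rw [ContinuousLinearMap.comp_apply, ← ofReal_norm, hU, ofReal_norm]

/-- invariance on the right under a unitary operator `U` with inverse `V` -/
theorem hs_comp_right (b : HilbertBasis ι ℂ H) (T U V : H →L[ℂ] H) (hU : ∀ v, ‖U v‖ = ‖v‖)
    (hUV : U.comp V = ContinuousLinearMap.id ℂ H) (hVU : V.comp U = ContinuousLinearMap.id ℂ H) :
    hs b (T.comp U) = hs b T := by
  let L : H →ₗᵢ[ℂ] H := { toLinearMap := U.toLinearMap, norm_map' := hU }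
  have hin : ∀ u v, (inner ℂ (U u) (U v) : ℂ) = inner ℂ u v := fun u v => L.inner_map_map u v
  have hUV' : ∀ v, U (V v) = v := fun v => by
    rw [← ContinuousLinearMap.comp_apply, hUV, ContinuousLinearMap.id_apply]
  have hadj : ContinuousLinearMap.adjoint U = V := by
    refine ContinuousLinearMap.ext fun x => ?_
    refine ext_inner_left ℂ fun y => ?_
    rw [ContinuousLinearMap.adjoint_inner_right, ← hin y (V x), hUV']
  have hVnorm : ∀ v, ‖V v‖ = ‖v‖ := fun v => by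
    rw [← hU (V v), hUV']
  rw [← hs_adjoint b (T.comp U), ContinuousLinearMap.adjoint_comp, hadj,
    hs_comp_left b _ V hVnorm, hs_adjoint]

omit [CompleteSpace H] in
theorem hs_add_le (b : HilbertBasis ι ℂ H) (S T : H →L[ℂ] H) :
    hs b (S + T) ≤ 2 * hs b S + 2 * hs b T := by
  unfold hs
  rw [← ENNReal.tsum_mul_left, ← ENNReal.tsum_mul_left, ← ENNReal.tsum_add]
  refine ENNReal.tsum_le_tsum fun k => ?_
  have h1 : ‖(S + T) (b k)‖ ^ 2 ≤ 2 * ‖S (b k)‖ ^ 2 + 2 * ‖T (b k)‖ ^ 2 := by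
    have h2 : ‖(S + T) (b k)‖ ≤ ‖S (b k)‖ + ‖T (b k)‖ := by
      simpa using norm_add_le (S (b k)) (T (b k))
    have h3 := norm_nonneg ((S + T) (b k))
    nlinarith [sq_nonneg (‖S (b k)‖ - ‖T (b k)‖), norm_nonneg (S (b k)), norm_nonneg (T (b k))]
  have h4 := ENNReal.ofReal_le_ofReal h1
  rw [ENNReal.ofReal_add (by positivity) (by positivity), ENNReal.ofReal_mul (by norm_num),
    ENNReal.ofReal_mul (by norm_num), ENNReal.ofReal_pow (norm_nonneg _),
    ENNReal.ofReal_pow (norm_nonneg _), ENNReal.ofReal_pow (norm_nonneg _), ofReal_norm,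
    ofReal_norm, ofReal_norm] at h4
  simpa using h4

omit [CompleteSpace H] in
theorem hs_neg (b : HilbertBasis ι ℂ H) (T : H →L[ℂ] H) : hs b (-T) = hs b T := by
  unfold hs
  refine tsum_congr fun k => ?_
  simp

omit [CompleteSpace H] in
theorem hs_sub_le (b : HilbertBasis ι ℂ H) (S T : H →L[ℂ] H) :
    hs b (S - T) ≤ 2 * hs b S + 2 * hs b T := by
  have h := hs_add_le b S (-T)
  rwa [hs_neg, ← sub_eq_add_neg] at h

end Pool.Agent.H56.Q
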