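import Pool.Agent.H56.Q.Cla

/-! Module I: the differentials of `p1, p2` are linearly independent almost everywhere.

Good points `(x, ξ)`, `c = cell (proj x)`, `‖c‖ < 1/2`:
(i) `s < 2`, `c ≠ 0`, `ξ ≠ 0`: already the `ξ`-differentials are independent, as
`δη ↦ δΘ = (1-κs) δη - κ ȳ² δη̄` has determinant `1 - 2 κ s > 0` and
`δ(hh) = (3/8) y E Θ² δΘ`, `Θ ≠ 0`;
(ii) `s > 2` and `|c_i| ≠ 1/4` for both `i`: the `x`-differentials are independent: if both
`|c_i| < 1/4` then `det = ω² 4π² cos cos + 2 ω ω' 64 (..) > 0`; otherwise `ω = 1` near the point and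
`det = 4π² cos(2πc₀) cos(2πc₁) ≠ 0`.
The remaining points form a null set. -/

set_option autoImplicit false

open MeasureTheory Complex
open scoped ContDiff ComplexConjugate

noncomputable section

namespace Pool.Agent.H56.Q

/-- two functionals are independent if some `2 × 2` minor is nonzero -/
theorem indep_of_det {V : Type*} [NormedAddCommGroup V] [NormedSpace ℝ V] {f g : V →L[ℝ] ℝ}
    (v w : V) (h : f v * g w - f w * g v ≠ 0) : LinearIndependent ℝ ![f, g] := by
  rw [LinearIndependent.pair_iff]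
  intro s t hst
  have h1 : s * f v + t * g v = 0 := by
    have := congrArg (fun F : V →L[ℝ] ℝ => F v) hst
    simpa using this
  have h2 : s * f w + t * g w = 0 := by
    have := congrArg (fun F : V →L[ℝ] ℝ => F w) hst
    simpa using this
  constructor
  · have : s * (f v * g w - f w * g v) = 0 := by linear_combination g w * h1 - g v * h2
    exact (mul_eq_zero.1 this).resolve_right h
  · have : t * (f v * g w - f w * g v) = 0 := by linear_combination f v * h2 - f w * h1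
    exact (mul_eq_zero.1 this).resolve_right h

theorem ind_sC_contDiff : ContDiff ℝ ∞ sC := by
  unfold sC
  fun_prop

theorem sC_hasFDerivAt (c : E) (v : E) :
    fderiv ℝ sC c v = 128 * (c 0 * v 0 + c 1 * v 1) := by
  have h0 : HasFDerivAt (fun c : E => c 0) (ContinuousLinearMap.proj (R := ℝ) (φ := fun _ : Fin 2 => ℝ) 0) c :=
    (ContinuousLinearMap.proj (R := ℝ) (φ := fun _ : Fin 2 => ℝ) 0).hasFDerivAt
  have h1 : HasFDerivAt (fun c : E => c 1) (ContinuousLinearMap.proj (R := ℝ) (φ := fun _ : Fin 2 => ℝ) 1) c :=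
    (ContinuousLinearMap.proj (R := ℝ) (φ := fun _ : Fin 2 => ℝ) 1).hasFDerivAt
  have h := ((h0.pow 2).add (h1.pow 2)).const_mul 64
  have : fderiv ℝ sC c = _ := h.fderiv
  rw [this]
  simp
  ring

/-- the base part -/
def bs (i : Fin 2) (c : E) : ℝ := om (sC c) * Real.sin (2 * Real.pi * c i)

theorem bs_contDiff (i : Fin 2) : ContDiff ℝ ∞ (bs i) := by
  unfold bs
  have h1 : ContDiff ℝ ∞ (fun c : E => om (sC c)) := om_contDiff.comp ind_sC_contDiff
  have h2 : ContDiff ℝ ∞ (fun c : E => Real.sin (2 * Real.pi * c i)) := by fun_prop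
  exact h1.mul h2

theorem bs_fderiv (i : Fin 2) (c v : E) :
    fderiv ℝ (bs i) c v = om (sC c) * (2 * Real.pi * v i * Real.cos (2 * Real.pi * c i))
      + deriv om (sC c) * (128 * (c 0 * v 0 + c 1 * v 1)) * Real.sin (2 * Real.pi * c i) := by
  have hs : HasFDerivAt sC (fderiv ℝ sC c) c :=
    (ind_sC_contDiff.differentiable (by simp)).differentiableAt.hasFDerivAt
  have ho : HasDerivAt om (deriv om (sC c)) (sC c) :=
    (om_contDiff.differentiable (by simp)).differentiableAt.hasDerivAt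
  have h1 : HasFDerivAt (fun c : E => om (sC c)) (deriv om (sC c) • fderiv ℝ sC c) c :=
    ho.comp_hasFDerivAt c hs
  have h0 : HasFDerivAt (fun c : E => c i) (ContinuousLinearMap.proj (R := ℝ) (φ := fun _ : Fin 2 => ℝ) i) c :=
    (ContinuousLinearMap.proj (R := ℝ) (φ := fun _ : Fin 2 => ℝ) i).hasFDerivAt
  have h2 := (h0.const_mul (2 * Real.pi)).sin
  have h := h1.mul h2
  have : fderiv ℝ (bs i) c = _ := h.fderiv
  rw [this]
  simp [sC_hasFDerivAt]
  ring

/-- the combined smooth function in cell coordinates -/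
theorem p1c_contDiff : ContDiff ℝ ∞ (fun z : E × E => p1c z.1 z.2) := by
  unfold p1c
  have h1 : ContDiff ℝ ∞ (fun z : E × E => (hh z.1 z.2).re) :=
    Complex.reCLM.contDiff.comp hh_contDiff
  have h2 : ContDiff ℝ ∞ (fun z : E × E => bs 0 z.1) := (bs_contDiff 0).comp contDiff_fst
  exact h1.add h2

theorem p2c_contDiff : ContDiff ℝ ∞ (fun z : E × E => p2c z.1 z.2) := by
  unfold p2c
  have h1 : ContDiff ℝ ∞ (fun z : E × E => (hh z.1 z.2).im) :=
    Complex.imCLM.contDiff.comp hh_contDiff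
  have h2 : ContDiff ℝ ∞ (fun z : E × E => bs 1 z.1) := (bs_contDiff 1).comp contDiff_fst
  exact h1.add h2

/-- passing to cell coordinates -/
theorem fderiv_cellc (g : E → E → ℝ) {x ξ : E} (h : ‖cell (proj x)‖ < 1 / 2) :
    fderiv ℝ (fun w : E × E => g (cell (proj w.1)) w.2) (x, ξ)
      = fderiv ℝ (fun z : E × E => g z.1 z.2) (cell (proj x), ξ) := by
  have h1 : (fun w : E × E => g (cell (proj w.1)) w.2) =ᶠ[nhds (x, ξ)]
      (fun w : E × E => g (w.1 + (cell (proj x) - x)) w.2) := by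
    have h2 := cell_eventually h
    have h3 : ∀ᶠ w : E × E in nhds (x, ξ), cell (proj w.1) = cell (proj x) + (w.1 - x) :=
      (continuous_fst.tendsto (x, ξ)).eventually h2
    filter_upwards [h3] with w hw
    rw [hw]
    congr 1
    abel
  rw [h1.fderiv_eq]
  have h4 : (fun w : E × E => g (w.1 + (cell (proj x) - x)) w.2)
      = (fun w : E × E => (fun z : E × E => g z.1 z.2) (w + ((cell (proj x) - x), 0))) := by
    funext w
    simp
  rw [h4, fderiv_comp_add_right (f := fun z : E × E => g z.1 z.2) (cell (proj x) - x, 0)]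
  congr 1
  ext1
  · simp
  · simp

theorem Th_line (c ξ v : E) (t : ℝ) : Th c (ξ + t • v) = Th c ξ + (t : ℂ) * Th c v := by
  have h : eta (ξ + t • v) = eta ξ + (t : ℂ) * eta v := by
    simp [eta]
    ring
  unfold Th
  rw [h]
  simp
  ring

theorem hh_line (c ξ v : E) :
    HasDerivAt (fun t : ℝ => hh c (ξ + t • v))
      ((1 / 8) * yC c * (EE (sC c) : ℂ) * (3 * Th c ξ ^ 2 * Th c v)) 0 := by
  have h1 : HasDerivAt (fun t : ℝ => Th c ξ + (t : ℂ) * Th c v) (Th c v) 0 := by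
    have h2 : HasDerivAt (fun t : ℝ => (t : ℂ)) 1 0 := Complex.ofRealCLM.hasDerivAt
    simpa using (h2.mul_const (Th c v)).const_add (Th c ξ)
  have h3 := (h1.pow 3).const_mul ((1 / 8) * yC c * (EE (sC c) : ℂ))
  have h4 : (fun t : ℝ => hh c (ξ + t • v)) = fun t : ℝ =>
      ((1 / 8) * yC c * (EE (sC c) : ℂ)) * (Th c ξ + (t : ℂ) * Th c v) ^ 3 := by
    funext t
    unfold hh
    rw [Th_line]
  rw [h4]
  refine h3.congr_deriv ?_
  simp

theorem fderiv_p1c_snd (c ξ v : E) :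
    fderiv ℝ (fun z : E × E => p1c z.1 z.2) (c, ξ) (0, v)
      = ((1 / 8) * yC c * (EE (sC c) : ℂ) * (3 * Th c ξ ^ 2 * Th c v)).re := by
  have hd : DifferentiableAt ℝ (fun z : E × E => p1c z.1 z.2) (c, ξ) :=
    (p1c_contDiff.differentiable (by simp)).differentiableAt
  rw [← hd.lineDeriv_eq_fderiv]
  have h := (Complex.reCLM.hasFDerivAt (x := hh c (ξ + (0 : ℝ) • v))).comp_hasDerivAt (0 : ℝ) (hh_line c ξ v)
  have h2 := h.add_const (om (sC c) * Real.sin (2 * Real.pi * c 0))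
  have h3 : HasLineDerivAt ℝ (fun z : E × E => p1c z.1 z.2)
      ((1 / 8) * yC c * (EE (sC c) : ℂ) * (3 * Th c ξ ^ 2 * Th c v)).re (c, ξ) (0, v) := by
    unfold HasLineDerivAt
    convert h2 using 2
    all_goals first | rfl | simp [p1c]
  exact h3.lineDeriv

theorem fderiv_p2c_snd (c ξ v : E) :
    fderiv ℝ (fun z : E × E => p2c z.1 z.2) (c, ξ) (0, v)
      = ((1 / 8) * yC c * (EE (sC c) : ℂ) * (3 * Th c ξ ^ 2 * Th c v)).im := by
  have hd : DifferentiableAt ℝ (fun z : E × E => p2c z.1 z.2) (c, ξ) :=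
    (p2c_contDiff.differentiable (by simp)).differentiableAt
  rw [← hd.lineDeriv_eq_fderiv]
  have h := (Complex.imCLM.hasFDerivAt (x := hh c (ξ + (0 : ℝ) • v))).comp_hasDerivAt (0 : ℝ) (hh_line c ξ v)
  have h2 := h.add_const (om (sC c) * Real.sin (2 * Real.pi * c 1))
  have h3 : HasLineDerivAt ℝ (fun z : E × E => p2c z.1 z.2)
      ((1 / 8) * yC c * (EE (sC c) : ℂ) * (3 * Th c ξ ^ 2 * Th c v)).im (c, ξ) (0, v) := by
    unfold HasLineDerivAt
    convert h2 using 2
    all_goals first | rfl | simp [p2c]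
  exact h3.lineDeriv

theorem normSq_yC (c : E) : normSq (yC c) = sC c := by
  simp [yC, sC, normSq_apply]
  ring

theorem sC_nonneg (c : E) : 0 ≤ sC c := by
  unfold sC
  positivity

theorem Th_det (c : E) :
    (conj (Th c (Pi.single 0 1)) * Th c (Pi.single 1 1)).im = -(1 - 2 * kap (sC c) * sC c) / 4 := by
  have hy := normSq_yC c
  rw [normSq_apply] at hy
  have e0 : eta (Pi.single 0 1) = ⟨1 / 2, 0⟩ := by
    apply Complex.ext <;> simp [eta]
  have e1 : eta (Pi.single 1 1) = ⟨0, -1 / 2⟩ := by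
    apply Complex.ext <;> simp [eta]
  unfold Th
  rw [e0, e1]
  generalize yC c = y at *
  generalize kap (sC c) = k at *
  generalize sC c = s at *
  obtain ⟨a, b⟩ := y
  simp at hy
  subst hy
  simp [pow_two]
  ring

theorem Th_ne (c ξ : E) (hs : sC c < 2) (hξ : ξ ≠ 0) : Th c ξ ≠ 0 := by
  intro h
  have hη : eta ξ ≠ 0 := by
    intro h0
    apply hξ
    have h1 : ((ξ 0 : ℂ) - (ξ 1 : ℂ) * I) = 0 := by
      have := h0
      unfold eta at this
      simpa using this
    have hr := congrArg Complex.re h1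
    have hi := congrArg Complex.im h1
    simp at hr hi
    ext i
    fin_cases i
    · simpa using hr
    · simpa using hi
  have h1 : (1 - (kap (sC c) : ℂ) * (sC c : ℂ)) * eta ξ
      = (kap (sC c) : ℂ) * conj (yC c) ^ 2 * conj (eta ξ) := by
    unfold Th at h
    linear_combination h
  have h2 := congrArg normSq h1
  simp only [map_mul, map_pow, normSq_conj] at h2
  rw [normSq_yC] at h2
  have h3 : normSq (1 - (kap (sC c) : ℂ) * (sC c : ℂ)) = (1 - kap (sC c) * sC c) ^ 2 := by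
    rw [show (1 - (kap (sC c) : ℂ) * (sC c : ℂ)) = (((1 - kap (sC c) * sC c : ℝ)) : ℂ) by push_cast; ring]
    rw [normSq_ofReal]
    ring
  rw [h3, normSq_ofReal] at h2
  have h4 : 0 < normSq (eta ξ) := normSq_pos.2 hη
  have h5 : (1 - kap (sC c) * sC c) ^ 2 = kap (sC c) * kap (sC c) * sC c ^ 2 :=
    mul_right_cancel₀ h4.ne' h2
  have h6 := kap_lt (sC_nonneg c) hs
  nlinarith

theorem indep_inner {x ξ : E} (h : ‖cell (proj x)‖ < 1 / 2) (hs : sC (cell (proj x)) < 2)
    (hc : cell (proj x) ≠ 0) (hξ : ξ ≠ 0) :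
    LinearIndependent ℝ
      ![fderiv ℝ (fun w : E × E => p1 (proj w.1) w.2) (x, ξ),
        fderiv ℝ (fun w : E × E => p2 (proj w.1) w.2) (x, ξ)] := by
  have e1 : fderiv ℝ (fun w : E × E => p1 (proj w.1) w.2) (x, ξ) = _ := fderiv_cellc p1c h
  have e2 : fderiv ℝ (fun w : E × E => p2 (proj w.1) w.2) (x, ξ) = _ := fderiv_cellc p2c h
  rw [e1, e2]
  apply indep_of_det (0, Pi.single 0 1) (0, Pi.single 1 1)
  rw [fderiv_p1c_snd, fderiv_p1c_snd, fderiv_p2c_snd, fderiv_p2c_snd]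
  set c := cell (proj x)
  have hK : (1 / 8) * yC c * (EE (sC c) : ℂ) * (3 * Th c ξ ^ 2) ≠ 0 := by
    have hy : yC c ≠ 0 := by
      intro h0
      apply hc
      have h1 : ((c 0 : ℂ) + (c 1 : ℂ) * I) = 0 := by
        have := h0
        unfold yC at this
        simpa using this
      have hr := congrArg Complex.re h1
      have hi := congrArg Complex.im h1
      simp at hr hi
      ext i
      fin_cases i
      · simpa using hr
      · simpa using hi
    have hE : (EE (sC c) : ℂ) ≠ 0 := by exact_mod_cast (EE_pos hs).ne'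
    have hT := Th_ne c ξ hs hξ
    exact mul_ne_zero (mul_ne_zero (mul_ne_zero (by norm_num) hy) hE)
      (mul_ne_zero (by norm_num) (pow_ne_zero _ hT))
  have hdet := Th_det c
  have h6 := kap_lt (sC_nonneg c) hs
  have key : ∀ K A B : ℂ, (K * A).re * (K * B).im - (K * B).re * (K * A).im
      = normSq K * (conj A * B).im := by
    intro K A B
    simp [normSq_apply]
    ring
  have r1 : ∀ B : ℂ, (1 / 8) * yC c * (EE (sC c) : ℂ) * (3 * Th c ξ ^ 2 * B)
      = ((1 / 8) * yC c * (EE (sC c) : ℂ) * (3 * Th c ξ ^ 2)) * B := by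
    intro B
    ring
  rw [r1, r1, key, hdet]
  apply mul_ne_zero (normSq_pos.2 hK).ne'
  have : 0 < 1 - 2 * kap (sC c) * sC c := by linarith
  intro h0
  linarith

theorem fderiv_p1c_fst {c : E} (ξ v : E) (hs : 2 < sC c) :
    fderiv ℝ (fun z : E × E => p1c z.1 z.2) (c, ξ) (v, 0) = fderiv ℝ (bs 0) c v := by
  have hopen : ∀ᶠ z : E × E in nhds (c, ξ), 2 < sC z.1 := by
    have h1 : ∀ᶠ y : E in nhds c, 2 < sC y :=
      (ind_sC_contDiff.continuous.tendsto c).eventually (lt_mem_nhds hs)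
    exact (continuous_fst.tendsto (c, ξ)).eventually h1
  have he : (fun z : E × E => p1c z.1 z.2) =ᶠ[nhds (c, ξ)] fun z : E × E => bs 0 z.1 := by
    filter_upwards [hopen] with z hz
    simp [p1c, bs, hh_zero hz.le]
  rw [he.fderiv_eq]
  have hb : HasFDerivAt (bs 0) (fderiv ℝ (bs 0) c) ((c, ξ) : E × E).1 :=
    ((bs_contDiff 0).differentiable (by simp)).differentiableAt.hasFDerivAt
  have h2 : HasFDerivAt (fun z : E × E => bs 0 z.1)
      ((fderiv ℝ (bs 0) c).comp (ContinuousLinearMap.fst ℝ E E)) (c, ξ) :=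
    hb.comp (c, ξ) hasFDerivAt_fst
  rw [h2.fderiv]
  simp

theorem fderiv_p2c_fst {c : E} (ξ v : E) (hs : 2 < sC c) :
    fderiv ℝ (fun z : E × E => p2c z.1 z.2) (c, ξ) (v, 0) = fderiv ℝ (bs 1) c v := by
  have hopen : ∀ᶠ z : E × E in nhds (c, ξ), 2 < sC z.1 := by
    have h1 : ∀ᶠ y : E in nhds c, 2 < sC y :=
      (ind_sC_contDiff.continuous.tendsto c).eventually (lt_mem_nhds hs)
    exact (continuous_fst.tendsto (c, ξ)).eventually h1
  have he : (fun z : E × E => p2c z.1 z.2) =ᶠ[nhds (c, ξ)] fun z : E × E => bs 1 z.1 := by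
    filter_upwards [hopen] with z hz
    simp [p2c, bs, hh_zero hz.le]
  rw [he.fderiv_eq]
  have hb : HasFDerivAt (bs 1) (fderiv ℝ (bs 1) c) ((c, ξ) : E × E).1 :=
    ((bs_contDiff 1).differentiable (by simp)).differentiableAt.hasFDerivAt
  have h2 : HasFDerivAt (fun z : E × E => bs 1 z.1)
      ((fderiv ℝ (bs 1) c).comp (ContinuousLinearMap.fst ℝ E E)) (c, ξ) :=
    hb.comp (c, ξ) hasFDerivAt_fst
  rw [h2.fderiv]
  simp

theorem om_deriv_zero {s : ℝ} (h : 3 < s) : deriv om s = 0 := by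
  have : om =ᶠ[nhds s] fun _ => 1 := by
    filter_upwards [lt_mem_nhds h] with t ht
    exact om_one (le_of_lt ht)
  rw [this.deriv_eq]
  simp

theorem indep_outer {x ξ : E} (h : ‖cell (proj x)‖ < 1 / 2) (hs : 2 < sC (cell (proj x)))
    (hc : ∀ i, |cell (proj x) i| ≠ 1 / 4) :
    LinearIndependent ℝ
      ![fderiv ℝ (fun w : E × E => p1 (proj w.1) w.2) (x, ξ),
        fderiv ℝ (fun w : E × E => p2 (proj w.1) w.2) (x, ξ)] := by
  have e1 : fderiv ℝ (fun w : E × E => p1 (proj w.1) w.2) (x, ξ) = _ := fderiv_cellc p1c h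
  have e2 : fderiv ℝ (fun w : E × E => p2 (proj w.1) w.2) (x, ξ) = _ := fderiv_cellc p2c h
  rw [e1, e2]
  apply indep_of_det (Pi.single 0 1, 0) (Pi.single 1 1, 0)
  rw [fderiv_p1c_fst _ _ hs, fderiv_p1c_fst _ _ hs, fderiv_p2c_fst _ _ hs, fderiv_p2c_fst _ _ hs]
  rw [bs_fderiv, bs_fderiv, bs_fderiv, bs_fderiv]
  have hn : ∀ i, |cell (proj x) i| < 1 / 2 := fun i => lt_of_le_of_lt (norm_le_pi_norm (cell (proj x)) i) h
  set c := cell (proj x)
  have hpi := Real.pi_pos
  -- cosines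
  have hcos : ∀ i, |c i| < 1 / 4 → 0 < Real.cos (2 * Real.pi * c i) := by
    intro i hi
    rw [abs_lt] at hi
    apply Real.cos_pos_of_mem_Ioo
    constructor <;> nlinarith
  have hcos' : ∀ i, 1 / 4 < |c i| → Real.cos (2 * Real.pi * c i) < 0 := by
    intro i hi
    have h2 := hn i
    rw [← Real.cos_abs]
    have h3 : |2 * Real.pi * c i| = 2 * Real.pi * |c i| := by
      rw [abs_mul, abs_of_pos (by positivity)]
    rw [h3]
    apply Real.cos_neg_of_pi_div_two_lt_of_lt <;> nlinarith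
  have hne : ∀ i, Real.cos (2 * Real.pi * c i) ≠ 0 := by
    intro i
    rcases lt_or_gt_of_ne (hc i) with h1 | h1
    · exact (hcos i h1).ne'
    · exact (hcos' i h1).ne
  have hsin : ∀ i, |c i| < 1 / 2 → 0 ≤ c i * Real.sin (2 * Real.pi * c i) := by
    intro i hi
    rw [abs_lt] at hi
    rcases le_total 0 (c i) with h1 | h1
    · exact mul_nonneg h1 (Real.sin_nonneg_of_nonneg_of_le_pi (by positivity) (by nlinarith))
    · have : Real.sin (2 * Real.pi * c i) ≤ 0 :=
        Real.sin_nonpos_of_nonpos_of_neg_pi_le (by nlinarith) (by nlinarith)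
      exact mul_nonneg_of_nonpos_of_nonpos h1 this
  by_cases hq : |c 0| < 1 / 4 ∧ |c 1| < 1 / 4
  · have c0 := hcos 0 hq.1
    have c1 := hcos 1 hq.2
    have s0 := hsin 0 (hn 0)
    have s1 := hsin 1 (hn 1)
    have hom := om_pos hs
    have hom' := om_deriv_nonneg (sC c)
    simp only [Pi.single_eq_same, Pi.single_eq_of_ne (one_ne_zero : (1 : Fin 2) ≠ 0),
      Pi.single_eq_of_ne (zero_ne_one : (0 : Fin 2) ≠ 1)]
    have : 0 < om (sC c) ^ 2 * (2 * Real.pi) ^ 2 * (Real.cos (2 * Real.pi * c 0) * Real.cos (2 * Real.pi * c 1))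
        + om (sC c) * deriv om (sC c) * (2 * Real.pi) * 128 *
          (Real.cos (2 * Real.pi * c 0) * (c 1 * Real.sin (2 * Real.pi * c 1))
          + Real.cos (2 * Real.pi * c 1) * (c 0 * Real.sin (2 * Real.pi * c 0))) := by
      positivity
    apply ne_of_gt
    refine lt_of_lt_of_eq this ?_
    ring
  · have h3 : 3 < sC c := by
      unfold sC
      have : 1 / 4 < |c 0| ∨ 1 / 4 < |c 1| := by
        by_contra hcon
        push Not at hcon
        exact hq ⟨lt_of_le_of_ne hcon.1 (hc 0), lt_of_le_of_ne hcon.2 (hc 1)⟩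
      rcases this with h1 | h1
      · have : 1 / 16 < c 0 ^ 2 := by
          rw [← sq_abs]
          nlinarith
        nlinarith [sq_nonneg (c 1)]
      · have : 1 / 16 < c 1 ^ 2 := by
          rw [← sq_abs]
          nlinarith
        nlinarith [sq_nonneg (c 0)]
    rw [om_one h3.le, om_deriv_zero h3]
    simp only [Pi.single_eq_same, Pi.single_eq_of_ne (one_ne_zero : (1 : Fin 2) ≠ 0),
      Pi.single_eq_of_ne (zero_ne_one : (0 : Fin 2) ≠ 1)]
    have : (2 * Real.pi) ^ 2 * (Real.cos (2 * Real.pi * c 0) * Real.cos (2 * Real.pi * c 1)) ≠ 0 :=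
      mul_ne_zero (by positivity) (mul_ne_zero (hne 0) (hne 1))
    intro h0
    apply this
    rw [← h0]
    ring

/-- coordinate hyperplanes are null sets -/
theorem ae_coord_ne (i : Fin 2) (q : ℝ) : ∀ᵐ x : E, x i ≠ q := by
  have h : (volume : Measure E) {x | x i = q} = 0 := by
    have := MeasureTheory.Measure.pi_hyperplane (fun _ : Fin 2 => (volume : Measure ℝ)) i q
    simpa [MeasureTheory.volume_pi] using this
  rw [ae_iff]
  simpa using h

/-- circles are null sets -/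
theorem ae_circle_ne (a b : ℝ) : ∀ᵐ x : E, 64 * ((x 0 - a) ^ 2 + (x 1 - b) ^ 2) ≠ 2 := by
  have hmp := MeasureTheory.volume_preserving_finTwoArrow ℝ
  have h2 : ∀ᵐ z : ℝ × ℝ, 64 * ((z.1 - a) ^ 2 + (z.2 - b) ^ 2) ≠ 2 := by
    rw [ae_iff]
    have hm : MeasurableSet {z : ℝ × ℝ | ¬ (64 * ((z.1 - a) ^ 2 + (z.2 - b) ^ 2) ≠ 2)} := by
      apply IsClosed.measurableSet
      simp only [ne_eq, not_not]
      exact isClosed_eq (by fun_prop) continuous_const
    rw [MeasureTheory.Measure.volume_eq_prod, MeasureTheory.Measure.measure_prod_null hm]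
    filter_upwards with t
    apply Set.Finite.measure_zero
    apply ((Set.finite_singleton (b + Real.sqrt (1 / 32 - (t - a) ^ 2))).insert
      (b - Real.sqrt (1 / 32 - (t - a) ^ 2))).subset
    intro u hu
    simp only [ne_eq, not_not, Set.mem_preimage, Set.mem_ofPred_eq] at hu
    simp only [Set.mem_insert_iff, Set.mem_singleton_iff]
    have h1 : (u - b) ^ 2 = 1 / 32 - (t - a) ^ 2 := by linarith
    have h3 : Real.sqrt (1 / 32 - (t - a) ^ 2) = |u - b| := by
      rw [← h1, Real.sqrt_sq_eq_abs]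
    rw [h3]
    rcases abs_cases (u - b) with ⟨h4, _⟩ | ⟨h4, _⟩
    · right; rw [h4]; ring
    · left; rw [h4]; ring
  have h3 := hmp.quasiMeasurePreserving.ae h2
  filter_upwards [h3] with x hx
  simpa [MeasurableEquiv.finTwoArrow] using hx

/-- the bad points form a null set -/
theorem bad_null : ∀ᵐ z : E × E, ‖cell (proj z.1)‖ < 1 / 2 ∧ sC (cell (proj z.1)) ≠ 2 ∧
    cell (proj z.1) ≠ 0 ∧ z.2 ≠ 0 ∧ ∀ i, |cell (proj z.1) i| ≠ 1 / 4 := by
  have h1 : ∀ᵐ x : E, ∀ (n : Fin 2 → ℤ) (i : Fin 2), x i ≠ 1 / 2 + n i ∧ x i ≠ -1 / 2 + n i ∧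
      x i ≠ 1 / 4 + n i ∧ x i ≠ -1 / 4 + n i ∧ x i ≠ n i := by
    rw [ae_all_iff]
    intro n
    rw [ae_all_iff]
    intro i
    filter_upwards [ae_coord_ne i (1 / 2 + n i), ae_coord_ne i (-1 / 2 + n i),
      ae_coord_ne i (1 / 4 + n i), ae_coord_ne i (-1 / 4 + n i), ae_coord_ne i (n i)] with x a b c d e
    exact ⟨a, b, c, d, e⟩
  have h2 : ∀ᵐ x : E, ∀ (n : Fin 2 → ℤ), 64 * ((x 0 - n 0) ^ 2 + (x 1 - n 1) ^ 2) ≠ 2 := by
    rw [ae_all_iff]
    intro n
    exact ae_circle_ne _ _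
  have h3 : ∀ᵐ x : E, ‖cell (proj x)‖ < 1 / 2 ∧ sC (cell (proj x)) ≠ 2 ∧
      cell (proj x) ≠ 0 ∧ ∀ i, |cell (proj x) i| ≠ 1 / 4 := by
    filter_upwards [h1, h2] with x hx1 hx2
    obtain ⟨n, hn⟩ := exists_int x
    refine ⟨?_, ?_, ?_, ?_⟩
    · rw [pi_norm_lt_iff (by norm_num)]
      intro i
      have hm := cell_mem (proj x) i
      rw [Real.norm_eq_abs, abs_lt]
      refine ⟨by linarith [hm.1], lt_of_le_of_ne hm.2 ?_⟩
      intro h0
      exact (hx1 n i).1 (by linarith [hn i])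
    · unfold sC
      rw [hn 0, hn 1]
      exact hx2 n
    · intro h0
      have := congrFun h0 0
      rw [hn 0] at this
      exact (hx1 n 0).2.2.2.2 (by simpa [sub_eq_zero] using this)
    · intro i h0
      rcases abs_eq (by norm_num : (0 : ℝ) ≤ 1 / 4) |>.1 h0 with h4 | h4
      · exact (hx1 n i).2.2.1 (by linarith [hn i])
      · exact (hx1 n i).2.2.2.1 (by linarith [hn i])
  have h4 : ∀ᵐ ξ : E, ξ ≠ 0 := by
    filter_upwards [ae_coord_ne 0 0] with ξ hξ h0
    exact hξ (by rw [h0]; rfl)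
  have h5 : ∀ᵐ z : E × E, ‖cell (proj z.1)‖ < 1 / 2 ∧ sC (cell (proj z.1)) ≠ 2 ∧
      cell (proj z.1) ≠ 0 ∧ ∀ i, |cell (proj z.1) i| ≠ 1 / 4 :=
    MeasureTheory.Measure.quasiMeasurePreserving_fst.ae h3
  have h6 : ∀ᵐ z : E × E, z.2 ≠ 0 := MeasureTheory.Measure.quasiMeasurePreserving_snd.ae h4
  filter_upwards [h5, h6] with z a b
  exact ⟨a.1, a.2.1, a.2.2.1, b, a.2.2.2⟩

theorem p_indep : ∀ᵐ z : E × E, LinearIndependent ℝ
    ![fderiv ℝ (fun w : E × E => p1 (proj w.1) w.2) z,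
      fderiv ℝ (fun w : E × E => p2 (proj w.1) w.2) z] := by
  filter_upwards [bad_null] with z hz
  obtain ⟨h1, h2, h3, h4, h5⟩ := hz
  rcases lt_or_gt_of_ne h2 with h | h
  · exact indep_inner h1 h h3 h4
  · exact indep_outer h1 h h5

end Pool.Agent.H56.Q
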