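import Pool.Agent.H56.Q.Sys

/-! Module K: the one-variable functions `EE`, `kap`, `om`.
`A = expNegInvGlue (2-s)`, `B = expNegInvGlue (s-1)`, `EE = A/(A+B)`,
`deriv expNegInvGlue x = expNegInvGlue x / x²` for `x > 0` (and `0` for `x ≤ 0`). -/

set_option autoImplicit false

open scoped ContDiff

noncomputable section

namespace Pool.Agent.H56.Q

/-! ### the function `expNegInvGlue` -/

theorem glue_hasDerivAt (x : ℝ) :
    HasDerivAt expNegInvGlue ((x⁻¹) ^ 2 * expNegInvGlue x) x := by
  have h := expNegInvGlue.hasDerivAt_polynomial_eval_inv_mul 1 x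
  simpa using h

theorem glue_deriv (x : ℝ) : deriv expNegInvGlue x = (x⁻¹) ^ 2 * expNegInvGlue x :=
  (glue_hasDerivAt x).deriv

theorem glue_deriv_nonneg (x : ℝ) : 0 ≤ deriv expNegInvGlue x := by
  rw [glue_deriv]
  exact mul_nonneg (by positivity) (expNegInvGlue.nonneg x)

theorem glue_deriv_contDiff : ContDiff ℝ ∞ (deriv expNegInvGlue) := by
  have h := (expNegInvGlue.contDiff (n := ((⊤ : ℕ∞)))).iterate_deriv 1
  simpa using h

/-- the denominator `A + B` is positive -/
theorem AB_pos (s : ℝ) : 0 < expNegInvGlue (2 - s) + expNegInvGlue (s - 1) := by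
  have h := Real.smoothTransition.pos_denom (2 - s)
  rwa [show 1 - (2 - s) = s - 1 by ring] at h

theorem EE_eq (s : ℝ) :
    EE s = expNegInvGlue (2 - s) / (expNegInvGlue (2 - s) + expNegInvGlue (s - 1)) := by
  unfold EE Real.smoothTransition
  rw [show 1 - (2 - s) = s - 1 by ring]

theorem EE_contDiff : ContDiff ℝ ∞ EE := by
  unfold EE
  exact Real.smoothTransition.contDiff.comp (contDiff_const.sub contDiff_id)

theorem EE_one {s : ℝ} (h : s ≤ 1) : EE s = 1 :=
  Real.smoothTransition.one_of_one_le (by linarith)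

theorem EE_zero {s : ℝ} (h : 2 ≤ s) : EE s = 0 :=
  Real.smoothTransition.zero_of_nonpos (by linarith)

theorem EE_pos {s : ℝ} (h : s < 2) : 0 < EE s :=
  Real.smoothTransition.pos_of_pos (by linarith)

theorem NN_nonneg (s : ℝ) : 0 ≤ NN s := by
  unfold NN
  refine div_nonneg (add_nonneg (expNegInvGlue.nonneg _) (mul_nonneg (by positivity)
    (glue_deriv_nonneg _))) (AB_pos s).le

theorem NN_zero {s : ℝ} (h : s ≤ 1) : NN s = 0 := by
  unfold NN
  rw [glue_deriv, expNegInvGlue.zero_of_nonpos (x := s - 1) (by linarith)]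
  simp

theorem NN_two : NN 2 = 1 := by
  unfold NN
  rw [show (2 : ℝ) - 2 = 0 by norm_num, show (2 : ℝ) - 1 = 1 by norm_num, expNegInvGlue.zero]
  have h : expNegInvGlue 1 ≠ 0 := (expNegInvGlue.pos_of_pos one_pos).ne'
  field_simp
  ring

theorem sNN_nonneg (s : ℝ) : 0 ≤ s * NN s := by
  rcases le_or_gt s 1 with h | h
  · rw [NN_zero h, mul_zero]
  · exact mul_nonneg (by linarith) (NN_nonneg s)

theorem den_pos (s : ℝ) : 0 < (2 - s) ^ 2 + s * NN s := by
  rcases eq_or_ne s 2 with h | h
  · subst h
    rw [NN_two]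
    norm_num
  · have h2 : (2 - s) ≠ 0 := sub_ne_zero.2 (Ne.symm h)
    have h3 : 0 < (2 - s) ^ 2 := by positivity
    have h4 := sNN_nonneg s
    linarith

theorem NN_contDiff : ContDiff ℝ ∞ NN := by
  unfold NN
  refine ContDiff.div ?_ ?_ (fun s => (AB_pos s).ne')
  · refine ContDiff.add ?_ (ContDiff.mul ?_ ?_)
    · exact expNegInvGlue.contDiff.comp (contDiff_id.sub contDiff_const)
    · exact (contDiff_const.sub contDiff_id).pow 2
    · exact glue_deriv_contDiff.comp (contDiff_id.sub contDiff_const)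
  · refine ContDiff.add ?_ ?_
    · exact expNegInvGlue.contDiff.comp (contDiff_const.sub contDiff_id)
    · exact expNegInvGlue.contDiff.comp (contDiff_id.sub contDiff_const)

theorem kap_contDiff : ContDiff ℝ ∞ kap := by
  unfold kap
  refine ContDiff.div NN_contDiff ?_ (fun s => ?_)
  · refine contDiff_const.mul (ContDiff.add ((contDiff_const.sub contDiff_id).pow 2)
      (contDiff_id.mul NN_contDiff))
  · have := den_pos s
    positivity

theorem kap_zero {s : ℝ} (h : s ≤ 1) : kap s = 0 := by
  unfold kap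
  rw [NN_zero h, zero_div]

theorem kap_nonneg (s : ℝ) : 0 ≤ kap s := by
  unfold kap
  have := den_pos s
  exact div_nonneg (NN_nonneg s) (by positivity)

theorem kap_lt {s : ℝ} (_h0 : 0 ≤ s) (h : s < 2) : 2 * kap s * s < 1 := by
  have hd := den_pos s
  have h2 : 0 < (2 - s) ^ 2 := by
    have : 0 < 2 - s := by linarith
    positivity
  have he : 2 * kap s * s = s * NN s / ((2 - s) ^ 2 + s * NN s) := by
    unfold kap
    field_simp
  rw [he, div_lt_one hd]
  linarith

/-- `- E' = (f'(2-s) B + A f'(s-1)) / (A + B)²` -/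
theorem EE_hasDerivAt (s : ℝ) :
    HasDerivAt EE (-((((2 - s)⁻¹) ^ 2 * expNegInvGlue (2 - s) * expNegInvGlue (s - 1)
      + expNegInvGlue (2 - s) * deriv expNegInvGlue (s - 1))
        / (expNegInvGlue (2 - s) + expNegInvGlue (s - 1)) ^ 2)) s := by
  have hE : EE = fun s => expNegInvGlue (2 - s) / (expNegInvGlue (2 - s) + expNegInvGlue (s - 1)) :=
    funext EE_eq
  rw [hE]
  have h1 : HasDerivAt (fun s : ℝ => expNegInvGlue (2 - s))
      (((2 - s)⁻¹) ^ 2 * expNegInvGlue (2 - s) * (-1)) s := by
    have := (glue_hasDerivAt (2 - s)).comp s ((hasDerivAt_id s).const_sub 2)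
    exact this
  have h2 : HasDerivAt (fun s : ℝ => expNegInvGlue (s - 1))
      (deriv expNegInvGlue (s - 1) * 1) s := by
    have h0 : HasDerivAt expNegInvGlue (deriv expNegInvGlue (s - 1)) (s - 1) := by
      rw [glue_deriv]; exact glue_hasDerivAt _
    exact h0.comp s ((hasDerivAt_id s).sub_const 1)
  have hAB := (AB_pos s).ne'
  refine (h1.div (h1.add h2) hAB).congr_deriv ?_
  rw [← neg_div]
  simp only [Pi.add_apply]
  congr 1
  ring

/-- the basic relation -/
theorem kap_rel (s : ℝ) : 2 * kap s * (EE s - s * deriv EE s) = - deriv EE s := by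
  rw [(EE_hasDerivAt s).deriv]
  rcases le_or_gt 2 s with h | h
  · rw [EE_zero h, expNegInvGlue.zero_of_nonpos (x := 2 - s) (by linarith)]
    simp
  · have h2 : (2 - s) ≠ 0 := by
      intro h0
      linarith
    have hd := (den_pos s).ne'
    have hAB := (AB_pos s).ne'
    rw [EE_eq]
    have hk : 2 * kap s * ((2 - s) ^ 2 + s * NN s) = NN s := by
      unfold kap
      rw [show ∀ x y : ℝ, 2 * (x / (2 * y)) * y = x * (y / y) by intros; ring, div_self hd,
        mul_one]
    have hN : NN s * (expNegInvGlue (2 - s) + expNegInvGlue (s - 1))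
        = expNegInvGlue (s - 1) + (2 - s) ^ 2 * deriv expNegInvGlue (s - 1) := by
      unfold NN
      field_simp
    set A := expNegInvGlue (2 - s) with hA
    set B := expNegInvGlue (s - 1) with hB
    set D := deriv expNegInvGlue (s - 1) with hD
    set k := kap s
    set N := NN s
    -- `- E' = A N / ((2-s)² (A+B))`
    have hE' : (((2 - s)⁻¹) ^ 2 * A * B + A * D) / (A + B) ^ 2
        = A * N / ((2 - s) ^ 2 * (A + B)) := by
      rw [div_eq_div_iff (by positivity) (by positivity)]
      have : (((2 - s)⁻¹) ^ 2 * A * B + A * D) * ((2 - s) ^ 2 * (A + B))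
          = (A * (B + (2 - s) ^ 2 * D)) * (A + B) := by
        field_simp
      rw [this, ← hN]
      ring
    rw [hE']
    have : 2 * k * (A / (A + B) - s * -(A * N / ((2 - s) ^ 2 * (A + B))))
        = (A / ((A + B) * (2 - s) ^ 2)) * (2 * k * ((2 - s) ^ 2 + s * N)) := by
      field_simp
      ring
    rw [this, hk, neg_neg]
    field_simp

theorem om_contDiff : ContDiff ℝ ∞ om := by
  unfold om
  exact Real.smoothTransition.contDiff.comp (contDiff_id.sub contDiff_const)

theorem om_zero {s : ℝ} (h : s ≤ 2) : om s = 0 :=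
  Real.smoothTransition.zero_of_nonpos (by linarith)

theorem om_one {s : ℝ} (h : 3 ≤ s) : om s = 1 :=
  Real.smoothTransition.one_of_one_le (by linarith)

theorem om_pos {s : ℝ} (h : 2 < s) : 0 < om s :=
  Real.smoothTransition.pos_of_pos (by linarith)

theorem om_monotone : Monotone om := fun _ _ h =>
  Real.smoothTransition.monotone (sub_le_sub_right h 2)

theorem om_deriv_nonneg (s : ℝ) : 0 ≤ deriv om s := om_monotone.deriv_nonneg

end Pool.Agent.H56.Q
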