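import Pool.Agent.H56.Q.Four

/-! Module U: families of symbols `a σ` (compact support in `ξ`), uniform bounds. -/

set_option autoImplicit false

open MeasureTheory
open scoped ContDiff

noncomputable section

namespace Pool.Agent.H56.Q

/-- family of symbols, smooth in `(σ, x, ξ)` for `σ ∈ (-1, 3)`, vanishing for `‖ξ‖ ≥ R`, with
`σ`-derivative `a'` -/
structure NiceFam (R : ℝ) (a a' : ℝ → T2 → E → ℂ) : Prop where
  smooth : ContDiffOn ℝ ∞ (fun z : ℝ × E × E => a z.1 (proj z.2.1) z.2.2)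
    (Set.Ioo (-1) 3 ×ˢ Set.univ)
  deriv : ∀ σ ∈ Set.Ioo (-1 : ℝ) 3, ∀ (x : T2) (ξ : E), HasDerivAt (fun τ => a τ x ξ) (a' σ x ξ) σ
  supp : ∀ σ ∈ Set.Ioo (-1 : ℝ) 3, ∀ (x : T2) (ξ : E), R ≤ ‖ξ‖ → a σ x ξ = 0

/-- smoothness of iterated derivatives with parameters -/
theorem contDiffAt_iteratedFDeriv_param {P F V : Type*} [NormedAddCommGroup P] [NormedSpace ℝ P]
    [NormedAddCommGroup F] [NormedSpace ℝ F] [NormedAddCommGroup V] [NormedSpace ℝ V]
    {G : P → F → V} {U : Set P}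
    (h : ∀ p ∈ U, ∀ ξ : F, ContDiffAt ℝ ∞ (fun z : P × F => G z.1 z.2) (p, ξ)) (j : ℕ) :
    ∀ p ∈ U, ∀ ξ : F, ContDiffAt ℝ ∞ (fun z : P × F => iteratedFDeriv ℝ j (G z.1) z.2) (p, ξ) := by
  induction j with
  | zero =>
    intro p hp ξ
    have e : (fun z : P × F => iteratedFDeriv ℝ 0 (G z.1) z.2)
        = fun z : P × F => (continuousMultilinearCurryFin0 ℝ F V).symm (G z.1 z.2) := by
      funext z
      rw [iteratedFDeriv_zero_eq_comp]
      rfl
    rw [e]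
    exact (continuousMultilinearCurryFin0 ℝ F V).symm.contDiff.contDiffAt.comp (p, ξ) (h p hp ξ)
  | succ j ih =>
    intro p hp ξ
    have e : (fun z : P × F => iteratedFDeriv ℝ (j + 1) (G z.1) z.2)
        = fun z : P × F => (continuousMultilinearCurryLeftEquiv ℝ (fun _ : Fin (j + 1) => F) V).symm
            (fderiv ℝ (fun η : F => iteratedFDeriv ℝ j (G z.1) η) z.2) := by
      funext z
      rw [iteratedFDeriv_succ_eq_comp_left]
      rfl
    rw [e]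
    have h1 : ContDiffAt ℝ ∞ (Function.uncurry (fun (z : P × F) (η : F) =>
        iteratedFDeriv ℝ j (G z.1) η)) ((p, ξ), ξ) := by
      have h2 := ih p hp ξ
      have h3 : ContDiffAt ℝ ∞ (fun w : (P × F) × F => (w.1.1, w.2)) ((p, ξ), ξ) := by fun_prop
      exact ContDiffAt.comp (g := fun z : P × F => iteratedFDeriv ℝ j (G z.1) z.2)
        (f := fun w : (P × F) × F => (w.1.1, w.2)) ((p, ξ), ξ) h2 h3
    exact (ContDiffAt.fderiv (m := ∞) (n := ∞) h1 contDiffAt_snd (by simp)).continuousLinearMap_comp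
      ((continuousMultilinearCurryLeftEquiv ℝ (fun _ : Fin (j + 1) => F) V).symm :
        _ →L[ℝ] F [×(j + 1)]→L[ℝ] V)

/-- the mixed derivatives of a family of functions on `E × E`, jointly in the parameter -/
theorem contDiffAt_mixed {G : ℝ → E → E → ℂ} {U : Set ℝ}
    (h : ∀ σ ∈ U, ∀ x ξ : E, ContDiffAt ℝ ∞ (fun z : ℝ × E × E => G z.1 z.2.1 z.2.2) (σ, x, ξ))
    (i j : ℕ) : ∀ σ ∈ U, ∀ x ξ : E, ContDiffAt ℝ ∞ (fun z : ℝ × E × E =>
      iteratedFDeriv ℝ i (fun y : E => iteratedFDeriv ℝ j (fun η : E => G z.1 y η) z.2.2) z.2.1)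
      (σ, x, ξ) := by
  have h1 : ∀ p ∈ U ×ˢ (Set.univ : Set E), ∀ ξ : E, ContDiffAt ℝ ∞
      (fun z : (ℝ × E) × E => (fun (q : ℝ × E) (η : E) => G q.1 q.2 η) z.1 z.2) (p, ξ) := by
    rintro ⟨σ, x⟩ hp ξ
    have h2 := h σ hp.1 x ξ
    have h3 : ContDiffAt ℝ ∞ (fun w : (ℝ × E) × E => (w.1.1, w.1.2, w.2)) ((σ, x), ξ) := by
      fun_prop
    exact ContDiffAt.comp (g := fun z : ℝ × E × E => G z.1 z.2.1 z.2.2)
        (f := fun w : (ℝ × E) × E => (w.1.1, w.1.2, w.2)) ((σ, x), ξ) h2 h3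
  have h4 := contDiffAt_iteratedFDeriv_param
    (G := fun (q : ℝ × E) (η : E) => G q.1 q.2 η) h1 j
  have h5 : ∀ p ∈ U ×ˢ (Set.univ : Set E), ∀ x : E, ContDiffAt ℝ ∞
      (fun z : (ℝ × E) × E => (fun (q : ℝ × E) (y : E) =>
        iteratedFDeriv ℝ j (fun η : E => G q.1 y η) q.2) z.1 z.2) (p, x) := by
    rintro ⟨σ, ξ⟩ hp x
    have h2 := h4 (σ, x) ⟨hp.1, Set.mem_univ _⟩ ξ
    have h3 : ContDiffAt ℝ ∞ (fun w : (ℝ × E) × E => ((w.1.1, w.2), w.1.2)) ((σ, ξ), x) := by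
      fun_prop
    exact ContDiffAt.comp (g := fun z : (ℝ × E) × E =>
        iteratedFDeriv ℝ j ((fun (q : ℝ × E) (η : E) => G q.1 q.2 η) z.1) z.2)
        (f := fun w : (ℝ × E) × E => ((w.1.1, w.2), w.1.2)) ((σ, ξ), x) h2 h3
  have h6 := contDiffAt_iteratedFDeriv_param (G := fun (q : ℝ × E) (y : E) =>
        iteratedFDeriv ℝ j (fun η : E => G q.1 y η) q.2) h5 i
  intro σ hσ x ξ
  have h2 := h6 (σ, ξ) ⟨hσ, Set.mem_univ _⟩ x
  have h3 : ContDiffAt ℝ ∞ (fun w : ℝ × E × E => ((w.1, w.2.2), w.2.1)) (σ, x, ξ) := by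
    fun_prop
  exact ContDiffAt.comp (g := fun z : (ℝ × E) × E =>
        iteratedFDeriv ℝ i ((fun (q : ℝ × E) (y : E) =>
        iteratedFDeriv ℝ j (fun η : E => G q.1 y η) q.2) z.1) z.2)
        (f := fun w : ℝ × E × E => ((w.1, w.2.2), w.2.1)) (σ, x, ξ) h2 h3

/-- translation by integer vectors -/
theorem uni_proj_add_int (x : E) (n : Fin 2 → ℤ) : proj (x + fun i => (n i : ℝ)) = proj x := by
  funext i
  have h : ((n i : ℝ) : UnitAddCircle) = 0 := by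
    have := AddCircle.coe_period (1 : ℝ)
    rw [show ((n i : ℝ)) = n i • (1 : ℝ) by simp, AddCircle.coe_zsmul, this, smul_zero]
  simp only [proj, Pi.add_apply, AddCircle.coe_add, h, add_zero]

/-- every point is an integer translate of a point in the unit box -/
theorem exists_box (x : E) : ∃ (n : Fin 2 → ℤ) (x' : E), x' ∈ Set.Icc (0 : E) 1 ∧
    x = x' + fun i => (n i : ℝ) := by
  refine ⟨fun i => ⌊x i⌋, fun i => Int.fract (x i), ⟨fun i => Int.fract_nonneg _, fun i =>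
    (Int.fract_lt_one _).le⟩, ?_⟩
  funext i
  simp only [Pi.add_apply]
  exact (Int.fract_add_floor (x i)).symm

variable {R : ℝ} {a a' : ℝ → T2 → E → ℂ}

theorem NiceFam.contDiffAt (h : NiceFam R a a') {σ : ℝ} (hσ : σ ∈ Set.Ioo (-1 : ℝ) 3) (x ξ : E) :
    ContDiffAt ℝ ∞ (fun z : ℝ × E × E => a z.1 (proj z.2.1) z.2.2) (σ, x, ξ) :=
  h.smooth.contDiffAt ((isOpen_Ioo.prod isOpen_univ).mem_nhds ⟨hσ, Set.mem_univ _⟩)

theorem NiceFam.smooth_at (h : NiceFam R a a') {σ : ℝ} (hσ : σ ∈ Set.Ioo (-1 : ℝ) 3) :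
    ContDiff ℝ ∞ (fun z : E × E => a σ (proj z.1) z.2) := by
  rw [contDiff_iff_contDiffAt]
  rintro ⟨x, ξ⟩
  have h3 : ContDiffAt ℝ ∞ (fun w : E × E => (σ, w.1, w.2)) (x, ξ) := by fun_prop
  exact ContDiffAt.comp (g := fun z : ℝ × E × E => a z.1 (proj z.2.1) z.2.2)
    (f := fun w : E × E => (σ, w.1, w.2)) (x, ξ) (h.contDiffAt hσ x ξ) h3

/-- `a'` as a derivative -/
theorem NiceFam.eq_fderiv (h : NiceFam R a a') {σ : ℝ} (hσ : σ ∈ Set.Ioo (-1 : ℝ) 3) (x ξ : E) :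
    a' σ (proj x) ξ = fderiv ℝ (fun z : ℝ × E × E => a z.1 (proj z.2.1) z.2.2) (σ, x, ξ)
      (1, 0, 0) := by
  have h1 := (h.contDiffAt hσ x ξ).differentiableAt (by simp)
  have h2 : HasDerivAt (fun τ : ℝ => ((τ, x, ξ) : ℝ × E × E)) (1, 0, 0) σ :=
    (hasDerivAt_id σ).prodMk (hasDerivAt_const σ (x, ξ))
  have h3 := h1.hasFDerivAt.comp_hasDerivAt σ h2
  exact (h.deriv σ hσ (proj x) ξ).unique h3

/-- `a'` is jointly continuous -/
theorem NiceFam.continuousOn' (h : NiceFam R a a') :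
    ContinuousOn (fun z : ℝ × E × E => a' z.1 (proj z.2.1) z.2.2)
      (Set.Ioo (-1) 3 ×ˢ Set.univ) := by
  have h1 : ContinuousOn (fun z : ℝ × E × E =>
      fderiv ℝ (fun z : ℝ × E × E => a z.1 (proj z.2.1) z.2.2) z (1, 0, 0))
      (Set.Ioo (-1) 3 ×ˢ Set.univ) := by
    have := h.smooth.continuousOn_fderiv_of_isOpen (isOpen_Ioo.prod isOpen_univ) (by simp)
    exact this.clm_apply continuousOn_const
  refine h1.congr ?_
  rintro ⟨σ, x, ξ⟩ hz
  exact h.eq_fderiv hz.1 x ξ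

/-- `a'` is continuous in `x` (it is a derivative of a smooth function) -/
theorem NiceFam.continuous' (h : NiceFam R a a') {σ : ℝ} (hσ : σ ∈ Set.Ioo (-1 : ℝ) 3) (ξ : E) :
    Continuous (fun x : T2 => a' σ x ξ) := by
  apply continuous_of_lift
  have h1 : ContinuousOn (fun x : E => ((σ, x, ξ) : ℝ × E × E)) Set.univ := by fun_prop
  have := h.continuousOn'.comp h1 (fun x _ => ⟨hσ, Set.mem_univ _⟩)
  exact continuousOn_univ.1 this

theorem NiceFam.supp' (h : NiceFam R a a') {σ : ℝ} (hσ : σ ∈ Set.Ioo (-1 : ℝ) 3) (x : T2) {ξ : E}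
    (hξ : R ≤ ‖ξ‖) : a' σ x ξ = 0 := by
  have h1 : (fun τ => a τ x ξ) =ᶠ[nhds σ] fun _ => 0 := by
    filter_upwards [isOpen_Ioo.mem_nhds hσ] with τ hτ
    exact h.supp τ hτ x ξ hξ
  exact (h.deriv σ hσ x ξ).unique ((hasDerivAt_const σ (0 : ℂ)).congr_of_eventuallyEq h1)

theorem Icc_sub_Ioo {σ : ℝ} (hσ : σ ∈ Set.Icc (0 : ℝ) 2) : σ ∈ Set.Ioo (-1 : ℝ) 3 :=
  ⟨by linarith [hσ.1], by linarith [hσ.2]⟩

/-- all mixed derivatives are bounded uniformly for `σ ∈ [0,2]` (compactness: `x` may be taken in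
`[0,1]²` by periodicity, `‖ξ‖ ≤ R` by the support) -/
theorem NiceFam.bdd (h : NiceFam R a a') (i j : ℕ) : ∃ B : ℝ, 0 ≤ B ∧
    ∀ σ ∈ Set.Icc (0 : ℝ) 2, ∀ x ξ : E,
      ‖iteratedFDeriv ℝ i (fun y : E => iteratedFDeriv ℝ j (fun η : E => a σ (proj y) η) ξ) x‖
        ≤ B := by
  set Φ : ℝ × E × E → _ := fun z : ℝ × E × E =>
      iteratedFDeriv ℝ i (fun y : E => iteratedFDeriv ℝ j (fun η : E => a z.1 (proj y) η) z.2.2) z.2.1
    with hΦ
  have h1 := contDiffAt_mixed (G := fun σ y η => a σ (proj y) η) (U := Set.Ioo (-1 : ℝ) 3)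
    (fun σ hσ x ξ => h.contDiffAt hσ x ξ) i j
  have hK : IsCompact (Set.Icc (0 : ℝ) 2 ×ˢ (Set.Icc (0 : E) 1 ×ˢ Metric.closedBall (0 : E) R)) :=
    isCompact_Icc.prod (isCompact_Icc.prod (isCompact_closedBall _ _))
  have hcont : ContinuousOn Φ
      (Set.Icc (0 : ℝ) 2 ×ˢ (Set.Icc (0 : E) 1 ×ˢ Metric.closedBall (0 : E) R)) := by
    rintro ⟨σ, x, ξ⟩ hz
    exact (h1 σ (Icc_sub_Ioo hz.1) x ξ).continuousAt.continuousWithinAt
  obtain ⟨B, hB⟩ := hK.exists_bound_of_continuousOn hcont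
  refine ⟨max B 0, le_max_right _ _, fun σ hσ x ξ => ?_⟩
  by_cases hξ : ‖ξ‖ ≤ R
  · obtain ⟨n, x', hx', rfl⟩ := exists_box x
    have h2 := hB (σ, x', ξ) ⟨hσ, hx', by simpa using hξ⟩
    refine le_trans (le_of_eq ?_) (h2.trans (le_max_left _ _))
    rw [hΦ]
    simp only
    rw [← iteratedFDeriv_comp_add_right]
    simp only [uni_proj_add_int]
  · have hξ' : R < ‖ξ‖ := not_le.1 hξ
    have h2 : (fun y : E => iteratedFDeriv ℝ j (fun η : E => a σ (proj y) η) ξ) = fun _ => 0 := by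
      funext y
      have h3 : (fun η : E => a σ (proj y) η) =ᶠ[nhds ξ] fun _ => 0 := by
        filter_upwards [(isOpen_lt continuous_const continuous_norm).mem_nhds hξ'] with η hη
        exact h.supp σ (Icc_sub_Ioo hσ) _ _ (le_of_lt hη)
      have h4 := (Filter.EventuallyEq.iteratedFDeriv (𝕜 := ℝ) h3 j).eq_of_nhds
      rw [h4]
      simp
    rw [h2]
    simp

/-- `σ ↦ a_σ(·,ξ) e_k ∈ L²` is differentiable -/
theorem NiceFam.hasDerivAt_cls (h : NiceFam R a a') {σ : ℝ} (hσ : σ ∈ Set.Icc (0 : ℝ) 2)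
    (k : Fin 2 → ℤ) (ξ : E) :
    HasDerivAt (fun τ => cls (fun x => a τ x ξ * ek k x)) (cls (fun x => a' σ x ξ * ek k x)) σ := by
  have hσ' := Icc_sub_Ioo hσ
  rw [hasDerivAt_iff_isLittleO, Asymptotics.isLittleO_iff]
  intro ε hε
  have hev : ∀ᶠ τ in nhds σ, ∀ x ∈ Set.Icc (0 : E) 1,
      ‖a' τ (proj x) ξ - a' σ (proj x) ξ‖ ≤ ε := by
    refine isCompact_Icc.eventually_forall_of_forall_eventually
      (P := fun (τ : ℝ) (x : E) => ‖a' τ (proj x) ξ - a' σ (proj x) ξ‖ ≤ ε) ?_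
    intro x _
    have hc : ContinuousAt (fun z : ℝ × E × E => a' z.1 (proj z.2.1) z.2.2) (σ, x, ξ) :=
      h.continuousOn'.continuousAt ((isOpen_Ioo.prod isOpen_univ).mem_nhds ⟨hσ', Set.mem_univ _⟩)
    have h3 : ContinuousAt (fun w : ℝ × E => (w.1, w.2, ξ)) (σ, x) := by fun_prop
    have h4 : ContinuousAt (fun w : ℝ × E => a' w.1 (proj w.2) ξ) (σ, x) :=
      ContinuousAt.comp (g := fun z : ℝ × E × E => a' z.1 (proj z.2.1) z.2.2)
        (f := fun w : ℝ × E => (w.1, w.2, ξ)) hc h3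
    have h5 : ContinuousAt (fun w : ℝ × E => (σ, w.2, ξ)) (σ, x) := by fun_prop
    have h6 : ContinuousAt (fun w : ℝ × E => a' σ (proj w.2) ξ) (σ, x) :=
      ContinuousAt.comp (g := fun z : ℝ × E × E => a' z.1 (proj z.2.1) z.2.2)
        (f := fun w : ℝ × E => (σ, w.2, ξ)) hc h5
    have h7 : ContinuousAt (fun w : ℝ × E => ‖a' w.1 (proj w.2) ξ - a' σ (proj w.2) ξ‖) (σ, x) :=
      (h4.sub h6).norm
    have h8 : ‖a' σ (proj x) ξ - a' σ (proj x) ξ‖ < ε := by simpa using hε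
    filter_upwards [h7.eventually_lt_const h8] with w hw
    exact hw.le
  obtain ⟨δ, hδ, hball⟩ := Metric.eventually_nhds_iff_ball.1
    (hev.and (isOpen_Ioo.mem_nhds hσ'))
  filter_upwards [Metric.ball_mem_nhds σ hδ] with τ hτ
  have hτ' := (hball τ hτ).2
  have key : ∀ x : T2, ‖a τ x ξ - a σ x ξ - ((τ - σ : ℝ) : ℂ) * a' σ x ξ‖ ≤ ε * ‖τ - σ‖ := by
    intro x
    obtain ⟨y, rfl⟩ := proj_surjective x
    obtain ⟨n, x', hx', rfl⟩ := exists_box y
    rw [uni_proj_add_int]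
    have hd : ∀ t ∈ Metric.ball σ δ, HasDerivWithinAt
        (fun t : ℝ => a t (proj x') ξ - (t : ℂ) * a' σ (proj x') ξ)
        (a' t (proj x') ξ - a' σ (proj x') ξ) (Metric.ball σ δ) t := by
      intro t ht
      have h1 := h.deriv t (hball t ht).2 (proj x') ξ
      have h2 : HasDerivAt (fun t : ℝ => (t : ℂ) * a' σ (proj x') ξ) (1 * a' σ (proj x') ξ) t :=
        (Complex.ofRealCLM.hasDerivAt (x := t)).mul_const _
      rw [one_mul] at h2
      exact (h1.sub h2).hasDerivWithinAt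
    have h2 := (convex_ball σ δ).norm_image_sub_le_of_norm_hasDerivWithin_le hd
      (fun t ht => (hball t ht).1 x' hx') (Metric.mem_ball_self hδ) hτ
    refine le_trans (le_of_eq ?_) h2
    congr 1
    push_cast
    ring
  have hc1 : ∀ τ ∈ Set.Ioo (-1 : ℝ) 3, Continuous fun x : T2 => a τ x ξ := by
    intro τ hτ
    apply continuous_of_lift
    have h3 : Continuous (fun x : E => (x, ξ)) := by fun_prop
    exact (h.smooth_at hτ).continuous.comp h3
  have e : cls (fun x => a τ x ξ * ek k x) - cls (fun x => a σ x ξ * ek k x)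
      - (τ - σ) • cls (fun x => a' σ x ξ * ek k x)
      = cls (fun x => (a τ x ξ - a σ x ξ - ((τ - σ : ℝ) : ℂ) * a' σ x ξ) * ek k x) := by
    have c1 : Continuous fun x => a τ x ξ * ek k x := (hc1 τ hτ').mul (continuous_ek k)
    have c2 : Continuous fun x => a σ x ξ * ek k x := (hc1 σ hσ').mul (continuous_ek k)
    have c3 : Continuous fun x => a' σ x ξ * ek k x := (h.continuous' hσ' ξ).mul (continuous_ek k)
    have e1 : (fun x => (a τ x ξ - a σ x ξ - ((τ - σ : ℝ) : ℂ) * a' σ x ξ) * ek k x)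
        = fun x => (a τ x ξ * ek k x) + ((-1 : ℂ) * (a σ x ξ * ek k x)
          + (-((τ - σ : ℝ) : ℂ)) * (a' σ x ξ * ek k x)) := by
      funext x
      ring
    have c4 : Continuous fun x => (-1 : ℂ) * (a σ x ξ * ek k x) := continuous_const.mul c2
    have c5 : Continuous fun x => (-((τ - σ : ℝ) : ℂ)) * (a' σ x ξ * ek k x) :=
      continuous_const.mul c3
    have c6 : Continuous fun x => (-1 : ℂ) * (a σ x ξ * ek k x)
        + (-((τ - σ : ℝ) : ℂ)) * (a' σ x ξ * ek k x) := c4.add c5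
    rw [e1, cls_add c1 c6, cls_add c4 c5, cls_smul _ c2, cls_smul _ c3,
      RCLike.real_smul_eq_coe_smul (K := ℂ) (τ - σ) (cls (fun x => a' σ x ξ * ek k x))]
    simp only [neg_smul, one_smul]
    rw [sub_sub, sub_eq_add_neg, neg_add]
    rfl
  rw [e]
  refine norm_cls_le ?_ (by positivity) fun x => ?_
  · exact (((hc1 τ hτ').sub (hc1 σ hσ')).sub (continuous_const.mul (h.continuous' hσ' ξ))).mul
      (continuous_ek k)
  · rw [norm_mul, norm_ek, mul_one]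
    exact key x

end Pool.Agent.H56.Q
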