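import Pool.Agent.H56.Q.TrA
import Pool.Agent.H56.Q.Brk
import Pool.Agent.H56.Q.Cell
import Pool.Agent.H56.Q.Uni

/-! Module A: the transported symbols.

`W = η^(-2)` (`= 0` at `η = 0` in Lean, harmless), `{p1, W} = 1`, `{p2, W} = -i`, `{p_j, y η³} = 0`
in the inner disc `s < 1` (there `hh = y η³ / 8`, by `hh_inner`).
For `|w| ≥ 1`, `|w|² ≤ 5`: on the support of `chi w ind` one has `3^{-1/2} < |η| < 3/2`, `|y| < 1`,
so the cell coordinates are interior.  The sheets do not meet the support because `ind η = 0`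
forces `|W - w| ≥ 1` (hypothesis `hsep`). -/

set_option autoImplicit false

open MeasureTheory Complex
open scoped ContDiff ComplexConjugate

noncomputable section

namespace Pool.Agent.H56.Q

/-! ### linear maps -/

/-- `eta` as a continuous linear map -/
def etaL : E →L[ℝ] ℂ := LinearMap.toContinuousLinearMap
  { toFun := eta
    map_add' := fun x y => by unfold eta; simp; ring
    map_smul' := fun r x => by unfold eta; simp; ring }

/-- `yC` as a continuous linear map -/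
def yL : E →L[ℝ] ℂ := LinearMap.toContinuousLinearMap
  { toFun := yC
    map_add' := fun x y => by unfold yC; simp; ring
    map_smul' := fun r x => by unfold yC; simp; ring }

theorem etaL_apply (ξ : E) : etaL ξ = eta ξ := rfl

theorem yL_apply (c : E) : yL c = yC c := rfl

theorem tr_eta_contDiff : ContDiff ℝ ∞ eta := etaL.contDiff

theorem tr_yC_contDiff : ContDiff ℝ ∞ yC := yL.contDiff

theorem line_hasDerivAt (L : E →L[ℝ] ℂ) (x e : E) :
    HasDerivAt (fun t : ℝ => L (x + t • e)) (L e) 0 := by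
  have h := ((hasDerivAt_id (0 : ℝ)).smul_const (L e)).const_add (L x)
  rw [one_smul] at h
  refine h.congr_of_eventuallyEq (Filter.Eventually.of_forall fun t => ?_)
  simp

theorem fderiv_line {F : Type*} [NormedAddCommGroup F] [NormedSpace ℝ F] {f : E → F} {x e : E}
    {d : F} (hf : DifferentiableAt ℝ f x) (h : HasDerivAt (fun t : ℝ => f (x + t • e)) d 0) :
    fderiv ℝ f x e = d := by
  have h1 : HasDerivAt (fun t : ℝ => x + t • e) e 0 := by
    have := ((hasDerivAt_id (0 : ℝ)).smul_const e).const_add x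
    rwa [one_smul] at this
  have h2 : HasFDerivAt f (fderiv ℝ f x) (x + (0 : ℝ) • e) := by
    rw [zero_smul, add_zero]
    exact hf.hasFDerivAt
  exact (h2.comp_hasDerivAt (0 : ℝ) h1).unique h

/-! ### bump functions of a complex variable -/

def bmpC (r : ℝ) (z : ℂ) : ℝ := bmp r (‖z‖ ^ 2)

theorem bmpC_contDiff (r : ℝ) : ContDiff ℝ ∞ (bmpC r) := by
  have h1 : ContDiff ℝ ∞ fun z : ℂ => r - ‖z‖ ^ 2 := contDiff_const.sub (contDiff_norm_sq ℝ)
  exact expNegInvGlue.contDiff.comp h1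

theorem bmpC_zero {r : ℝ} {z : ℂ} (h : r ≤ ‖z‖ ^ 2) : bmpC r z = 0 := bmp_zero h

/-- the smooth expression of `chi` on the sheet -/
def chiS (w c' : ℂ) (η : ℂ) : ℝ := bmpC (1 / 4) ((η ^ 2)⁻¹ - w) * bmpC (1 / 64) (c' * η ^ 3)

theorem chi_eq (w : ℂ) (ind : ℂ → ℝ) (c ξ : E) :
    chi w ind c ξ = if 0 < ind (eta ξ) then ((chiS w (yC c) (eta ξ) : ℝ) : ℂ) else 0 := rfl

theorem chi_eq_zero_of {w : ℂ} {ind : ℂ → ℝ} {c ξ : E} (h : chiS w (yC c) (eta ξ) = 0) :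
    chi w ind c ξ = 0 := by
  rw [chi_eq, h]
  simp

theorem norm_yC_sq (c : E) : ‖yC c‖ ^ 2 = sC c := by
  rw [norm_sq_eq]
  unfold yC sC
  simp
  ring

theorem norm_eta_sq (ξ : E) : ‖eta ξ‖ ^ 2 = ((ξ 0) ^ 2 + (ξ 1) ^ 2) / 4 := by
  rw [norm_sq_eq]
  unfold eta
  simp
  ring

theorem one_le_sC {c : E} (h : 1 / 8 ≤ ‖c‖) : 1 ≤ sC c := by
  unfold sC
  have h1 : ‖c‖ ≤ max |c 0| |c 1| := by
    rw [pi_norm_le_iff_of_nonneg (le_max_of_le_left (abs_nonneg _))]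
    intro i
    fin_cases i
    · exact le_max_left _ _
    · exact le_max_right _ _
  rcases le_max_iff.1 (h.trans h1) with h2 | h2
  · have : (1 / 8 : ℝ) ^ 2 ≤ (c 0) ^ 2 := by
      rw [← sq_abs (c 0)]
      exact pow_le_pow_left₀ (by norm_num) h2 2
    nlinarith [sq_nonneg (c 1)]
  · have : (1 / 8 : ℝ) ^ 2 ≤ (c 1) ^ 2 := by
      rw [← sq_abs (c 1)]
      exact pow_le_pow_left₀ (by norm_num) h2 2
    nlinarith [sq_nonneg (c 0)]

theorem eta_large {ξ : E} (h : 3 ≤ ‖ξ‖) : 9 / 4 ≤ ‖eta ξ‖ ^ 2 := by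
  rw [norm_eta_sq]
  have h1 : ‖ξ‖ ≤ max |ξ 0| |ξ 1| := by
    rw [pi_norm_le_iff_of_nonneg (le_max_of_le_left (abs_nonneg _))]
    intro i
    fin_cases i
    · exact le_max_left _ _
    · exact le_max_right _ _
  rcases le_max_iff.1 (h.trans h1) with h2 | h2
  · have : (3 : ℝ) ^ 2 ≤ (ξ 0) ^ 2 := by
      rw [← sq_abs (ξ 0)]
      exact pow_le_pow_left₀ (by norm_num) h2 2
    nlinarith [sq_nonneg (ξ 1)]
  · have : (3 : ℝ) ^ 2 ≤ (ξ 1) ^ 2 := by
      rw [← sq_abs (ξ 1)]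
      exact pow_le_pow_left₀ (by norm_num) h2 2
    nlinarith [sq_nonneg (ξ 0)]

/-! ### local structure -/

theorem norm_inv_sq (η : ℂ) : ‖(η ^ 2)⁻¹‖ = (‖η‖ ^ 2)⁻¹ := by
  rw [norm_inv, norm_pow]

/-- outside the relevant range of `η` the first factor vanishes -/
theorem far_of_small {η w : ℂ} (h0 : η ≠ 0) (hw2 : ‖w‖ ^ 2 ≤ 5) (h : ‖η‖ ^ 2 ≤ 1 / 3) :
    1 / 2 < ‖(η ^ 2)⁻¹ - w‖ := by
  have hpos : 0 < ‖η‖ ^ 2 := by positivity
  have h1 : 3 ≤ ‖(η ^ 2)⁻¹‖ := by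
    rw [norm_inv_sq]
    rw [le_inv_comm₀ (by norm_num) hpos]
    linarith
  have h2 : ‖w‖ < 9 / 4 := by
    by_contra hc
    have : (9 / 4 : ℝ) ^ 2 ≤ ‖w‖ ^ 2 := pow_le_pow_left₀ (by norm_num) (not_lt.1 hc) 2
    nlinarith
  have h3 := norm_sub_norm_le ((η ^ 2)⁻¹) w
  linarith

theorem far_of_large {η w : ℂ} (hw1 : 1 ≤ ‖w‖) (h : 9 / 4 ≤ ‖η‖ ^ 2) :
    1 / 2 < ‖(η ^ 2)⁻¹ - w‖ := by
  have hpos : 0 < ‖η‖ ^ 2 := by linarith
  have h1 : ‖(η ^ 2)⁻¹‖ ≤ 4 / 9 := by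
    rw [norm_inv_sq]
    rw [inv_le_comm₀ hpos (by norm_num)]
    linarith
  have h3 := norm_sub_norm_le w ((η ^ 2)⁻¹)
  rw [norm_sub_rev] at h3
  linarith

theorem chiS_zero_of_far {w c' η : ℂ} (h : 1 / 2 ≤ ‖(η ^ 2)⁻¹ - w‖) : chiS w c' η = 0 := by
  unfold chiS
  rw [bmpC_zero, zero_mul]
  nlinarith

theorem chiS_zero_of_u {w c' η : ℂ} (h : 1 / 64 ≤ ‖c' * η ^ 3‖ ^ 2) : chiS w c' η = 0 := by
  unfold chiS
  rw [bmpC_zero h, mul_zero]

section local_structure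

variable {w0 v : ℂ} {ind : ℂ → ℝ}

theorem continuousAt_W {z : ℝ × E × E} (hη : eta z.2.1 ≠ 0) :
    ContinuousAt (fun z : ℝ × E × E => (eta z.2.1 ^ 2)⁻¹ - (w0 + z.1 * v)) z := by
  have h1 : ContinuousAt (fun z : ℝ × E × E => eta z.2.1 ^ 2) z :=
    ((tr_eta_contDiff.continuous.comp (continuous_fst.comp continuous_snd)).pow 2).continuousAt
  have h2 : ContinuousAt (fun z : ℝ × E × E => w0 + (z.1 : ℂ) * v) z := by
    have : Continuous (fun z : ℝ × E × E => w0 + (z.1 : ℂ) * v) := by fun_prop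
    exact this.continuousAt
  exact (h1.inv₀ (pow_ne_zero 2 hη)).sub h2

/-- trichotomy: locally zero, or in the good range -/
theorem loc (hind : Continuous ind)
    (hw1 : ∀ σ ∈ Set.Ioo (-1 : ℝ) 3, 1 ≤ ‖w0 + σ * v‖)
    (hw2 : ∀ σ ∈ Set.Ioo (-1 : ℝ) 3, ‖w0 + σ * v‖ ^ 2 ≤ 5)
    (hsep : ∀ σ ∈ Set.Ioo (-1 : ℝ) 3, ∀ η : ℂ, η ≠ 0 → ind η = 0 → 1 ≤ ‖(η ^ 2)⁻¹ - (w0 + σ * v)‖)
    {σ : ℝ} (hσ : σ ∈ Set.Ioo (-1 : ℝ) 3) (ξ c : E) :
    (∀ᶠ z : ℝ × E × E in nhds (σ, ξ, c), chi (w0 + z.1 * v) ind z.2.2 z.2.1 = 0) ∨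
    (eta ξ ≠ 0 ∧ 0 < ind (eta ξ) ∧ ‖eta ξ‖ ^ 2 < 9 / 4 ∧ sC c < 1) := by
  have hcη : Continuous (fun z : ℝ × E × E => eta z.2.1) :=
    tr_eta_contDiff.continuous.comp (continuous_fst.comp continuous_snd)
  have hev : ∀ᶠ z : ℝ × E × E in nhds (σ, ξ, c), z.1 ∈ Set.Ioo (-1 : ℝ) 3 :=
    continuous_fst.continuousAt.eventually (isOpen_Ioo.mem_nhds hσ)
  by_cases h0 : eta ξ = 0
  · left
    have h1 : ∀ᶠ z : ℝ × E × E in nhds (σ, ξ, c), ‖eta z.2.1‖ ^ 2 < 1 / 3 := by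
      have hc : Continuous (fun z : ℝ × E × E => ‖eta z.2.1‖ ^ 2) := hcη.norm.pow 2
      refine hc.continuousAt.eventually (isOpen_Iio.mem_nhds ?_)
      show ‖eta ξ‖ ^ 2 < 1 / 3
      rw [h0]
      norm_num
    filter_upwards [h1, hev] with z hz hz1
    refine chi_eq_zero_of ?_
    by_cases hz0 : eta z.2.1 = 0
    · refine chiS_zero_of_far ?_
      rw [hz0]
      simp only [ne_eq, OfNat.ofNat_ne_zero, not_false_eq_true, zero_pow, inv_zero, zero_sub,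
        norm_neg]
      linarith [hw1 z.1 hz1]
    · exact chiS_zero_of_far (far_of_small hz0 (hw2 z.1 hz1) hz.le).le
  · -- `W` is continuous near the point
    have hW := continuousAt_W (w0 := w0) (v := v) (z := (σ, ξ, c)) h0
    have hfar : 1 / 2 < ‖(eta ξ ^ 2)⁻¹ - (w0 + σ * v)‖ →
        ∀ᶠ z : ℝ × E × E in nhds (σ, ξ, c), chi (w0 + z.1 * v) ind z.2.2 z.2.1 = 0 := by
      intro h1
      have h2 : ∀ᶠ z : ℝ × E × E in nhds (σ, ξ, c),
          1 / 2 < ‖(eta z.2.1 ^ 2)⁻¹ - (w0 + z.1 * v)‖ :=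
        hW.norm.eventually (isOpen_Ioi.mem_nhds h1)
      filter_upwards [h2] with z hz
      exact chi_eq_zero_of (chiS_zero_of_far hz.le)
    rcases lt_trichotomy (ind (eta ξ)) 0 with hi | hi | hi
    · left
      have hco : Continuous (fun z : ℝ × E × E => ind (eta z.2.1)) := hind.comp hcη
      have h1 : ∀ᶠ z : ℝ × E × E in nhds (σ, ξ, c), ind (eta z.2.1) < 0 :=
        hco.continuousAt.eventually (isOpen_Iio.mem_nhds (show ind (eta ξ) ∈ Set.Iio 0 from hi))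
      filter_upwards [h1] with z hz
      rw [chi_eq, if_neg (not_lt.2 hz.le)]
    · left
      exact hfar (lt_of_lt_of_le (by norm_num) (hsep σ hσ (eta ξ) h0 hi))
    · by_cases h2 : ‖eta ξ‖ ^ 2 < 9 / 4
      · by_cases h3 : sC c < 1
        · exact Or.inr ⟨h0, hi, h2, h3⟩
        · left
          by_cases h4 : ‖eta ξ‖ ^ 2 ≤ 1 / 3
          · exact hfar (far_of_small h0 (hw2 σ hσ) h4)
          · -- the second factor vanishes
            have h5 : 1 / 64 < ‖yC c * eta ξ ^ 3‖ ^ 2 := by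
              rw [norm_mul, mul_pow, norm_yC_sq, norm_pow, ← pow_mul, pow_mul' _ 3 2]
              have h6 : (1 / 3 : ℝ) ^ 3 < (‖eta ξ‖ ^ 2) ^ 3 :=
                pow_lt_pow_left₀ (not_le.1 h4) (by norm_num) (by norm_num)
              have h7 : 1 ≤ sC c := not_lt.1 h3
              nlinarith
            have hcont : Continuous (fun z : ℝ × E × E => ‖yC z.2.2 * eta z.2.1 ^ 3‖ ^ 2) := by
              have hy : Continuous (fun z : ℝ × E × E => yC z.2.2) :=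
                tr_yC_contDiff.continuous.comp (continuous_snd.comp continuous_snd)
              exact (hy.mul (hcη.pow 3)).norm.pow 2
            have h8 : ∀ᶠ z : ℝ × E × E in nhds (σ, ξ, c),
                1 / 64 < ‖yC z.2.2 * eta z.2.1 ^ 3‖ ^ 2 :=
              hcont.continuousAt.eventually (isOpen_Ioi.mem_nhds h5)
            filter_upwards [h8] with z hz
            exact chi_eq_zero_of (chiS_zero_of_u hz.le)
      · left
        exact hfar (far_of_large (hw1 σ hσ) (not_lt.1 h2))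

/-- on the good range `chi` is the smooth expression -/
theorem good_eventually (hind : Continuous ind) {σ : ℝ} {ξ c : E} (hi : 0 < ind (eta ξ)) :
    ∀ᶠ z : ℝ × E × E in nhds (σ, ξ, c), chi (w0 + z.1 * v) ind z.2.2 z.2.1
      = ((chiS (w0 + z.1 * v) (yC z.2.2) (eta z.2.1) : ℝ) : ℂ) := by
  have hcη : Continuous (fun z : ℝ × E × E => eta z.2.1) :=
    tr_eta_contDiff.continuous.comp (continuous_fst.comp continuous_snd)
  have hco : Continuous (fun z : ℝ × E × E => ind (eta z.2.1)) := hind.comp hcη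
  have h1 : ∀ᶠ z : ℝ × E × E in nhds (σ, ξ, c), 0 < ind (eta z.2.1) :=
    hco.continuousAt.eventually (isOpen_Ioi.mem_nhds (show ind (eta ξ) ∈ Set.Ioi 0 from hi))
  filter_upwards [h1] with z hz
  rw [chi_eq, if_pos hz]

theorem chiS_contDiffAt {z : ℝ × E × E} (hη : eta z.2.1 ≠ 0) :
    ContDiffAt ℝ ∞ (fun z : ℝ × E × E => ((chiS (w0 + z.1 * v) (yC z.2.2) (eta z.2.1) : ℝ) : ℂ))
      z := by
  have h1 : ContDiffAt ℝ ∞ (fun z : ℝ × E × E => eta z.2.1) z :=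
    (tr_eta_contDiff.comp (contDiff_fst.comp contDiff_snd)).contDiffAt
  have h2 : ContDiffAt ℝ ∞ (fun z : ℝ × E × E => yC z.2.2) z :=
    (tr_yC_contDiff.comp (contDiff_snd.comp contDiff_snd)).contDiffAt
  have h3 : ContDiffAt ℝ ∞ (fun z : ℝ × E × E => w0 + (z.1 : ℂ) * v) z := by
    have h4 : ContDiff ℝ ∞ (fun z : ℝ × E × E => (z.1 : ℂ)) :=
      Complex.ofRealCLM.contDiff.comp contDiff_fst
    exact (contDiff_const.add (h4.mul contDiff_const)).contDiffAt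
  have h5 : ContDiffAt ℝ ∞ (fun z : ℝ × E × E => (eta z.2.1 ^ 2)⁻¹ - (w0 + (z.1 : ℂ) * v)) z :=
    ((h1.pow 2).inv (pow_ne_zero 2 hη)).sub h3
  have h6 : ContDiffAt ℝ ∞ (fun z : ℝ × E × E => yC z.2.2 * eta z.2.1 ^ 3) z := h2.mul (h1.pow 3)
  have h7 := ((bmpC_contDiff (1 / 4)).contDiffAt.comp z h5).mul
    ((bmpC_contDiff (1 / 64)).contDiffAt.comp z h6)
  exact (Complex.ofRealCLM.contDiff.contDiffAt).comp z h7

/-- joint smoothness in `(σ, ξ, c)` -/
theorem chi_contDiffAt (hind : Continuous ind)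
    (hw1 : ∀ σ ∈ Set.Ioo (-1 : ℝ) 3, 1 ≤ ‖w0 + σ * v‖)
    (hw2 : ∀ σ ∈ Set.Ioo (-1 : ℝ) 3, ‖w0 + σ * v‖ ^ 2 ≤ 5)
    (hsep : ∀ σ ∈ Set.Ioo (-1 : ℝ) 3, ∀ η : ℂ, η ≠ 0 → ind η = 0 → 1 ≤ ‖(η ^ 2)⁻¹ - (w0 + σ * v)‖)
    {σ : ℝ} (hσ : σ ∈ Set.Ioo (-1 : ℝ) 3) (ξ c : E) :
    ContDiffAt ℝ ∞ (fun z : ℝ × E × E => chi (w0 + z.1 * v) ind z.2.2 z.2.1) (σ, ξ, c) := by
  rcases loc hind hw1 hw2 hsep hσ ξ c with h | h
  · have : ContDiffAt ℝ ∞ (fun _ : ℝ × E × E => (0 : ℂ)) (σ, ξ, c) := contDiffAt_const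
    exact this.congr_of_eventuallyEq h
  · exact (chiS_contDiffAt (z := (σ, ξ, c)) h.1).congr_of_eventuallyEq
      (good_eventually hind h.2.1)

end local_structure

/-- the family is nice -/
theorem fam_nice {w0 v : ℂ} {ind : ℂ → ℝ} (hind : Continuous ind)
    (hw1 : ∀ σ ∈ Set.Ioo (-1 : ℝ) 3, 1 ≤ ‖w0 + σ * v‖)
    (hw2 : ∀ σ ∈ Set.Ioo (-1 : ℝ) 3, ‖w0 + σ * v‖ ^ 2 ≤ 5)
    (hsep : ∀ σ ∈ Set.Ioo (-1 : ℝ) 3, ∀ η : ℂ, η ≠ 0 → ind η = 0 → 1 ≤ ‖(η ^ 2)⁻¹ - (w0 + σ * v)‖) :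
    NiceFam 3 (fam w0 v ind) (fam' w0 v ind) := by
  constructor
  · -- smoothness
    have hO : IsOpen ((Set.Ioo (-1 : ℝ) 3 ×ˢ Set.univ : Set (ℝ × E))) :=
      isOpen_Ioo.prod isOpen_univ
    have h1 := contDiffOn_cell (Y := ℝ × E) (F := ℂ) hO
      (g := fun y c => chi (w0 + y.1 * v) ind c y.2) (ρ := 1 / 8) (by norm_num) ?_ ?_
    · have h2 : ContDiff ℝ ∞ (fun z : ℝ × E × E => (((z.1, z.2.2), z.2.1) : (ℝ × E) × E)) := by
        fun_prop
      have h3 := h1.comp h2.contDiffOn (s := Set.Ioo (-1 : ℝ) 3 ×ˢ Set.univ) ?_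
      · exact h3
      · rintro z ⟨hz, -⟩
        exact ⟨⟨hz, trivial⟩, trivial⟩
    · rintro ⟨⟨σ, ξ⟩, c⟩ ⟨⟨hσ, -⟩, -⟩
      have h4 := chi_contDiffAt hind hw1 hw2 hsep hσ ξ c
      have h5 : ContDiff ℝ ∞ (fun z : (ℝ × E) × E => ((z.1.1, z.1.2, z.2) : ℝ × E × E)) := by
        fun_prop
      exact (ContDiffAt.comp (((σ, ξ), c) : (ℝ × E) × E) (f := fun z : (ℝ × E) × E =>
        ((z.1.1, z.1.2, z.2) : ℝ × E × E)) h4 h5.contDiffAt).contDiffWithinAt
    · rintro ⟨σ, ξ⟩ ⟨hσ, -⟩ c hc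
      rcases loc hind hw1 hw2 hsep hσ ξ c with h | h
      · exact h.self_of_nhds
      · exact absurd (one_le_sC hc) (not_le.2 h.2.2.2)
  · -- derivative
    intro σ hσ x ξ
    have h4 := chi_contDiffAt hind hw1 hw2 hsep hσ ξ (cell x)
    have h5 : ContDiff ℝ ∞ (fun τ : ℝ => ((τ, ξ, cell x) : ℝ × E × E)) := by fun_prop
    have h6 := ContDiffAt.comp (σ : ℝ) (f := fun τ : ℝ => ((τ, ξ, cell x) : ℝ × E × E)) h4
      h5.contDiffAt
    have h7 : DifferentiableAt ℝ (fun τ => fam w0 v ind τ x ξ) σ :=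
      h6.differentiableAt (by simp)
    exact h7.hasDerivAt
  · -- support
    intro σ hσ x ξ hξ
    rcases loc hind hw1 hw2 hsep hσ ξ (cell x) with h | h
    · exact h.self_of_nhds
    · exact absurd (eta_large hξ) (not_le.2 h.2.2.1)

/-! ### transport -/

/-- real derivative of `(η²)⁻¹` along a line -/
theorem W_hasDerivAt {ξ e : E} (hη : eta ξ ≠ 0) :
    HasDerivAt (fun t : ℝ => (eta (ξ + t • e) ^ 2)⁻¹) (-(2 * eta e) * (eta ξ ^ 3)⁻¹) 0 := by
  have h1 : HasDerivAt (fun t : ℝ => eta (ξ + t • e)) (eta e) 0 := line_hasDerivAt etaL ξ e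
  have h0 : eta (ξ + (0 : ℝ) • e) = eta ξ := by rw [zero_smul, add_zero]
  have h2 : HasDerivAt (fun z : ℂ => (z ^ 2)⁻¹) (-(2 * eta ξ) / (eta ξ ^ 2) ^ 2)
      (eta (ξ + (0 : ℝ) • e)) := by
    rw [h0]
    have h3 : HasDerivAt (fun z : ℂ => z ^ 2) (2 * eta ξ) (eta ξ) := by
      simpa using hasDerivAt_pow 2 (eta ξ)
    exact h3.fun_inv (pow_ne_zero 2 hη)
  have h4 := h2.comp (0 : ℝ) h1
  have h5 : -(2 * eta ξ) / (eta ξ ^ 2) ^ 2 * eta e = -(2 * eta e) * (eta ξ ^ 3)⁻¹ := by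
    field_simp
  rw [h5] at h4
  exact h4

theorem u_hasDerivAt_xi (c : E) (ξ e : E) :
    HasDerivAt (fun t : ℝ => yC c * eta (ξ + t • e) ^ 3) (yC c * (3 * eta ξ ^ 2 * eta e)) 0 := by
  have h1 : HasDerivAt (fun t : ℝ => eta (ξ + t • e)) (eta e) 0 := line_hasDerivAt etaL ξ e
  have h2 := (h1.pow 3).const_mul (yC c)
  have h0 : eta (ξ + (0 : ℝ) • e) = eta ξ := by rw [zero_smul, add_zero]
  simp only [h0] at h2
  simpa using h2

theorem u_hasDerivAt_c (c : E) (ξ e : E) :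
    HasDerivAt (fun t : ℝ => yC (c + t • e) * eta ξ ^ 3) (yC e * eta ξ ^ 3) 0 :=
  (line_hasDerivAt yL c e).mul_const (eta ξ ^ 3)

/-- chain rule for `bmpC` -/
theorem bmpC_hasDerivAt (r : ℝ) {f : ℝ → ℂ} {f' : ℂ} {t : ℝ} (hf : HasDerivAt f f' t) :
    HasDerivAt (fun t => bmpC r (f t)) (fderiv ℝ (bmpC r) (f t) f') t :=
  (((bmpC_contDiff r).differentiable (by simp)) (f t)).hasFDerivAt.comp_hasDerivAt t hf

/-- the algebraic core: `∑ a_i ∂_{c_i} χ - b_i ∂_{ξ_i} χ + ∂_σ χ = 0` -/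
theorem core_identity {l y η w : ℂ} (hη : η ≠ 0) :
    ∑ i : Fin 2, ((l * ((1 / 8) * y * (3 * η ^ 2 * eta (Pi.single i 1)))).re
          * (bmpC (1 / 4) ((η ^ 2)⁻¹ - w)
            * fderiv ℝ (bmpC (1 / 64)) (y * η ^ 3) (yC (Pi.single i 1) * η ^ 3))
        - (l * ((1 / 8) * (yC (Pi.single i 1) * η ^ 3))).re
          * (fderiv ℝ (bmpC (1 / 4)) ((η ^ 2)⁻¹ - w) (-(2 * eta (Pi.single i 1)) * (η ^ 3)⁻¹)
              * bmpC (1 / 64) (y * η ^ 3)
            + bmpC (1 / 4) ((η ^ 2)⁻¹ - w)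
              * fderiv ℝ (bmpC (1 / 64)) (y * η ^ 3) (y * (3 * η ^ 2 * eta (Pi.single i 1)))))
      + fderiv ℝ (bmpC (1 / 4)) ((η ^ 2)⁻¹ - w) (-l) * bmpC (1 / 64) (y * η ^ 3) = 0 := by
  have e0 : eta (Pi.single 0 1) = 1 / 2 := by unfold eta; simp
  have e1 : eta (Pi.single 1 1) = -(I / 2) := by unfold eta; simp; ring
  have y0 : yC (Pi.single 0 1) = 8 := by unfold yC; simp
  have y1 : yC (Pi.single 1 1) = 8 * I := by unfold yC; simp
  set B := bmpC (1 / 4) ((η ^ 2)⁻¹ - w)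
  set C := bmpC (1 / 64) (y * η ^ 3)
  set LB := fderiv ℝ (bmpC (1 / 4)) ((η ^ 2)⁻¹ - w)
  set LC := fderiv ℝ (bmpC (1 / 64)) (y * η ^ 3)
  rw [Fin.sum_univ_two, e0, e1, y0, y1]
  set a0 : ℝ := (l * ((1 / 8) * y * (3 * η ^ 2 * (1 / 2)))).re with ha0
  set a1 : ℝ := (l * ((1 / 8) * y * (3 * η ^ 2 * -(I / 2)))).re with ha1
  set b0 : ℝ := (l * ((1 / 8) * (8 * η ^ 3))).re with hb0
  set b1 : ℝ := (l * ((1 / 8) * (8 * I * η ^ 3))).re with hb1
  have hA : ((a0 : ℂ) + (a1 : ℂ) * I) = l * ((3 / 16) * y * η ^ 2) := by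
    have h1 : a0 = (l * ((3 / 16) * y * η ^ 2)).re := by rw [ha0]; congr 1; ring
    have h2 : a1 = (l * ((3 / 16) * y * η ^ 2)).im := by
      rw [ha1, show l * ((1 / 8) * y * (3 * η ^ 2 * -(I / 2)))
        = -(I * (l * ((3 / 16) * y * η ^ 2))) by ring]
      simp only [Complex.neg_re, Complex.mul_re, Complex.I_re, Complex.I_im, zero_mul, one_mul,
        zero_sub, neg_neg]
    rw [h1, h2, Complex.re_add_im]
  have hB : ((b0 : ℂ) - (b1 : ℂ) * I) = l * η ^ 3 := by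
    have h1 : b0 = (l * η ^ 3).re := by rw [hb0]; congr 1; ring
    have h2 : b1 = -(l * η ^ 3).im := by
      rw [hb1, show l * ((1 / 8) * (8 * I * η ^ 3)) = I * (l * η ^ 3) by ring]
      simp only [Complex.mul_re, Complex.I_re, Complex.I_im, zero_mul, one_mul, zero_sub]
    rw [h1, h2]
    push_cast
    rw [neg_mul, sub_neg_eq_add, Complex.re_add_im]
  have k1 : a0 • ((8 : ℂ) * η ^ 3) + a1 • (8 * I * η ^ 3) - b0 • (y * (3 * η ^ 2 * (1 / 2)))
      - b1 • (y * (3 * η ^ 2 * -(I / 2))) = 0 := by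
    simp only [Complex.real_smul]
    have : (a0 : ℂ) * (8 * η ^ 3) + a1 * (8 * I * η ^ 3) - b0 * (y * (3 * η ^ 2 * (1 / 2)))
        - b1 * (y * (3 * η ^ 2 * -(I / 2)))
        = 8 * η ^ 3 * (a0 + a1 * I) - (3 / 2) * y * η ^ 2 * (b0 - b1 * I) := by ring
    rw [this, hA, hB]
    ring
  have k2 : b0 • (-(2 * (1 / 2 : ℂ)) * (η ^ 3)⁻¹) + b1 • (-(2 * -(I / 2)) * (η ^ 3)⁻¹) + l = 0 := by
    simp only [Complex.real_smul]
    have : (b0 : ℂ) * (-(2 * (1 / 2 : ℂ)) * (η ^ 3)⁻¹) + b1 * (-(2 * -(I / 2)) * (η ^ 3)⁻¹) + l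
        = -(η ^ 3)⁻¹ * (b0 - b1 * I) + l := by ring
    rw [this, hB]
    have h3 : η ^ 3 ≠ 0 := pow_ne_zero 3 hη
    field_simp
    ring
  have m1 := congrArg LC k1
  have m2 := congrArg LB k2
  simp only [map_add, map_sub, map_smul, map_zero, smul_eq_mul] at m1 m2
  have m3 : LB (-l) = - LB l := map_neg _ _
  rw [m3]
  linear_combination B * m1 - C * m2

/-- general transport statement at an interior point, in cell coordinates -/
theorem transport_core {w0 l : ℂ} {ind : ℂ → ℝ} (hind : Continuous ind)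
    (hw1 : ∀ σ ∈ Set.Ioo (-1 : ℝ) 3, 1 ≤ ‖w0 + σ * l‖)
    (hw2 : ∀ σ ∈ Set.Ioo (-1 : ℝ) 3, ‖w0 + σ * l‖ ^ 2 ≤ 5)
    (hsep : ∀ σ ∈ Set.Ioo (-1 : ℝ) 3, ∀ η : ℂ, η ≠ 0 → ind η = 0 → 1 ≤ ‖(η ^ 2)⁻¹ - (w0 + σ * l)‖)
    {p : T2 → E → ℝ} {pc : E → E → ℝ} (hp : p = fun θ ξ => pc (cell θ) ξ)
    (hpc : ∀ c ξ : E, sC c ≤ 1 → pc c ξ = (l * ((1 / 8) * yC c * eta ξ ^ 3)).re)
    {σ : ℝ} (hσ : σ ∈ Set.Icc (0 : ℝ) 2) (x ξ : E) :
    fam' w0 l ind σ (proj x) ξ + pb (toCx p) (fam w0 l ind σ) x ξ = 0 := by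
  have hσ' : σ ∈ Set.Ioo (-1 : ℝ) 3 := ⟨by linarith [hσ.1], by linarith [hσ.2]⟩
  set c := cell (proj x) with hc
  have hsm := chi_contDiffAt hind hw1 hw2 hsep hσ' ξ c
  -- the three restrictions
  have hσc : ContDiffAt ℝ ∞ (fun τ : ℝ => ((τ, ξ, c) : ℝ × E × E)) σ := by
    have : ContDiff ℝ ∞ (fun τ : ℝ => ((τ, ξ, c) : ℝ × E × E)) := by fun_prop
    exact this.contDiffAt
  have hcc : ContDiffAt ℝ ∞ (fun c' : E => ((σ, ξ, c') : ℝ × E × E)) c := by
    have : ContDiff ℝ ∞ (fun c' : E => ((σ, ξ, c') : ℝ × E × E)) := by fun_prop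
    exact this.contDiffAt
  have hξc : ContDiffAt ℝ ∞ (fun ξ' : E => ((σ, ξ', c) : ℝ × E × E)) ξ := by
    have : ContDiff ℝ ∞ (fun ξ' : E => ((σ, ξ', c) : ℝ × E × E)) := by fun_prop
    exact this.contDiffAt
  have hdc : DifferentiableAt ℝ (fun c' : E => chi (w0 + σ * l) ind c' ξ) c :=
    (ContDiffAt.comp c (f := fun c' : E => ((σ, ξ, c') : ℝ × E × E)) hsm hcc).differentiableAt
      (by simp)
  have hdξ : DifferentiableAt ℝ (fun ξ' : E => chi (w0 + σ * l) ind c ξ') ξ :=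
    (ContDiffAt.comp ξ (f := fun ξ' : E => ((σ, ξ', c) : ℝ × E × E)) hsm hξc).differentiableAt
      (by simp)
  rcases loc hind hw1 hw2 hsep hσ' ξ c with h | h
  · -- locally zero
    have z1 : fam' w0 l ind σ (proj x) ξ = 0 := by
      have h1 : (fun τ => fam w0 l ind τ (proj x) ξ) =ᶠ[nhds σ] fun _ => (0 : ℂ) := by
        have := hσc.continuousAt.eventually h
        filter_upwards [this] with τ hτ
        exact hτ
      show deriv (fun τ => fam w0 l ind τ (proj x) ξ) σ = 0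
      rw [h1.deriv_eq]
      simp
    have z2 : ∀ i : Fin 2, dxi i (fam w0 l ind σ) x ξ = 0 := by
      intro i
      have h1 : (fun ξ' : E => fam w0 l ind σ (proj x) ξ') =ᶠ[nhds ξ] fun _ => (0 : ℂ) := by
        have := hξc.continuousAt.eventually h
        filter_upwards [this] with τ hτ
        exact hτ
      show fderiv ℝ (fun ξ' : E => fam w0 l ind σ (proj x) ξ') ξ (Pi.single i 1) = 0
      rw [h1.fderiv_eq]
      simp
    have z3 : ∀ i : Fin 2, dx i (fam w0 l ind σ) x ξ = 0 := by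
      intro i
      by_cases hin : ‖cell (proj x)‖ < 1 / 2
      · have h2 : dx i (fam w0 l ind σ) x ξ
            = fderiv ℝ (fun c' : E => chi (w0 + σ * l) ind c' ξ) (cell (proj x)) (Pi.single i 1) :=
          dx_cell (g := fun c' ξ' => chi (w0 + σ * l) ind c' ξ') hin i
        rw [h2]
        have h1 : (fun c' : E => chi (w0 + σ * l) ind c' ξ) =ᶠ[nhds c] fun _ => (0 : ℂ) := by
          have := hcc.continuousAt.eventually h
          filter_upwards [this] with τ hτ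
          exact hτ
        rw [← hc, h1.fderiv_eq]
        simp
      · have hn : ‖cell (proj x)‖ = 1 / 2 := le_antisymm (norm_cell_le _) (not_lt.1 hin)
        have h1 : (fun y : E => fam w0 l ind σ (proj y) ξ) =ᶠ[nhds x] fun _ => (0 : ℂ) := by
          filter_upwards [cell_eventually' hn (ρ := 1 / 8) (by norm_num)] with y hy
          rcases loc hind hw1 hw2 hsep hσ' ξ (cell (proj y)) with h3 | h3
          · exact h3.self_of_nhds
          · exact absurd (one_le_sC hy.le) (not_le.2 h3.2.2.2)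
        show fderiv ℝ (fun y : E => fam w0 l ind σ (proj y) ξ) x (Pi.single i 1) = 0
        rw [h1.fderiv_eq]
        simp
    unfold pb
    simp only [z1, z2, z3, mul_zero, sub_zero, Finset.sum_const_zero, add_zero]
  · -- good range
    obtain ⟨hη, hi, -, hs⟩ := h
    have hin : ‖cell (proj x)‖ < 1 / 2 := by
      by_contra hcon
      have : 1 / 8 ≤ ‖c‖ := by
        rw [hc]
        linarith [not_lt.1 hcon]
      exact absurd (one_le_sC this) (not_le.2 hs)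
    have hgood := good_eventually (w0 := w0) (v := l) hind (σ := σ) (ξ := ξ) (c := c) hi
    -- derivative in `σ`
    have g1 : fam' w0 l ind σ (proj x) ξ = ((fderiv ℝ (bmpC (1 / 4))
        ((eta ξ ^ 2)⁻¹ - (w0 + σ * l)) (-l) * bmpC (1 / 64) (yC c * eta ξ ^ 3) : ℝ) : ℂ) := by
      have h1 : (fun τ => fam w0 l ind τ (proj x) ξ) =ᶠ[nhds σ]
          fun τ => ((chiS (w0 + τ * l) (yC c) (eta ξ) : ℝ) : ℂ) := by
        have := hσc.continuousAt.eventually hgood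
        filter_upwards [this] with τ hτ
        exact hτ
      show deriv (fun τ => fam w0 l ind τ (proj x) ξ) σ = _
      rw [h1.deriv_eq]
      refine HasDerivAt.deriv ?_
      have h2 : HasDerivAt (fun τ : ℝ => (eta ξ ^ 2)⁻¹ - (w0 + (τ : ℂ) * l)) (-l) σ := by
        have h3 : HasDerivAt (fun τ : ℝ => (τ : ℂ)) 1 σ := Complex.ofRealCLM.hasDerivAt
        have h4 := ((h3.mul_const l).const_add w0).const_sub ((eta ξ ^ 2)⁻¹)
        rwa [one_mul] at h4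
      exact ((bmpC_hasDerivAt (1 / 4) h2).mul_const (bmpC (1 / 64) (yC c * eta ξ ^ 3))).ofReal_comp
    -- derivative in `ξ`
    have g2 : ∀ i : Fin 2, dxi i (fam w0 l ind σ) x ξ
        = ((fderiv ℝ (bmpC (1 / 4)) ((eta ξ ^ 2)⁻¹ - (w0 + σ * l))
              (-(2 * eta (Pi.single i 1)) * (eta ξ ^ 3)⁻¹) * bmpC (1 / 64) (yC c * eta ξ ^ 3)
            + bmpC (1 / 4) ((eta ξ ^ 2)⁻¹ - (w0 + σ * l))
              * fderiv ℝ (bmpC (1 / 64)) (yC c * eta ξ ^ 3)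
                (yC c * (3 * eta ξ ^ 2 * eta (Pi.single i 1))) : ℝ) : ℂ) := by
      intro i
      show fderiv ℝ (fun ξ' : E => chi (w0 + σ * l) ind c ξ') ξ (Pi.single i 1) = _
      refine fderiv_line hdξ ?_
      have h0 : eta (ξ + (0 : ℝ) • (Pi.single i 1 : E)) = eta ξ := by rw [zero_smul, add_zero]
      have h1 : (fun t : ℝ => chi (w0 + σ * l) ind c (ξ + t • (Pi.single i 1 : E))) =ᶠ[nhds 0]
          fun t => ((chiS (w0 + σ * l) (yC c) (eta (ξ + t • (Pi.single i 1 : E))) : ℝ) : ℂ) := by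
        have hl : Filter.Tendsto (fun t : ℝ => ((σ, ξ + t • (Pi.single i 1 : E), c) : ℝ × E × E))
            (nhds 0) (nhds (σ, ξ, c)) := by
          have : Continuous (fun t : ℝ => ((σ, ξ + t • (Pi.single i 1 : E), c) : ℝ × E × E)) := by
            fun_prop
          have h2 := this.tendsto 0
          simpa using h2
        filter_upwards [hl.eventually hgood] with t ht
        exact ht
      refine HasDerivAt.congr_of_eventuallyEq ?_ h1
      have h3 := bmpC_hasDerivAt (1 / 4) ((W_hasDerivAt (e := Pi.single i 1) hη).sub_const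
        (w0 + σ * l))
      have h4 := bmpC_hasDerivAt (1 / 64) (u_hasDerivAt_xi c ξ (Pi.single i 1))
      simp only [h0] at h3 h4
      have h5 := h3.mul h4
      simp only [h0] at h5
      exact h5.ofReal_comp
    -- derivative in `c`
    have g3 : ∀ i : Fin 2, dx i (fam w0 l ind σ) x ξ
        = ((bmpC (1 / 4) ((eta ξ ^ 2)⁻¹ - (w0 + σ * l))
              * fderiv ℝ (bmpC (1 / 64)) (yC c * eta ξ ^ 3)
                (yC (Pi.single i 1) * eta ξ ^ 3) : ℝ) : ℂ) := by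
      intro i
      have h2 : dx i (fam w0 l ind σ) x ξ
          = fderiv ℝ (fun c' : E => chi (w0 + σ * l) ind c' ξ) (cell (proj x)) (Pi.single i 1) :=
        dx_cell (g := fun c' ξ' => chi (w0 + σ * l) ind c' ξ') hin i
      rw [h2, ← hc]
      refine fderiv_line hdc ?_
      have h0 : yC (c + (0 : ℝ) • (Pi.single i 1 : E)) = yC c := by rw [zero_smul, add_zero]
      have h1 : (fun t : ℝ => chi (w0 + σ * l) ind (c + t • (Pi.single i 1 : E)) ξ) =ᶠ[nhds 0]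
          fun t => ((chiS (w0 + σ * l) (yC (c + t • (Pi.single i 1 : E))) (eta ξ) : ℝ) : ℂ) := by
        have hl : Filter.Tendsto (fun t : ℝ => ((σ, ξ, c + t • (Pi.single i 1 : E)) : ℝ × E × E))
            (nhds 0) (nhds (σ, ξ, c)) := by
          have : Continuous (fun t : ℝ => ((σ, ξ, c + t • (Pi.single i 1 : E)) : ℝ × E × E)) := by
            fun_prop
          have h2 := this.tendsto 0
          simpa using h2
        filter_upwards [hl.eventually hgood] with t ht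
        exact ht
      refine HasDerivAt.congr_of_eventuallyEq ?_ h1
      have h4 := bmpC_hasDerivAt (1 / 64) (u_hasDerivAt_c c ξ (Pi.single i 1))
      simp only [h0] at h4
      exact (h4.const_mul (bmpC (1 / 4) ((eta ξ ^ 2)⁻¹ - (w0 + σ * l)))).ofReal_comp
    -- derivatives of `p`
    have hsC : Continuous sC := by unfold sC; fun_prop
    have hnear : ∀ᶠ c' in nhds c, sC c' ≤ 1 := by
      filter_upwards [hsC.continuousAt.eventually (isOpen_Iio.mem_nhds hs)] with c' hc'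
      exact le_of_lt hc'
    have q1 : ∀ i : Fin 2, dxi i (toCx p) x ξ
        = (((l * ((1 / 8) * yC c * (3 * eta ξ ^ 2 * eta (Pi.single i 1)))).re : ℝ) : ℂ) := by
      intro i
      have e1 : (fun ξ' : E => toCx p (proj x) ξ')
          = fun ξ' : E => (((l * ((1 / 8) * yC c * eta ξ' ^ 3)).re : ℝ) : ℂ) := by
        funext ξ'
        show ((p (proj x) ξ' : ℝ) : ℂ) = _
        rw [hp]
        show ((pc c ξ' : ℝ) : ℂ) = _
        rw [hpc c ξ' hs.le]
      show fderiv ℝ (fun ξ' : E => toCx p (proj x) ξ') ξ (Pi.single i 1) = _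
      rw [e1]
      refine fderiv_line ?_ ?_
      · have h1 : ContDiff ℝ ∞ (fun ξ' : E => l * ((1 / 8) * yC c * eta ξ' ^ 3)) :=
          contDiff_const.mul (contDiff_const.mul (tr_eta_contDiff.pow 3))
        have h2 := (Complex.ofRealCLM.contDiff (n := ∞)).comp
          ((Complex.reCLM.contDiff (n := ∞)).comp h1)
        exact (h2.differentiable (by simp)) ξ
      · have h1 := ((u_hasDerivAt_xi (c := c) ξ (Pi.single i 1)).const_mul (l * (1 / 8)))
        have h2 := (Complex.reCLM.hasFDerivAt.comp_hasDerivAt (0 : ℝ) h1).ofReal_comp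
        refine (h2.congr_deriv ?_).congr_of_eventuallyEq (Filter.Eventually.of_forall fun t => ?_)
        · simp only [Complex.reCLM_apply]
          congr 2
          ring
        · simp only [Function.comp_apply, Complex.reCLM_apply]
          congr 2
          ring
    have q2 : ∀ i : Fin 2, dx i (toCx p) x ξ
        = (((l * ((1 / 8) * (yC (Pi.single i 1) * eta ξ ^ 3))).re : ℝ) : ℂ) := by
      intro i
      have h2 : dx i (toCx p) x ξ
          = fderiv ℝ (fun c' : E => ((pc c' ξ : ℝ) : ℂ)) (cell (proj x)) (Pi.single i 1) := by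
        have e1 : toCx p = fun θ ξ => (fun c' ξ' => ((pc c' ξ' : ℝ) : ℂ)) (cell θ) ξ := by
          rw [hp]
          rfl
        rw [e1]
        exact dx_cell (g := fun c' ξ' => ((pc c' ξ' : ℝ) : ℂ)) hin i
      rw [h2, ← hc]
      have e2 : (fun c' : E => ((pc c' ξ : ℝ) : ℂ)) =ᶠ[nhds c]
          fun c' : E => (((l * ((1 / 8) * yC c' * eta ξ ^ 3)).re : ℝ) : ℂ) := by
        filter_upwards [hnear] with c' hc'
        rw [hpc c' ξ hc']
      rw [e2.fderiv_eq]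
      refine fderiv_line ?_ ?_
      · have h1 : ContDiff ℝ ∞ (fun c' : E => l * ((1 / 8) * yC c' * eta ξ ^ 3)) :=
          contDiff_const.mul ((contDiff_const.mul tr_yC_contDiff).mul contDiff_const)
        have h2 := (Complex.ofRealCLM.contDiff (n := ∞)).comp
          ((Complex.reCLM.contDiff (n := ∞)).comp h1)
        exact (h2.differentiable (by simp)) c
      · have h1 := ((u_hasDerivAt_c c ξ (Pi.single i 1)).const_mul (l * (1 / 8)))
        have h2 := (Complex.reCLM.hasFDerivAt.comp_hasDerivAt (0 : ℝ) h1).ofReal_comp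
        refine (h2.congr_deriv ?_).congr_of_eventuallyEq (Filter.Eventually.of_forall fun t => ?_)
        · simp only [Complex.reCLM_apply]
          congr 2
          ring
        · simp only [Function.comp_apply, Complex.reCLM_apply]
          congr 2
          ring
    -- conclusion
    have hcore := core_identity (l := l) (y := yC c) (η := eta ξ) (w := w0 + σ * l) hη
    unfold pb
    simp only [g1, g2, g3, q1, q2]
    rw [← Complex.ofReal_zero, ← hcore]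
    push_cast
    ring

/-- transport along the flow of `p1`: `v = 1` -/
theorem fam_transport1 {w0 : ℂ} {ind : ℂ → ℝ} (hind : Continuous ind)
    (hw1 : ∀ σ ∈ Set.Ioo (-1 : ℝ) 3, 1 ≤ ‖w0 + σ * 1‖)
    (hw2 : ∀ σ ∈ Set.Ioo (-1 : ℝ) 3, ‖w0 + σ * 1‖ ^ 2 ≤ 5)
    (hsep : ∀ σ ∈ Set.Ioo (-1 : ℝ) 3, ∀ η : ℂ, η ≠ 0 → ind η = 0 → 1 ≤ ‖(η ^ 2)⁻¹ - (w0 + σ * 1)‖) :
    ∀ σ ∈ Set.Icc (0 : ℝ) 2, ∀ x ξ : E,
      fam' w0 1 ind σ (proj x) ξ + pb (toCx p1) (fam w0 1 ind σ) x ξ = 0 := by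
  intro σ hσ x ξ
  refine transport_core hind hw1 hw2 hsep (p := p1) (pc := p1c) rfl ?_ hσ x ξ
  intro c ξ' hs
  unfold p1c
  rw [hh_inner hs, om_zero (by linarith), zero_mul, add_zero, one_mul]

/-- transport along the flow of `p2`: `v = -i` -/
theorem fam_transport2 {w0 : ℂ} {ind : ℂ → ℝ} (hind : Continuous ind)
    (hw1 : ∀ σ ∈ Set.Ioo (-1 : ℝ) 3, 1 ≤ ‖w0 + σ * (-I)‖)
    (hw2 : ∀ σ ∈ Set.Ioo (-1 : ℝ) 3, ‖w0 + σ * (-I)‖ ^ 2 ≤ 5)
    (hsep : ∀ σ ∈ Set.Ioo (-1 : ℝ) 3, ∀ η : ℂ, η ≠ 0 → ind η = 0 →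
      1 ≤ ‖(η ^ 2)⁻¹ - (w0 + σ * (-I))‖) :
    ∀ σ ∈ Set.Icc (0 : ℝ) 2, ∀ x ξ : E,
      fam' w0 (-I) ind σ (proj x) ξ + pb (toCx p2) (fam w0 (-I) ind σ) x ξ = 0 := by
  intro σ hσ x ξ
  refine transport_core hind hw1 hw2 hsep (p := p2) (pc := p2c) rfl ?_ hσ x ξ
  intro c ξ' hs
  unfold p2c
  rw [hh_inner hs, om_zero (by linarith), zero_mul, add_zero, neg_mul, Complex.neg_re,
    Complex.I_mul_re, neg_neg]

end Pool.Agent.H56.Q
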