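import Pool.Agent.H56.Q.EgT
import Pool.Agent.H56.Q.Tr
import Pool.Agent.H56.Q.Ind

/-! The classical integrable system `(p1, p2)` on `T*𝕋²` has no exact quantisation. -/

set_option autoImplicit false

open MeasureTheory Complex
open scoped ContDiff ENNReal

noncomputable section

namespace Pool.Agent.H56.Q

section abs

variable {H : Type*} [NormedAddCommGroup H] [InnerProductSpace ℂ H] [CompleteSpace H] {ι : Type*}

theorem finOp_basis [DecidableEq ι] (b : HilbertBasis ι ℂ H) (K : Finset ι) (v : ι → H) (l : ι) :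
    finOp b K v (b l) = if l ∈ K then v l else 0 := by
  simp only [finOp, ContinuousLinearMap.coe_sum', Finset.sum_apply,
    ContinuousLinearMap.smulRight_apply, innerSL_apply_apply]
  have h : ∀ k, (inner ℂ (b k) (b l) : ℂ) • v k = if k = l then v k else 0 := by
    intro k
    rw [orthonormal_iff_ite.mp b.orthonormal k l]
    split_ifs <;> simp
  simp only [h]
  rw [Finset.sum_ite_eq']

theorem group_inv {U : ℝ → H →L[ℂ] H} (hU : IsUnitaryGroup U) (s : ℝ) :
    (U s).comp (U (-s)) = ContinuousLinearMap.id ℂ H := by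
  rw [← hU.add, add_neg_cancel, hU.zero]

theorem group_inv' {U : ℝ → H →L[ℂ] H} (hU : IsUnitaryGroup U) (s : ℝ) :
    (U (-s)).comp (U s) = ContinuousLinearMap.id ℂ H := by
  rw [← hU.add, neg_add_cancel, hU.zero]

/-- conjugation does not change the Hilbert-Schmidt norm -/
theorem hs_conj (b : HilbertBasis ι ℂ H) {U : ℝ → H →L[ℂ] H} (hU : IsUnitaryGroup U) (s : ℝ)
    (T : H →L[ℂ] H) : hs b ((U (-s)).comp (T.comp (U s))) = hs b T := by
  rw [hs_comp_left b _ _ (hU.norm _), hs_comp_right b T (U s) (U (-s)) (hU.norm _)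
    (group_inv hU s) (group_inv' hU s)]

/-- two consecutive legs -/
theorem two_legs (b : HilbertBasis ι ℂ H) {U V : ℝ → H →L[ℂ] H} (hU : IsUnitaryGroup U)
    {X Y Z : H →L[ℂ] H} {C1 C2 : ℝ≥0∞}
    (h1 : hs b ((U (-2)).comp (Y.comp (U 2)) - X) ≤ C1)
    (h2 : hs b ((V (-2)).comp (Z.comp (V 2)) - Y) ≤ C2) :
    hs b (((U (-2)).comp (V (-2))).comp (Z.comp ((V 2).comp (U 2))) - X) ≤ 2 * C1 + 2 * C2 := by
  have e : ((U (-2)).comp (V (-2))).comp (Z.comp ((V 2).comp (U 2))) - X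
      = ((U (-2)).comp (Y.comp (U 2)) - X)
        + (U (-2)).comp ((((V (-2)).comp (Z.comp (V 2)) - Y)).comp (U 2)) := by
    ext v
    simp
  rw [e]
  refine (hs_add_le b _ _).trans ?_
  rw [hs_conj b hU]
  gcongr

end abs

/-- start and end symbols of a leg -/
theorem fam_two (w0 v : ℂ) (ind : ℂ → ℝ) : fam w0 v ind 2 = fam (w0 + 2 * v) 0 ind 0 := by
  funext θ ξ
  simp [fam]

theorem fam_zero (w0 v v' : ℂ) (ind : ℂ → ℝ) : fam w0 v ind 0 = fam w0 v' ind 0 := by
  funext θ ξ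
  simp [fam]

theorem exists_K {ħ : ℝ} (h0 : 0 < ħ) (R : ℝ) :
    ∃ K : Finset (Fin 2 → ℤ), ∀ k, ‖freq ħ k‖ < R → k ∈ K := by
  obtain ⟨N, hN⟩ := exists_nat_gt (R / (2 * Real.pi * ħ))
  have hpi := Real.pi_pos
  refine ⟨Finset.Icc (fun _ => -(N : ℤ)) (fun _ => (N : ℤ)), fun k hk => ?_⟩
  have hpos : 0 < 2 * Real.pi * ħ := by positivity
  have h : ∀ i, |(k i : ℝ)| < N := by
    intro i
    have h1 : |freq ħ k i| < R := lt_of_le_of_lt (norm_le_pi_norm (freq ħ k) i) hk
    have h2 : |freq ħ k i| = 2 * Real.pi * ħ * |(k i : ℝ)| := by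
      simp only [freq, abs_mul, abs_of_pos hpi, abs_of_pos h0, abs_two]
    rw [h2] at h1
    have : |(k i : ℝ)| < R / (2 * Real.pi * ħ) := by
      rw [lt_div_iff₀ hpos]; linarith
    exact this.trans hN
  rw [Finset.mem_Icc]
  constructor
  · intro i
    have := (abs_lt.mp (h i)).1
    have h3 : (-(N : ℤ) : ℝ) < (k i : ℝ) := by push_cast; linarith
    exact_mod_cast h3.le
  · intro i
    have := (abs_lt.mp (h i)).2
    exact_mod_cast this.le

theorem not_quantised : ¬ IsQuantised p1 p2 := by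
  rintro ⟨ħ0, hħ0, m1, m2, a1, a2, hs1, hs2, hq⟩
  have cA : Continuous indA := Complex.continuous_re
  have cB : Continuous indB := Complex.continuous_im.neg
  obtain ⟨⟨hA1, hA2⟩, hB1, hB2⟩ := legs
  obtain ⟨CA1, hCA1, EA1⟩ := egorov_torus
    (fam_nice cA (fun σ h => (hA1 σ h).1) (fun σ h => (hA1 σ h).2.1) (fun σ h => (hA1 σ h).2.2)) hs1
    (fam_transport1 cA (fun σ h => (hA1 σ h).1) (fun σ h => (hA1 σ h).2.1)
      (fun σ h => (hA1 σ h).2.2))
  obtain ⟨CA2, hCA2, EA2⟩ := egorov_torus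
    (fam_nice cA (fun σ h => (hA2 σ h).1) (fun σ h => (hA2 σ h).2.1) (fun σ h => (hA2 σ h).2.2)) hs2
    (fam_transport2 cA (fun σ h => (hA2 σ h).1) (fun σ h => (hA2 σ h).2.1)
      (fun σ h => (hA2 σ h).2.2))
  obtain ⟨CB1, hCB1, EB1⟩ := egorov_torus
    (fam_nice cB (fun σ h => (hB1 σ h).1) (fun σ h => (hB1 σ h).2.1) (fun σ h => (hB1 σ h).2.2)) hs2
    (fam_transport2 cB (fun σ h => (hB1 σ h).1) (fun σ h => (hB1 σ h).2.1)
      (fun σ h => (hB1 σ h).2.2))
  obtain ⟨CB2, hCB2, EB2⟩ := egorov_torus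
    (fam_nice cB (fun σ h => (hB2 σ h).1) (fun σ h => (hB2 σ h).2.1) (fun σ h => (hB2 σ h).2.2)) hs1
    (fam_transport1 cB (fun σ h => (hB2 σ h).1) (fun σ h => (hB2 σ h).2.1)
      (fun σ h => (hB2 σ h).2.2))
  have nA2 := fam_nice cA (fun σ h => (hA2 σ h).1) (fun σ h => (hA2 σ h).2.1)
    (fun σ h => (hA2 σ h).2.2)
  have nB2 := fam_nice cB (fun σ h => (hB2 σ h).1) (fun σ h => (hB2 σ h).2.1)
    (fun σ h => (hB2 σ h).2.2)
  -- the difference of the final symbols
  set d : T2 → E → ℂ := fun x ξ => fam (1 + I) (-I) indA 2 x ξ - fam (-1 - I) 1 indB 2 x ξ with hd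
  have h2mem : (2 : ℝ) ∈ Set.Ioo (-1 : ℝ) 3 := by constructor <;> norm_num
  have h2mem' : (2 : ℝ) ∈ Set.Icc (0 : ℝ) 2 := by constructor <;> norm_num
  have hdc : Continuous fun z : E × E => d (proj z.1) z.2 :=
    (nA2.smooth_at h2mem).continuous.sub (nB2.smooth_at h2mem).continuous
  obtain ⟨ξ0, hξ0⟩ := chi_end
  have hcell0 : cell (proj 0) = 0 := cell_proj (by intro i; norm_num)
  have hd0 : d (proj 0) ξ0 ≠ 0 := by
    simp only [hd, fam, hcell0]
    have e1 : (1 + I : ℂ) + ((2 : ℝ) : ℂ) * (-I) = 1 - I := by push_cast; ring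
    have e2 : (-1 - I : ℂ) + ((2 : ℝ) : ℂ) * 1 = 1 - I := by push_cast; ring
    rw [e1, e2]
    exact hξ0
  obtain ⟨c, hc, ħ1, hħ1, hlow⟩ := lower_bound hdc hd0
  -- total constant
  set C : ℝ := 2 * (2 * CA1 + 2 * CA2) + 2 * (2 * CB1 + 2 * CB2) with hC
  have hC0 : 0 ≤ C := by positivity
  obtain ⟨ħ, hpos, hle0, hle1, hle2, hbig⟩ : ∃ ħ : ℝ, 0 < ħ ∧ ħ ≤ ħ0 ∧ ħ ≤ 1 ∧ ħ ≤ ħ1 ∧
      C < c / ħ ^ 2 := by
    have hr : 0 < c / (C + 1) := by positivity
    refine ⟨min (min ħ0 1) (min ħ1 (c / (C + 1))), by positivity, ?_, ?_, ?_, ?_⟩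
    · exact (min_le_left _ _).trans (min_le_left _ _)
    · exact (min_le_left _ _).trans (min_le_right _ _)
    · exact (min_le_right _ _).trans (min_le_left _ _)
    · set ħ := min (min ħ0 1) (min ħ1 (c / (C + 1))) with hħ
      have hp : 0 < ħ := by positivity
      have hl1 : ħ ≤ 1 := (min_le_left _ _).trans (min_le_right _ _)
      have hl2 : ħ ≤ c / (C + 1) := (min_le_right _ _).trans (min_le_right _ _)
      rw [lt_div_iff₀ (by positivity)]
      rw [le_div_iff₀ (by positivity)] at hl2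
      nlinarith [mul_le_mul_of_nonneg_left hl1 hp.le]
  obtain ⟨U1, U2, hU1, hU2, hg1, hg2, hcomm⟩ := hq ħ hpos hle0
  obtain ⟨bas, hbas⟩ := exists_basis
  obtain ⟨K, hK⟩ := exists_K hpos 3
  have lA1 := EA1 ħ hpos hle0 hle1 U1 hU1 hg1 bas hbas K hK
  have lA2 := EA2 ħ hpos hle0 hle1 U2 hU2 hg2 bas hbas K hK
  have lB1 := EB1 ħ hpos hle0 hle1 U2 hU2 hg2 bas hbas K hK
  have lB2 := EB2 ħ hpos hle0 hle1 U1 hU1 hg1 bas hbas K hK
  -- matching of the symbols
  have mA : fam (-1 + I) 1 indA 2 = fam (1 + I) (-I) indA 0 := by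
    rw [fam_two, fam_zero _ (-I) 0]
    congr 1; ring
  have mB : fam (-1 + I) (-I) indB 2 = fam (-1 - I) 1 indB 0 := by
    rw [fam_two, fam_zero _ 1 0]
    congr 1; ring
  have mS : fam (-1 + I) 1 indA 0 = fam (-1 + I) (-I) indB 0 := by
    funext θ ξ
    simp only [fam, ofReal_zero, zero_mul, add_zero]
    exact chi_start _ _
  rw [mA] at lA1
  rw [mB] at lB1
  rw [mS] at lA1
  have rA := two_legs bas hU1 lA1 lA2
  have rB := two_legs bas hU2 lB1 lB2
  rw [hcomm 2 2] at rB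
  rw [← hcomm (-2) (-2)] at rB
  set ZA := finOp bas K (fun k => cls fun x => fam (1 + I) (-I) indA 2 x (freq ħ k) * ek k x)
    with hZA
  set ZB := finOp bas K (fun k => cls fun x => fam (-1 - I) 1 indB 2 x (freq ħ k) * ek k x)
    with hZB
  set X := finOp bas K (fun k => cls fun x => fam (-1 + I) (-I) indB 0 x (freq ħ k) * ek k x)
    with hX
  -- the difference
  have e : (U1 (-2)).comp ((U2 (-2)).comp ((ZA - ZB).comp ((U2 2).comp (U1 2))))
      = (((U1 (-2)).comp (U2 (-2))).comp (ZA.comp ((U2 2).comp (U1 2))) - X)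
        - (((U1 (-2)).comp (U2 (-2))).comp (ZB.comp ((U2 2).comp (U1 2))) - X) := by
    ext v
    simp
  have hup : hs bas (ZA - ZB) ≤ ENNReal.ofReal C := by
    have e3 : hs bas ((U1 (-2)).comp ((U2 (-2)).comp ((ZA - ZB).comp ((U2 2).comp (U1 2)))))
        = hs bas (ZA - ZB) := by
      have : (U1 (-2)).comp ((U2 (-2)).comp ((ZA - ZB).comp ((U2 2).comp (U1 2))))
          = (U1 (-2)).comp (((U2 (-2)).comp ((ZA - ZB).comp (U2 2))).comp (U1 2)) := by
        ext v; simp
      rw [this, hs_conj bas hU1, hs_conj bas hU2]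
    rw [← e3, e]
    refine (hs_sub_le bas _ _).trans ?_
    calc _ ≤ 2 * (2 * ENNReal.ofReal CA1 + 2 * ENNReal.ofReal CA2)
        + 2 * (2 * ENNReal.ofReal CB1 + 2 * ENNReal.ofReal CB2) := by gcongr
      _ = ENNReal.ofReal C := by
        rw [hC, ENNReal.ofReal_add (by positivity) (by positivity),
          ENNReal.ofReal_mul (by norm_num), ENNReal.ofReal_mul (by norm_num),
          ENNReal.ofReal_add (by positivity) (by positivity),
          ENNReal.ofReal_add (by positivity) (by positivity),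
          ENNReal.ofReal_mul (by norm_num), ENNReal.ofReal_mul (by norm_num),
          ENNReal.ofReal_mul (by norm_num), ENNReal.ofReal_mul (by norm_num)]
        norm_num
  have hdn : hs bas (ZA - ZB) = ∑' k, ‖cls (fun x => d x (freq ħ k) * ek k x)‖ₑ ^ 2 := by
    classical
    unfold hs
    congr 1
    ext1 k
    congr 2
    rw [ContinuousLinearMap.sub_apply, hZA, hZB, finOp_basis, finOp_basis]
    have cc1 : Continuous fun x => fam (1 + I) (-I) indA 2 x (freq ħ k) * ek k x :=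
      (nice_cont nA2 h2mem' _).mul (continuous_ek k)
    have cc2 : Continuous fun x => fam (-1 - I) 1 indB 2 x (freq ħ k) * ek k x :=
      (nice_cont nB2 h2mem' _).mul (continuous_ek k)
    have e4 : (fun x => d x (freq ħ k) * ek k x)
        = fun x => (fam (1 + I) (-I) indA 2 x (freq ħ k) * ek k x)
          + (-1) * (fam (-1 - I) 1 indB 2 x (freq ħ k) * ek k x) := by
      ext x; simp only [hd]; ring
    have cc3 : Continuous fun x => (-1 : ℂ) * (fam (-1 - I) 1 indB 2 x (freq ħ k) * ek k x) :=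
      continuous_const.mul cc2
    rw [e4, cls_add cc1 cc3, cls_smul _ cc2]
    split_ifs with hk
    · rw [neg_one_smul, sub_eq_add_neg]
    · have hk' : (3 : ℝ) ≤ ‖freq ħ k‖ := by
        by_contra hcon
        exact hk (hK k (not_le.mp hcon))
      have z1 : (fun x : T2 => fam (1 + I) (-I) indA 2 x (freq ħ k) * ek k x)
          = fun x => (0 : ℂ) * ek k x := by
        ext x; rw [nA2.supp 2 h2mem x _ hk', zero_mul]
      have z2 : (fun x : T2 => fam (-1 - I) 1 indB 2 x (freq ħ k) * ek k x)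
          = fun x => (0 : ℂ) * ek k x := by
        ext x; rw [nB2.supp 2 h2mem x _ hk', zero_mul]
      rw [z1, z2, cls_smul _ (continuous_ek k)]
      simp
  have hlow' := hlow ħ hpos hle2
  rw [← hdn] at hlow'
  have := hlow'.trans hup
  rw [ENNReal.ofReal_le_ofReal_iff hC0] at this
  linarith

/-- `(p1, p2)` is a classical integrable system on `T*𝕋²` with symbols of order `3` and it admits no
exact quantisation. -/
theorem main : IsClassicalIntegrable 3 p1 p2 ∧ ¬ IsQuantised p1 p2 :=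
  ⟨⟨p1_KN, p2_KN, p_commute, p_indep⟩, not_quantised⟩

end Pool.Agent.H56.Q
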