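import Pool.Agent.H56.Q.Defs

/-!
The classical system.  `cell : T2 → E` is the representative in `(-1/2, 1/2]²`, `y = 8 (c₀ + i c₁)`,
`s = |y|² = 64 (c₀² + c₁²)`, `η = (ξ₀ - i ξ₁)/2`.

`hh = (1/8) y E(s) Θ³` with `Θ = (1 - κ s) η - κ ȳ² η̄`, supported in the disc `s ≤ 2`,
and `hh = (1/8) y η³` for `s ≤ 1`.  The functions `E`, `κ` satisfy `2 κ (E - s E') = - E'`, and this
is exactly what is needed for `{hh, conj hh} = 0`.

`p1 = Re hh + ω(s) sin (2π c₀)`, `p2 = Im hh + ω(s) sin (2π c₁)`, `ω = 0` for `s ≤ 2`, `ω = 1` for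
`s ≥ 3`.
-/

set_option autoImplicit false

open MeasureTheory Complex
open scoped ContDiff ComplexConjugate

noncomputable section

namespace Pool.Agent.H56.Q

/-- representative of a point of the torus in `(-1/2, 1/2]²` -/
def cell (θ : T2) : E := fun i => ((AddCircle.equivIoc (1 : ℝ) (-1 / 2)) (θ i) : ℝ)

/-- `y = 8 (c₀ + i c₁)` -/
def yC (c : E) : ℂ := 8 * ((c 0 : ℂ) + (c 1 : ℂ) * I)

/-- `s = |y|²` -/
def sC (c : E) : ℝ := 64 * ((c 0) ^ 2 + (c 1) ^ 2)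

/-- `η = (ξ₀ - i ξ₁) / 2` -/
def eta (ξ : E) : ℂ := ((ξ 0 : ℂ) - (ξ 1 : ℂ) * I) / 2

/-- `E(s)`: equal to `1` for `s ≤ 1`, positive for `s < 2`, zero for `s ≥ 2` -/
def EE (s : ℝ) : ℝ := Real.smoothTransition (2 - s)

def NN (s : ℝ) : ℝ :=
  (expNegInvGlue (s - 1) + (2 - s) ^ 2 * deriv expNegInvGlue (s - 1))
    / (expNegInvGlue (2 - s) + expNegInvGlue (s - 1))

/-- `κ(s)`, with `2 κ (E - s E') = - E'` -/
def kap (s : ℝ) : ℝ := NN s / (2 * ((2 - s) ^ 2 + s * NN s))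

/-- `Θ = (1 - κ s) η - κ ȳ² η̄` -/
def Th (c ξ : E) : ℂ :=
  (1 - (kap (sC c) : ℂ) * (sC c : ℂ)) * eta ξ - (kap (sC c) : ℂ) * conj (yC c) ^ 2 * conj (eta ξ)

/-- `hh = (1/8) y E(s) Θ³` -/
def hh (c ξ : E) : ℂ := (1 / 8) * yC c * (EE (sC c) : ℂ) * Th c ξ ^ 3

/-- `ω(s)`: zero for `s ≤ 2`, one for `s ≥ 3` -/
def om (s : ℝ) : ℝ := Real.smoothTransition (s - 2)

def p1c (c ξ : E) : ℝ := (hh c ξ).re + om (sC c) * Real.sin (2 * Real.pi * c 0)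

def p2c (c ξ : E) : ℝ := (hh c ξ).im + om (sC c) * Real.sin (2 * Real.pi * c 1)

/-- first Hamiltonian on `T*𝕋²` -/
def p1 (θ : T2) (ξ : E) : ℝ := p1c (cell θ) ξ

/-- second Hamiltonian on `T*𝕋²` -/
def p2 (θ : T2) (ξ : E) : ℝ := p2c (cell θ) ξ

end Pool.Agent.H56.Q
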