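import Pool.Agent.H56.Q.Sys

/-! Module AA: the cut-off symbols and elementary facts on the four legs.

The symbol `chi w ind` is `bmp (1/4) |W - w|² · bmp (1/64) |y η³|²` on the sheet `ind η > 0`, and
`0` elsewhere; `W = η^(-2)`. -/

set_option autoImplicit false

open MeasureTheory Complex
open scoped ContDiff ComplexConjugate

noncomputable section

namespace Pool.Agent.H56.Q

/-- bump function: positive for `v < r`, zero for `v ≥ r` -/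
def bmp (r v : ℝ) : ℝ := expNegInvGlue (r - v)

/-- `W = η^(-2)` -/
def WW (ξ : E) : ℂ := (eta ξ ^ 2)⁻¹

def chi (w : ℂ) (ind : ℂ → ℝ) (c ξ : E) : ℂ :=
  if 0 < ind (eta ξ) then
    ((bmp (1 / 4) (‖WW ξ - w‖ ^ 2) * bmp (1 / 64) (‖yC c * eta ξ ^ 3‖ ^ 2) : ℝ) : ℂ)
  else 0

/-- the family `σ ↦ chi (w0 + σ v) ind` on the torus -/
def fam (w0 v : ℂ) (ind : ℂ → ℝ) (σ : ℝ) (θ : T2) (ξ : E) : ℂ :=
  chi (w0 + σ * v) ind (cell θ) ξ

/-- its `σ`-derivative -/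
def fam' (w0 v : ℂ) (ind : ℂ → ℝ) (σ : ℝ) (θ : T2) (ξ : E) : ℂ :=
  deriv (fun τ => fam w0 v ind τ θ ξ) σ

def indA (η : ℂ) : ℝ := η.re

def indB (η : ℂ) : ℝ := -η.im

theorem bmp_zero {r v : ℝ} (h : r ≤ v) : bmp r v = 0 :=
  expNegInvGlue.zero_of_nonpos (sub_nonpos.2 h)

theorem bmp_pos {r v : ℝ} (h : v < r) : 0 < bmp r v :=
  expNegInvGlue.pos_of_pos (sub_pos.2 h)

theorem inv_sq_im (η : ℂ) : ((η ^ 2)⁻¹).im = -(2 * η.re * η.im) / Complex.normSq (η ^ 2) := by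
  rw [Complex.inv_im]
  congr 2
  rw [pow_two, Complex.mul_im]
  ring

theorem inv_sq_re (η : ℂ) : ((η ^ 2)⁻¹).re = (η.re ^ 2 - η.im ^ 2) / Complex.normSq (η ^ 2) := by
  rw [Complex.inv_re]
  congr 1
  rw [pow_two, Complex.mul_re]
  ring

theorem one_le_norm_of_re {z : ℂ} (h : 1 ≤ |z.re|) : 1 ≤ ‖z‖ := h.trans (Complex.abs_re_le_norm z)

theorem one_le_norm_of_im {z : ℂ} (h : 1 ≤ |z.im|) : 1 ≤ ‖z‖ := h.trans (Complex.abs_im_le_norm z)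

theorem norm_sq_eq (z : ℂ) : ‖z‖ ^ 2 = z.re ^ 2 + z.im ^ 2 := by
  rw [← Complex.normSq_eq_norm_sq, Complex.normSq_apply]
  ring

/-- the conditions hold on the four legs -/
theorem legs :
    ((∀ σ ∈ Set.Ioo (-1 : ℝ) 3, 1 ≤ ‖(-1 + I) + σ * 1‖ ∧ ‖(-1 + I) + σ * 1‖ ^ 2 ≤ 5 ∧
      ∀ η : ℂ, η ≠ 0 → indA η = 0 → 1 ≤ ‖(η ^ 2)⁻¹ - ((-1 + I) + σ * 1)‖) ∧
    (∀ σ ∈ Set.Ioo (-1 : ℝ) 3, 1 ≤ ‖(1 + I) + σ * (-I)‖ ∧ ‖(1 + I) + σ * (-I)‖ ^ 2 ≤ 5 ∧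
      ∀ η : ℂ, η ≠ 0 → indA η = 0 → 1 ≤ ‖(η ^ 2)⁻¹ - ((1 + I) + σ * (-I))‖)) ∧
    ((∀ σ ∈ Set.Ioo (-1 : ℝ) 3, 1 ≤ ‖(-1 + I) + σ * (-I)‖ ∧ ‖(-1 + I) + σ * (-I)‖ ^ 2 ≤ 5 ∧
      ∀ η : ℂ, η ≠ 0 → indB η = 0 → 1 ≤ ‖(η ^ 2)⁻¹ - ((-1 + I) + σ * (-I))‖) ∧
    (∀ σ ∈ Set.Ioo (-1 : ℝ) 3, 1 ≤ ‖(-1 - I) + σ * 1‖ ∧ ‖(-1 - I) + σ * 1‖ ^ 2 ≤ 5 ∧
      ∀ η : ℂ, η ≠ 0 → indB η = 0 → 1 ≤ ‖(η ^ 2)⁻¹ - ((-1 - I) + σ * 1)‖)) := by
  refine ⟨⟨?_, ?_⟩, ⟨?_, ?_⟩⟩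
  · intro σ hσ
    refine ⟨one_le_norm_of_im (by simp), ?_, fun η _ hi => ?_⟩
    · rw [norm_sq_eq]
      simp
      nlinarith [hσ.1, hσ.2]
    · refine one_le_norm_of_im ?_
      have h0 : ((η ^ 2)⁻¹).im = 0 := by
        rw [inv_sq_im, show η.re = 0 from hi]
        simp
      rw [Complex.sub_im, h0]
      simp
  · intro σ hσ
    refine ⟨one_le_norm_of_re (by simp), ?_, fun η _ hi => ?_⟩
    · rw [norm_sq_eq]
      simp
      nlinarith [hσ.1, hσ.2]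
    · refine one_le_norm_of_re ?_
      have h0 : ((η ^ 2)⁻¹).re ≤ 0 := by
        rw [inv_sq_re, show η.re = 0 from hi]
        refine div_nonpos_of_nonpos_of_nonneg ?_ (Complex.normSq_nonneg _)
        nlinarith [sq_nonneg η.im]
      have h1 : ((η ^ 2)⁻¹ - ((1 + I) + σ * (-I))).re = ((η ^ 2)⁻¹).re - 1 := by
        rw [Complex.sub_re]
        simp
      rw [h1, abs_of_nonpos (by linarith)]
      linarith
  · intro σ hσ
    refine ⟨one_le_norm_of_re (by simp), ?_, fun η _ hi => ?_⟩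
    · rw [norm_sq_eq]
      simp
      nlinarith [hσ.1, hσ.2]
    · refine one_le_norm_of_re ?_
      have him : η.im = 0 := by
        have : -η.im = 0 := hi
        linarith
      have h0 : 0 ≤ ((η ^ 2)⁻¹).re := by
        rw [inv_sq_re, him]
        refine div_nonneg ?_ (Complex.normSq_nonneg _)
        nlinarith [sq_nonneg η.re]
      have h1 : ((η ^ 2)⁻¹ - ((-1 + I) + σ * (-I))).re = ((η ^ 2)⁻¹).re + 1 := by
        rw [Complex.sub_re]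
        simp
      rw [h1, abs_of_nonneg (by linarith)]
      linarith
  · intro σ hσ
    refine ⟨one_le_norm_of_im (by simp), ?_, fun η _ hi => ?_⟩
    · rw [norm_sq_eq]
      simp
      nlinarith [hσ.1, hσ.2]
    · refine one_le_norm_of_im ?_
      have him : η.im = 0 := by
        have : -η.im = 0 := hi
        linarith
      have h0 : ((η ^ 2)⁻¹).im = 0 := by
        rw [inv_sq_im, him]
        simp
      rw [Complex.sub_im, h0]
      simp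

/-- the two sheets agree at the start -/
theorem chi_start (c ξ : E) : chi (-1 + I) indA c ξ = chi (-1 + I) indB c ξ := by
  have key : ∀ η : ℂ, η.re * η.im ≥ 0 → bmp (1 / 4) (‖(η ^ 2)⁻¹ - (-1 + I)‖ ^ 2) = 0 := by
    intro η h
    refine bmp_zero ?_
    have h1 : ((η ^ 2)⁻¹).im ≤ 0 := by
      rw [inv_sq_im]
      refine div_nonpos_of_nonpos_of_nonneg ?_ (Complex.normSq_nonneg _)
      nlinarith
    have h2 : 1 ≤ ‖(η ^ 2)⁻¹ - (-1 + I)‖ := by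
      refine one_le_norm_of_im ?_
      have h3 : ((η ^ 2)⁻¹ - (-1 + I)).im = ((η ^ 2)⁻¹).im - 1 := by
        rw [Complex.sub_im]
        simp
      rw [h3, abs_of_nonpos (by linarith)]
      linarith
    nlinarith
  unfold chi
  by_cases ha : 0 < indA (eta ξ) <;> by_cases hb : 0 < indB (eta ξ)
  · rw [if_pos ha, if_pos hb]
  · rw [if_pos ha, if_neg hb]
    have h1 : 0 < (eta ξ).re := ha
    have h2 : 0 ≤ (eta ξ).im := by
      have : ¬ (0 < -(eta ξ).im) := hb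
      linarith
    have h3 := key (eta ξ) (mul_nonneg h1.le h2)
    show (((bmp (1 / 4) (‖(eta ξ ^ 2)⁻¹ - (-1 + I)‖ ^ 2) * _ : ℝ)) : ℂ) = 0
    rw [h3, zero_mul, Complex.ofReal_zero]
  · rw [if_neg ha, if_pos hb]
    have h1 : (eta ξ).re ≤ 0 := not_lt.1 ha
    have h2 : (eta ξ).im ≤ 0 := by
      have : (0 < -(eta ξ).im) := hb
      linarith
    have h3 := key (eta ξ) (mul_nonneg_of_nonpos_of_nonpos h1 h2)
    show 0 = (((bmp (1 / 4) (‖(eta ξ ^ 2)⁻¹ - (-1 + I)‖ ^ 2) * _ : ℝ)) : ℂ)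
    rw [h3, zero_mul, Complex.ofReal_zero]
  · rw [if_neg ha, if_neg hb]

/-- and differ at the end -/
theorem chi_end : ∃ ξ : E, chi (1 - I) indA 0 ξ - chi (1 - I) indB 0 ξ ≠ 0 := by
  refine ⟨![8 / 5, -4 / 5], ?_⟩
  have he : eta ![8 / 5, -4 / 5] = (4 + 2 * I) / 5 := by
    unfold eta
    simp
    ring
  have hre : (eta ![8 / 5, -4 / 5]).re = 4 / 5 := by
    rw [he]
    simp
  have him : (eta ![8 / 5, -4 / 5]).im = 2 / 5 := by
    rw [he]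
    simp
  have hW : WW ![8 / 5, -4 / 5] - (1 - I) = -(1 / 4) := by
    unfold WW
    have h1 : eta ![8 / 5, -4 / 5] ^ 2 * (3 / 4 - I) = 1 := by
      rw [he]
      ring_nf
      rw [show I ^ 3 = I ^ 2 * I by ring, Complex.I_sq]
      ring
    rw [inv_eq_of_mul_eq_one_right h1]
    ring
  unfold chi
  rw [if_pos (show 0 < indA (eta ![8 / 5, -4 / 5]) by unfold indA; rw [hre]; norm_num),
    if_neg (show ¬ 0 < indB (eta ![8 / 5, -4 / 5]) by unfold indB; rw [him]; norm_num), sub_zero, hW]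
  rw [Complex.ofReal_ne_zero]
  refine (mul_pos (bmp_pos ?_) (bmp_pos ?_)).ne'
  · rw [norm_neg]
    norm_num
  · have : yC 0 = 0 := by
      unfold yC
      simp
    rw [this]
    norm_num

end Pool.Agent.H56.Q
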